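import Mathlib

/-!
# Pairs with a torus action on arrangement varieties, and their minimal log discrepancies

Let `X` be a normal affine variety of dimension `n + c` with an effective action of an
`n`-dimensional torus and an elliptic fixed point `x` (it lies in the closure of each orbit), whose
rational quotient is `X ⇢ ℙ^c` with critical values in `r` hyperplanes in general position (a general
arrangement variety; for `c = 1` this is every `X` with rational quotient, and `c = 1`, `r = 2` are
the toric varieties). It is given by a polyhedral divisor `∑ Δ_y ⊗ H_y`, or by the matrix whose columns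
are the vectors `v i`: the vertex `w / l` of `Δ_y`, with `l` its least denominator, gives the vector
`(w, l e_y)`, and a ray of the tail cone which does not meet the sum of the `Δ_y` gives `(w, 0)`.
These vectors correspond to the invariant prime divisors `D_i` over the arrangement. The invariant
valuations of `X` which are toroidal over the arrangement are the points `(w, t)` of the cone of the
`v i` and of `± diag` with `t ≥ 0` and at most `c` nonzero coordinates `t_y`; the centre is `x` exactly
if the point is in the interior. On `f χ^u`, where `f` is a product of powers of linear forms, the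
valuation has the value `⟨u, w⟩ + ∑ t_y ord_{H_y} f`. If `K + B` is `ℝ`-Cartier, its log discrepancy
with respect to `(X, B)` is `⟨psi, (w, t)⟩`, with `psi` determined by the values
`1 - mult_{D_i} B` at `v i`, and `∑ (1 - psi_y) = c + 1` since `K` of `ℙ^c` has degree `- (c + 1)`.
For real powers of homogeneous ideals `a_j ^ μ_j`, with `a_j` generated by elements `f χ^u` as above,
one has to subtract `∑ μ_j min`, the minimum over the generators.

For `c = 1` the quotient can also be an elliptic curve; then `∑ (1 - psi_y) = 0`. If it has genus at
least `2`, then no pair is log canonical at `x`.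
-/

noncomputable section

namespace Pool.Agent.helper22.ARR

open Finset

/-- Combinatorial data of a pair with a torus action: integral vectors `v i`, a linear function
`psi`, and coefficients with finite sets of characters. -/
structure GenPair (ι : Type) where
  /-- the number of the vectors `v i` -/
  p : ℕ
  /-- the vectors `v i`, which correspond to the invariant prime divisors -/
  v : Fin p → ι → ℤ
  /-- the linear function -/
  psi : ι → ℝ
  /-- the exponents `μ_j` together with the finite sets `S_j` of characters which generate the
  homogeneous ideals `a_j` -/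
  parts : List (ℝ × Finset (ι → ℤ))

variable {ι : Type}

/-- an integral vector, seen as a real vector -/
def toReal (z : ι → ℤ) : ι → ℝ := fun j => (z j : ℝ)

variable [Fintype ι]

/-- the pairing of a character `m` with `w` -/
def pair (m : ι → ℤ) (w : ι → ℝ) : ℝ := ∑ j, (m j : ℝ) * w j

/-- the least value of `pair m w` for `m` in `S` -/
def low (S : Finset (ι → ℤ)) (w : ι → ℝ) : ℝ :=
  sInf ((fun m => pair m w) '' (S : Set (ι → ℤ)))

/-- the log discrepancy along the valuation `w` -/
def logDisc (t : GenPair ι) (w : ι → ℝ) : ℝ :=
  ∑ j, t.psi j * w j - (t.parts.map fun a => a.1 * low a.2 w).sum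

/-! ## arrangement varieties

The lattice is `ℤ^n × ℤ^r`. The coordinates `Sum.inl i` are those of the lattice of one-parameter
subgroups of the torus, the coordinates `Sum.inr y` belong to `r` hyperplanes in general position in
`ℙ^c`. -/

variable {n r : ℕ}

/-- the vector `(0, (1, …, 1))` -/
def diag (n r : ℕ) : Fin n ⊕ Fin r → ℤ := Sum.elim (fun _ => 0) (fun _ => 1)

/-- the cone generated by the vectors `v i`, together with all multiples of `diag` -/
def bigCone (t : GenPair (Fin n ⊕ Fin r)) : Set (Fin n ⊕ Fin r → ℝ) :=
  {x | ∃ (μ : Fin t.p → ℝ) (s : ℝ), (∀ i, 0 ≤ μ i) ∧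
    ∀ j, x j = ∑ i, μ i * (t.v i j : ℝ) + s * (diag n r j : ℝ)}

/-- the coordinates `Sum.inr y` of `z` are nonnegative, and at most `c` of them are not zero -/
def Trop (c : ℕ) (z : Fin n ⊕ Fin r → ℤ) : Prop :=
  (∀ y, 0 ≤ z (Sum.inr y)) ∧ (univ.filter fun y => z (Sum.inr y) ≠ 0).card ≤ c

/-- `t` describes a log canonical pair with coefficients in `Γ` on an arrangement variety over
`ℙ^c`; for the boundary, sums of elements of `Γ` (in particular `0`) are allowed -/
structure IsLC (c : ℕ) (Γ : Set ℝ) (t : GenPair (Fin n ⊕ Fin r)) : Prop where
  /-- there are more than `c` hyperplanes -/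
  size : c < r
  /-- each `v i` is of the form `(w, 0)` or `(w, l e_y)` with `l > 0` -/
  columns : ∀ i, Trop 1 (t.v i)
  /-- each `y` occurs in some `v i` -/
  onto : ∀ y, ∃ i, t.v i (Sum.inr y) ≠ 0
  /-- `K + B` is `ℝ`-Cartier; the canonical divisor of `ℙ^c` has degree `- (c + 1)`. In the second
  case (for `c = 1`) the base is an elliptic curve instead of `ℙ^1`. -/
  degree : ∑ y, (1 - t.psi (Sum.inr y)) = c + 1 ∨ ∑ y, (1 - t.psi (Sum.inr y)) = 0
  /-- the exponents lie in `Γ`, the sets of characters are nonempty, and the characters are trivial
  on `diag` -/
  parts : ∀ a ∈ t.parts, a.1 ∈ Γ ∧ a.2.Nonempty ∧ ∀ m ∈ a.2, ∑ y, m (Sum.inr y) = 0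
  /-- the coefficients of the boundary are finite sums of elements of `Γ` -/
  boundary : ∀ i, 1 - logDisc t (toReal (t.v i)) ∈ AddSubmonoid.closure Γ
  /-- all log discrepancies are nonnegative -/
  lc : ∀ z, Trop c z → toReal z ∈ bigCone t → 0 ≤ logDisc t (toReal z)
  /-- the cone is of full dimension -/
  full : (interior (bigCone t)).Nonempty

/-- the minimal log discrepancy at the elliptic fixed point: the infimum of the log discrepancies of
the invariant valuations with this centre -/
def mld (c : ℕ) (t : GenPair (Fin n ⊕ Fin r)) : ℝ :=
  sInf {x | ∃ z, Trop c z ∧ toReal z ∈ interior (bigCone t) ∧ x = logDisc t (toReal z)}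

end Pool.Agent.helper22.ARR
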