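import Pool.Agent.helper22.ACC.Kron
import Pool.Agent.helper22.ARR.Defs

/-!
# Cones: Carathéodory's theorem, relative interior points, lattices
-/

noncomputable section

namespace Pool.Agent.helper22.ARR

open Finset Pool.Agent.helper22.ACC
open scoped Pointwise

section car

variable {κ ι : Type*} [Fintype κ]

theorem caratheodory (v : κ → ι → ℝ) (w : ι → ℝ) :
    ∀ (N : ℕ) (μ : κ → ℝ), {i | μ i ≠ 0}.ncard = N → (∀ i, 0 ≤ μ i) →
    w = ∑ i, μ i • v i →
    ∃ (d : ℕ) (T : Fin d → κ) (l : Fin d → ℝ), (∀ i, 0 < l i) ∧ w = ∑ i, l i • v (T i) ∧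
      LinearIndependent ℝ (fun i => v (T i)) := by
  classical
  intro N
  induction N using Nat.strong_induction_on with
  | _ N ih =>
  intro μ hN hμ hw
  set s := univ.filter fun i => μ i ≠ 0 with hs
  have hsm : ∀ i, i ∈ s ↔ μ i ≠ 0 := fun i => by simp [hs]
  have hcard : ∀ ν : κ → ℝ, {i | ν i ≠ 0}.ncard = (univ.filter fun i => ν i ≠ 0).card := by
    intro ν
    rw [← Set.ncard_coe_finset]
    congr 1
    ext i; simp
  have hsum : ∑ i, μ i • v i = ∑ i : s, μ i • v i := by
    rw [Finset.sum_coe_sort s (fun i => μ i • v i)]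
    symm
    apply Finset.sum_subset (Finset.subset_univ _)
    intro i _ hi
    have : μ i = 0 := by
      by_contra h; exact hi ((hsm i).2 h)
    rw [this, zero_smul]
  by_cases hli : LinearIndependent ℝ (fun i : s => v i)
  · refine ⟨s.card, fun i => (s.equivFin.symm i : κ), fun i => μ (s.equivFin.symm i), ?_, ?_, ?_⟩
    · intro i
      exact lt_of_le_of_ne (hμ _) (Ne.symm ((hsm _).1 (s.equivFin.symm i).2))
    · rw [hw, hsum]
      exact (Equiv.sum_comp s.equivFin.symm (fun i : s => μ i • v i)).symm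
    · exact hli.comp _ s.equivFin.symm.injective
  · rw [Fintype.not_linearIndependent_iff] at hli
    obtain ⟨g0, hg0, i0, hi0⟩ := hli
    -- some positive coefficient
    obtain ⟨g, hg, i1, hi1⟩ : ∃ g : s → ℝ, ∑ i, g i • v i = 0 ∧ ∃ i, 0 < g i := by
      rcases lt_or_gt_of_ne hi0 with h | h
      · refine ⟨fun i => - g0 i, ?_, i0, by simpa using h⟩
        simp only [neg_smul, Finset.sum_neg_distrib]
        rw [hg0, neg_zero]
      · exact ⟨g0, hg0, i0, h⟩
    set c : κ → ℝ := fun i => if h : i ∈ s then g ⟨i, h⟩ else 0 with hc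
    have hcs : ∀ i : s, c i = g i := fun i => by simp [hc]
    have hc0 : ∀ i, i ∉ s → c i = 0 := fun i hi => by simp [hc, hi]
    have hcsum : ∑ i, c i • v i = 0 := by
      rw [← hg, ← Finset.sum_congr rfl (fun i _ => by rw [hcs i] : ∀ i ∈ (univ : Finset s),
        c i • v i = g i • v i), Finset.sum_coe_sort s (fun i => c i • v i)]
      symm
      apply Finset.sum_subset (Finset.subset_univ _)
      intro i _ hi
      rw [hc0 i hi, zero_smul]
    set P := univ.filter fun i => 0 < c i with hP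
    have hPne : P.Nonempty := ⟨i1, by simp [hP, hcs i1, hi1]⟩
    obtain ⟨j, hj, hjmin⟩ := Finset.exists_min_image P (fun i => μ i / c i) hPne
    have hcj : 0 < c j := by simpa [hP] using hj
    have hjs : j ∈ s := by
      by_contra h; rw [hc0 j h] at hcj; exact lt_irrefl _ hcj
    set t := μ j / c j with ht
    have ht0 : 0 ≤ t := div_nonneg (hμ j) hcj.le
    set μ' : κ → ℝ := fun i => μ i - t * c i with hμ'
    have h1 : ∀ i, 0 ≤ μ' i := by
      intro i
      by_cases hci : 0 < c i
      · have h2 := hjmin i (by simp [hP, hci])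
        have h3 : t * c i ≤ μ i := by
          rw [ht]
          calc μ j / c j * c i ≤ μ i / c i * c i := mul_le_mul_of_nonneg_right h2 hci.le
            _ = μ i := div_mul_cancel₀ _ hci.ne'
        simp only [hμ']; linarith
      · have h2 : t * c i ≤ 0 := mul_nonpos_of_nonneg_of_nonpos ht0 (not_lt.1 hci)
        have h3 := hμ i
        simp only [hμ']; linarith
    have h2 : w = ∑ i, μ' i • v i := by
      simp only [hμ', sub_smul, Finset.sum_sub_distrib, mul_smul, ← Finset.smul_sum, hcsum,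
        smul_zero, sub_zero]
      exact hw
    have h3 : (univ.filter fun i => μ' i ≠ 0) ⊂ s := by
      rw [Finset.ssubset_iff_of_subset]
      · refine ⟨j, hjs, ?_⟩
        simp only [Finset.mem_filter, Finset.mem_univ, true_and, not_not, hμ', ht]
        field_simp
        ring
      · intro i hi
        by_contra h
        have h4 : μ i = 0 := by by_contra h'; exact h ((hsm i).2 h')
        simp only [Finset.mem_filter, Finset.mem_univ, true_and, hμ', h4, hc0 i h, mul_zero,
          sub_zero, ne_eq, not_true_eq_false] at hi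
    exact ih _ (by rw [← hN, hcard μ, hcard μ']; exact Finset.card_lt_card h3) μ' rfl h1 h2

end car

variable {κ : Type*} {ι : Type} [Fintype κ] {d : ℕ}

/-- the cone generated by the vectors `v i` -/
def coneOf (v : κ → ι → ℤ) : Set (ι → ℝ) :=
  {w | ∃ μ : κ → ℝ, (∀ i, 0 ≤ μ i) ∧ ∀ j, w j = ∑ i, μ i * (v i j : ℝ)}

/-- the relative interior of the cone: every generator can be subtracted a little -/
def rint (v : κ → ι → ℤ) : Set (ι → ℝ) :=
  {w | w ∈ coneOf v ∧ ∀ i, ∃ ε > 0, w - (ε : ℝ) • toReal (v i) ∈ coneOf v}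

/-- the point with coordinates `u` with respect to the vectors `v (T i)` -/
def pt (v : κ → ι → ℤ) (T : Fin d → κ) (u : Fin d → ℝ) : ι → ℝ :=
  fun j => ∑ i, u i * (v (T i) j : ℝ)

variable (v : κ → ι → ℤ) (T : Fin d → κ)

theorem coneOf_zero : (0 : ι → ℝ) ∈ coneOf v := ⟨fun _ => 0, fun _ => le_rfl, fun j => by simp⟩

theorem coneOf_add {x y : ι → ℝ} (hx : x ∈ coneOf v) (hy : y ∈ coneOf v) :
    x + y ∈ coneOf v := by
  obtain ⟨μ, hμ, h1⟩ := hx
  obtain ⟨ν, hν, h2⟩ := hy
  refine ⟨fun i => μ i + ν i, fun i => add_nonneg (hμ i) (hν i), fun j => ?_⟩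
  simp only [Pi.add_apply, h1, h2, add_mul, Finset.sum_add_distrib]

theorem coneOf_smul {x : ι → ℝ} (hx : x ∈ coneOf v) {t : ℝ} (ht : 0 ≤ t) :
    t • x ∈ coneOf v := by
  obtain ⟨μ, hμ, h1⟩ := hx
  refine ⟨fun i => t * μ i, fun i => mul_nonneg ht (hμ i), fun j => ?_⟩
  simp only [Pi.smul_apply, smul_eq_mul, h1, Finset.mul_sum, mul_assoc]

theorem coneOf_gen (i : κ) : toReal (v i) ∈ coneOf v := by
  classical
  refine ⟨fun k => if k = i then 1 else 0, fun k => by dsimp only; split_ifs <;> norm_num,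
    fun j => ?_⟩
  simp [toReal]

theorem coneOf_sum {α : Type*} (s : Finset α) (f : α → ι → ℝ) (h : ∀ a ∈ s, f a ∈ coneOf v) :
    ∑ a ∈ s, f a ∈ coneOf v := by
  classical
  induction s using Finset.induction_on with
  | empty => simpa using coneOf_zero v
  | insert a s ha ih =>
    rw [Finset.sum_insert ha]
    exact coneOf_add v (h a (Finset.mem_insert_self _ _))
      (ih fun b hb => h b (Finset.mem_insert_of_mem hb))

omit [Fintype κ] in
theorem pt_eq_sum (u : Fin d → ℝ) : pt v T u = ∑ i, u i • toReal (v (T i)) := by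
  funext j
  simp only [pt, toReal, Finset.sum_apply, Pi.smul_apply, smul_eq_mul]

theorem pt_mem {u : Fin d → ℝ} (hu : ∀ i, 0 ≤ u i) : pt v T u ∈ coneOf v := by
  rw [pt_eq_sum]
  exact coneOf_sum v _ _ fun i _ => coneOf_smul v (coneOf_gen v _) (hu i)

omit [Fintype κ] in
theorem pt_add (u u' : Fin d → ℝ) : pt v T (u + u') = pt v T u + pt v T u' := by
  funext j
  simp only [pt, Pi.add_apply, add_mul, Finset.sum_add_distrib]

omit [Fintype κ] in
theorem pt_smul (t : ℝ) (u : Fin d → ℝ) : pt v T (t • u) = t • pt v T u := by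
  funext j
  simp only [pt, Pi.smul_apply, smul_eq_mul, Finset.mul_sum, mul_assoc]

theorem rint_add {x y : ι → ℝ} (hx : x ∈ rint v) (hy : y ∈ coneOf v) :
    x + y ∈ rint v := by
  refine ⟨coneOf_add v hx.1 hy, fun i => ?_⟩
  obtain ⟨ε, hε, h⟩ := hx.2 i
  refine ⟨ε, hε, ?_⟩
  have : x + y - ε • toReal (v i) = (x - ε • toReal (v i)) + y := by abel
  rw [this]
  exact coneOf_add v h hy

theorem rint_smul {x : ι → ℝ} (hx : x ∈ rint v) {t : ℝ} (ht : 0 < t) :
    t • x ∈ rint v := by
  refine ⟨coneOf_smul v hx.1 ht.le, fun i => ?_⟩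
  obtain ⟨ε, hε, h⟩ := hx.2 i
  refine ⟨t * ε, mul_pos ht hε, ?_⟩
  have : t • x - (t * ε) • toReal (v i) = t • (x - ε • toReal (v i)) := by
    rw [smul_sub, smul_smul]
  rw [this]
  exact coneOf_smul v h ht.le

theorem pt_rint {l u : Fin d → ℝ} (hl : pt v T l ∈ rint v)
    (hu : ∀ i, 0 < u i) : pt v T u ∈ rint v := by
  obtain ⟨t, ht, h⟩ : ∃ t : ℝ, 0 < t ∧ ∀ i, 0 ≤ u i - t * l i := by
    rcases isEmpty_or_nonempty (Fin d) with h | h
    · exact ⟨1, one_pos, fun i => (h.false i).elim⟩
    · obtain ⟨i0, hi0⟩ := Finite.exists_min (fun i => u i / (|l i| + 1))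
      have hp : ∀ i, 0 < |l i| + 1 := fun i => by positivity
      refine ⟨u i0 / (|l i0| + 1), div_pos (hu i0) (hp i0), fun i => ?_⟩
      have h1 := hi0 i
      have h2 : u i0 / (|l i0| + 1) * l i ≤ u i / (|l i| + 1) * (|l i| + 1) := by
        have h3 : 0 ≤ u i0 / (|l i0| + 1) := (div_pos (hu i0) (hp i0)).le
        calc u i0 / (|l i0| + 1) * l i ≤ u i0 / (|l i0| + 1) * (|l i| + 1) :=
              mul_le_mul_of_nonneg_left (by linarith [le_abs_self (l i)]) h3
          _ ≤ u i / (|l i| + 1) * (|l i| + 1) := mul_le_mul_of_nonneg_right h1 (hp i).le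
      rw [div_mul_cancel₀ _ (hp i).ne'] at h2
      linarith
  have h1 : u = t • l + (u - t • l) := by abel
  rw [h1, pt_add, pt_smul]
  exact rint_add v (rint_smul v hl ht) (pt_mem v T fun i => by simpa using h i)

/-- the sum of all generators lies in the relative interior -/
theorem sum_rint : ∑ i, toReal (v i) ∈ rint v := by
  classical
  refine ⟨coneOf_sum v _ _ fun i _ => coneOf_gen v i, fun i => ⟨1, one_pos, ?_⟩⟩
  rw [one_smul, ← Finset.add_sum_erase univ (fun i => toReal (v i)) (Finset.mem_univ i),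
    add_sub_cancel_left]
  exact coneOf_sum v _ _ fun i _ => coneOf_gen v i

/-- the lattice of integral points in the coordinates with respect to `v (T i)` -/
def latt : AddSubgroup (Fin d → ℝ) where
  carrier := {u | ∃ z : ι → ℤ, pt v T u = toReal z}
  zero_mem' := ⟨0, by funext j; simp [pt, toReal]⟩
  add_mem' := by
    rintro a b ⟨x, hx⟩ ⟨y, hy⟩
    refine ⟨x + y, ?_⟩
    rw [pt_add, hx, hy]
    funext j
    simp [toReal]
  neg_mem' := by
    rintro a ⟨x, hx⟩
    refine ⟨-x, ?_⟩
    have : -a = (-1 : ℝ) • a := by simp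
    rw [this, pt_smul, hx]
    funext j
    simp [toReal]

omit [Fintype κ] in
theorem latt_isOver [Fintype ι] (hli : LinearIndependent ℝ (fun i => toReal (v (T i)))) :
    IsOver (latt v T) := by
  classical
  refine ⟨?_, ?_⟩
  · intro z
    refine ⟨fun j => ∑ i, z i * v (T i) j, ?_⟩
    funext j
    simp only [pt, toReal]
    push_cast
    rfl
  · have hinj : Function.Injective (pt v T) := by
      intro a b hab
      have h0 : ∑ i, (a i - b i) • toReal (v (T i)) = 0 := by
        funext j
        have := congrFun hab j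
        simp only [pt] at this
        simp only [Finset.sum_apply, Pi.smul_apply, smul_eq_mul, Pi.zero_apply, sub_mul,
          Finset.sum_sub_distrib, toReal]
        linarith
      have := Fintype.linearIndependent_iff.1 hli _ h0
      funext i
      linarith [this i]
    set B : ι → ℤ := fun j => ∑ i, |v (T i) j| with hB
    have hfin : ((fun z : ι → ℤ => toReal z) '' Set.Icc (-B) B).Finite :=
      (Set.finite_Icc _ _).image _
    refine Set.Finite.of_finite_image (f := pt v T) (hfin.subset ?_) hinj.injOn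
    rintro _ ⟨g, ⟨⟨z, hz⟩, hg⟩, rfl⟩
    refine ⟨z, ?_, hz.symm⟩
    have h1 : ∀ j, |z j| ≤ B j := by
      intro j
      have h2 : |(z j : ℝ)| ≤ ∑ i, |(v (T i) j : ℝ)| := by
        have := congrFun hz j
        simp only [toReal] at this
        rw [← this, pt]
        refine (Finset.abs_sum_le_sum_abs _ _).trans (Finset.sum_le_sum fun i _ => ?_)
        rw [abs_mul]
        have h3 : |g i| ≤ 1 := by rw [abs_le]; constructor <;> linarith [(hg i).1, (hg i).2]
        exact mul_le_of_le_one_left (abs_nonneg _) h3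
      have h3 : ((|z j| : ℤ) : ℝ) ≤ ((B j : ℤ) : ℝ) := by
        rw [hB]; push_cast; exact h2
      exact_mod_cast h3
    rw [Set.mem_Icc]
    exact ⟨fun j => (abs_le.1 (h1 j)).1, fun j => (abs_le.1 (h1 j)).2⟩

/-! ## interior and relative interior -/

theorem rint_of_interior [Finite ι] {x : ι → ℝ} (hx : x ∈ interior (coneOf v)) : x ∈ rint v := by
  refine ⟨interior_subset hx, fun i => ?_⟩
  have hc : Continuous (fun ε : ℝ => x - ε • toReal (v i)) := by fun_prop
  have h0 : (fun ε : ℝ => x - ε • toReal (v i)) ⁻¹' interior (coneOf v) ∈ nhds (0 : ℝ) := by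
    apply (isOpen_interior.preimage hc).mem_nhds
    simpa using hx
  rw [Metric.mem_nhds_iff] at h0
  obtain ⟨δ, hδ, hball⟩ := h0
  refine ⟨δ / 2, by positivity, ?_⟩
  have : δ / 2 ∈ Metric.ball (0 : ℝ) δ := by
    rw [Metric.mem_ball, Real.dist_eq, sub_zero, abs_of_pos (by positivity)]
    linarith
  exact interior_subset (hball this)

theorem interior_add {x y : ι → ℝ} (hx : x ∈ interior (coneOf v)) (hy : y ∈ coneOf v) :
    x + y ∈ interior (coneOf v) := by
  have h1 : IsOpen ((fun z => y + z) '' interior (coneOf v)) :=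
    isOpenMap_add_left y _ isOpen_interior
  have h2 : ((fun z => y + z) '' interior (coneOf v)) ⊆ coneOf v := by
    rintro _ ⟨z, hz, rfl⟩
    exact coneOf_add v hy (interior_subset hz)
  have h3 := interior_maximal h2 h1
  rw [add_comm]
  exact h3 ⟨x, hx, rfl⟩

theorem interior_smul {x : ι → ℝ} (hx : x ∈ interior (coneOf v)) {t : ℝ} (ht : 0 < t) :
    t • x ∈ interior (coneOf v) := by
  have h1 : IsOpen (t • interior (coneOf v)) := isOpen_interior.smul₀ ht.ne'
  have h2 : (t • interior (coneOf v)) ⊆ coneOf v := by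
    rintro _ ⟨z, hz, rfl⟩
    exact coneOf_smul v (interior_subset hz) ht.le
  exact interior_maximal h2 h1 ⟨x, hx, rfl⟩

/-- if every generator can be subtracted from `x`, some positive multiple of any given element of
the cone can be subtracted -/
theorem rint_sub {x y : ι → ℝ} (hx : x ∈ rint v) (hy : y ∈ coneOf v) :
    ∃ ε > 0, x - (ε : ℝ) • y ∈ coneOf v := by
  classical
  obtain ⟨μ, hμ, hy⟩ := hy
  choose ε hε h using hx.2
  rcases isEmpty_or_nonempty κ with hκ | hκ
  · refine ⟨1, one_pos, ?_⟩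
    have : y = 0 := by funext j; rw [hy j]; simp
    rw [this, smul_zero, sub_zero]
    exact hx.1
  -- average
  set N : ℝ := (Fintype.card κ : ℝ) with hN
  have hNp : 0 < N := by rw [hN]; exact_mod_cast Fintype.card_pos
  obtain ⟨δ, hδ, hδ2⟩ : ∃ δ : ℝ, 0 < δ ∧ ∀ i, δ * μ i ≤ ε i / N := by
    obtain ⟨i0, hi0⟩ := Finite.exists_min (fun i => (ε i / N) / (μ i + 1))
    have hp : ∀ i, 0 < μ i + 1 := fun i => by linarith [hμ i]
    refine ⟨(ε i0 / N) / (μ i0 + 1), div_pos (div_pos (hε i0) hNp) (hp i0), fun i => ?_⟩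
    have h1 := hi0 i
    have h3 : 0 ≤ (ε i0 / N) / (μ i0 + 1) := (div_pos (div_pos (hε i0) hNp) (hp i0)).le
    calc (ε i0 / N) / (μ i0 + 1) * μ i ≤ (ε i0 / N) / (μ i0 + 1) * (μ i + 1) :=
          mul_le_mul_of_nonneg_left (by linarith) h3
      _ ≤ (ε i / N) / (μ i + 1) * (μ i + 1) := mul_le_mul_of_nonneg_right h1 (hp i).le
      _ = ε i / N := div_mul_cancel₀ _ (hp i).ne'
  refine ⟨δ, hδ, ?_⟩
  have key : x - δ • y = ∑ i, (N⁻¹ • (x - ε i • toReal (v i)) + (ε i / N - δ * μ i) • toReal (v i)) := by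
    have h1 : y = ∑ i, μ i • toReal (v i) := by
      funext j
      rw [hy j]
      simp only [Finset.sum_apply, Pi.smul_apply, smul_eq_mul, toReal]
    rw [h1]
    simp only [Finset.sum_add_distrib, sub_smul, smul_sub, Finset.sum_sub_distrib,
      Finset.sum_const, Finset.card_univ, Finset.smul_sum, smul_smul]
    have h2 : Fintype.card κ • N⁻¹ • x = x := by
      rw [← Nat.cast_smul_eq_nsmul ℝ, smul_smul, ← hN, mul_inv_cancel₀ hNp.ne', one_smul]
    rw [h2]
    have h3 : ∀ i, N⁻¹ * ε i = ε i / N := fun i => by ring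
    simp only [h3]
    abel
  rw [key]
  refine coneOf_sum v _ _ fun i _ => coneOf_add v (coneOf_smul v (h i) (by positivity))
    (coneOf_smul v (coneOf_gen v i) (by linarith [hδ2 i]))

theorem interior_of_rint {x : ι → ℝ} (hne : (interior (coneOf v)).Nonempty) (hx : x ∈ rint v) :
    x ∈ interior (coneOf v) := by
  obtain ⟨y, hy⟩ := hne
  obtain ⟨ε, hε, h⟩ := rint_sub v hx (interior_subset hy)
  have : x = ε • y + (x - ε • y) := by abel
  rw [this]
  exact interior_add v (interior_smul v hy hε) h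

end Pool.Agent.helper22.ARR
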