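import Pool.Agent.helper22.ARR.Core
import Pool.Agent.helper22.ARR.Geo
import Pool.Agent.helper22.ACC.Wqo

/-!
# The ascending chain condition in a toric setting, with a constant
-/

noncomputable section

namespace Pool.Agent.helper22.ARR

open Finset Pool.Agent.helper22.ACC
open scoped Pointwise

variable {d : ℕ}

/-! ## orders of monomial ideals in coordinates -/

/-- order of the monomial ideal with exponents `E` along `u` -/
def od (E : Set (Fin d → ℕ)) (u : Fin d → ℝ) : ℝ := sInf ((fun e => ∑ i, (e i : ℝ) * u i) '' E)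

theorem od_bdd (E : Set (Fin d → ℕ)) {u : Fin d → ℝ} (hu : ∀ i, 0 < u i) :
    BddBelow ((fun e : Fin d → ℕ => ∑ i, (e i : ℝ) * u i) '' E) := by
  refine ⟨0, ?_⟩
  rintro _ ⟨e, _, rfl⟩
  exact Finset.sum_nonneg fun i _ => mul_nonneg (Nat.cast_nonneg _) (hu i).le

theorem od_nonneg (E : Set (Fin d → ℕ)) {u : Fin d → ℝ} (hu : ∀ i, 0 < u i) : 0 ≤ od E u := by
  apply Real.sInf_nonneg
  rintro _ ⟨e, _, rfl⟩
  exact Finset.sum_nonneg fun i _ => mul_nonneg (Nat.cast_nonneg _) (hu i).le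

theorem od_mono {E E' : Set (Fin d → ℕ)} (hne : E'.Nonempty) (h : Sm E E') {u : Fin d → ℝ}
    (hu : ∀ i, 0 < u i) : od E u ≤ od E' u := by
  apply le_csInf (hne.image _)
  rintro _ ⟨e, he, rfl⟩
  obtain ⟨s, hs, hse⟩ := h e he
  refine (csInf_le (od_bdd E hu) ⟨s, hs, rfl⟩).trans (Finset.sum_le_sum fun i _ => ?_)
  exact mul_le_mul_of_nonneg_right (by exact_mod_cast hse i) (hu i).le

theorem od_add {E : Set (Fin d → ℕ)} (hne : E.Nonempty) {u v : Fin d → ℝ}
    (hu : ∀ i, 0 < u i) (hv : ∀ i, 0 < v i) : od E u + od E v ≤ od E (u + v) := by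
  apply le_csInf (hne.image _)
  rintro _ ⟨e, he, rfl⟩
  have h1 := csInf_le (od_bdd E hu) ⟨e, he, rfl⟩
  have h2 := csInf_le (od_bdd E hv) ⟨e, he, rfl⟩
  simp only [Pi.add_apply, mul_add, Finset.sum_add_distrib]
  exact add_le_add h1 h2

theorem od_smul (E : Set (Fin d → ℕ)) {t : ℝ} (ht : 0 < t) (u : Fin d → ℝ) :
    od E (t • u) = t * od E u := by
  have h1 : ((fun e : Fin d → ℕ => ∑ i, (e i : ℝ) * (t • u) i) '' E) =
      t • ((fun e : Fin d → ℕ => ∑ i, (e i : ℝ) * u i) '' E) := by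
    rw [← Set.image_smul, Set.image_image]
    refine Set.image_congr fun e _ => ?_
    simp only [Pi.smul_apply, smul_eq_mul, Finset.mul_sum]
    exact Finset.sum_congr rfl fun i _ => by ring
  rw [od, h1, Real.sInf_smul_of_nonneg ht.le, smul_eq_mul, od]

/-! ## log discrepancies in coordinates -/

/-- the log discrepancy in coordinates -/
def GG (C : ℝ) (b : Fin d → ℝ) (I : List (ℝ × Set (Fin d → ℕ))) (u : Fin d → ℝ) : ℝ :=
  ∑ i, u i * (C - b i) - (I.map fun a => a.1 * od a.2 u).sum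

theorem GG_good {C : ℝ} (hC : 0 < C) {b : Fin d → ℝ} {I : List (ℝ × Set (Fin d → ℕ))} (hb : ∀ i, 0 ≤ b i)
    (hI : ∀ a ∈ I, 0 ≤ a.1 ∧ a.2.Nonempty)
    (hn : ∀ z : Fin d → ℕ, (∀ i, 0 < z i) → 0 ≤ GG C b I (fun i => (z i : ℝ))) :
    Good C (GG C b I) := by
  have hsub : ∀ u v : Fin d → ℝ, (∀ i, 0 < u i) → (∀ i, 0 < v i) →
      GG C b I (u + v) ≤ GG C b I u + GG C b I v := by
    intro u v hu hv
    have h1 : (I.map fun a => a.1 * od a.2 u).sum + (I.map fun a => a.1 * od a.2 v).sum ≤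
        (I.map fun a => a.1 * od a.2 (u + v)).sum := by
      rw [← List.sum_map_add]
      apply List.sum_le_sum
      intro a ha
      have := mul_le_mul_of_nonneg_left (od_add (hI a ha).2 hu hv) (hI a ha).1
      rw [mul_add] at this
      exact this
    simp only [GG, Pi.add_apply, add_mul, Finset.sum_add_distrib]
    linarith
  have hhom : ∀ (t : ℝ) (u : Fin d → ℝ), 0 < t → (∀ i, 0 < u i) →
      GG C b I (t • u) = t * GG C b I u := by
    intro t u ht _
    simp only [GG, od_smul _ ht, Pi.smul_apply, smul_eq_mul, mul_sub, Finset.mul_sum]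
    congr 1
    · exact Finset.sum_congr rfl fun i _ => by ring
    · rw [← List.sum_map_mul_left]
      congr 1
      exact List.map_congr_left fun a _ => by ring
  have hle : ∀ u : Fin d → ℝ, (∀ i, 0 < u i) → GG C b I u ≤ C * ∑ i, u i := by
    intro u hu
    have h1 : 0 ≤ (I.map fun a => a.1 * od a.2 u).sum := by
      apply List.sum_nonneg
      intro x hx
      obtain ⟨a, ha, rfl⟩ := List.mem_map.1 hx
      exact mul_nonneg (hI a ha).1 (od_nonneg _ hu)
    have h2 : ∑ i, u i * (C - b i) ≤ C * ∑ i, u i := by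
      rw [Finset.mul_sum]
      refine Finset.sum_le_sum fun i _ => ?_
      nlinarith [hu i, hb i]
    simp only [GG]; linarith
  refine ⟨hsub, hhom, ?_, hle⟩
  intro u hu
  by_contra hcon
  push Not at hcon
  -- rational point slightly above `u`
  obtain ⟨N, hN0, hN⟩ : ∃ N : ℕ, 0 < N ∧ (C * d : ℝ) * (1 / N) < - GG C b I u := by
    obtain ⟨N, hN⟩ := exists_nat_gt ((C * d : ℝ) / (- GG C b I u))
    have h1 : (0 : ℝ) ≤ (C * d : ℝ) / (- GG C b I u) :=
      div_nonneg (mul_nonneg hC.le (Nat.cast_nonneg _)) (by linarith)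
    have h2 : (0 : ℝ) < N := lt_of_le_of_lt h1 hN
    refine ⟨N, by exact_mod_cast h2, ?_⟩
    rw [div_lt_iff₀ (by linarith)] at hN
    rw [mul_one_div, div_lt_iff₀ h2]
    linarith
  have hNr : (0 : ℝ) < N := by exact_mod_cast hN0
  set z : Fin d → ℕ := fun i => ⌊N * u i⌋₊ + 1 with hz
  have hz1 : ∀ i, (N : ℝ) * u i < z i := fun i => by
    simp only [hz]; push_cast; exact Nat.lt_floor_add_one _
  have hz2 : ∀ i, (z i : ℝ) ≤ N * u i + 1 := fun i => by
    simp only [hz]; push_cast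
    have := Nat.floor_le (mul_nonneg hNr.le (hu i).le)
    linarith
  set q : Fin d → ℝ := fun i => (z i : ℝ) with hq
  have h3 : (N : ℝ) • u + (q - (N : ℝ) • u) = q := by abel
  have h4 : ∀ i, 0 < ((N : ℝ) • u) i := fun i => mul_pos hNr (hu i)
  have h5 : ∀ i, 0 < (q - (N : ℝ) • u) i := fun i => by
    simp only [Pi.sub_apply, Pi.smul_apply, smul_eq_mul, hq]
    linarith [hz1 i]
  have h6 := hsub _ _ h4 h5
  rw [h3, hhom _ _ hNr hu] at h6
  have h7 := hle _ h5
  have h8 : ∑ i, (q - (N : ℝ) • u) i ≤ ∑ _i : Fin d, (1 : ℝ) := by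
    refine Finset.sum_le_sum fun i _ => ?_
    simp only [Pi.sub_apply, Pi.smul_apply, smul_eq_mul, hq]
    linarith [hz2 i]
  simp only [Finset.sum_const, Finset.card_univ, Fintype.card_fin, nsmul_eq_mul, mul_one] at h8
  have h9 := hn z (fun i => Nat.succ_pos _)
  have h10 : (C * d : ℝ) < N * (- GG C b I u) := by
    have := mul_lt_mul_of_pos_left hN hNr
    have e : (N : ℝ) * (C * d * (1 / N)) = C * d := by field_simp
    rw [e] at this
    exact this
  have h11 := mul_le_mul_of_nonneg_left h8 hC.le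
  change 0 ≤ GG C b I q at h9
  linarith

/-- comparison of an exponent and a monomial ideal -/
def Ri (x y : ℝ × Set (Fin d → ℕ)) : Prop := x.1 ≤ y.1 ∧ Sm x.2 y.2

instance : IsPreorder (ℝ × Set (Fin d → ℕ)) (Ri (d := d)) where
  refl x := ⟨le_rfl, refl_of Sm x.2⟩
  trans _ _ _ h1 h2 := ⟨h1.1.trans h2.1, trans_of Sm h1.2 h2.2⟩

theorem GG_mono {C : ℝ} {b b' : Fin d → ℝ} {I I' : List (ℝ × Set (Fin d → ℕ))} (hb : b ≤ b')
    (hI : ∀ a ∈ I', 0 ≤ a.1 ∧ a.2.Nonempty) (h : List.SublistForall₂ Ri I I')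
    {u : Fin d → ℝ} (hu : ∀ i, 0 < u i) : GG C b' I' u ≤ GG C b I u := by
  have h1 : (I.map fun a => a.1 * od a.2 u).sum ≤ (I'.map fun a => a.1 * od a.2 u).sum := by
    induction h with
    | nil =>
      simp only [List.map_nil, List.sum_nil]
      apply List.sum_nonneg
      intro x hx
      obtain ⟨a, ha, rfl⟩ := List.mem_map.1 hx
      exact mul_nonneg (hI a ha).1 (od_nonneg _ hu)
    | @cons x y l l' hxy _ ih =>
      simp only [List.map_cons, List.sum_cons]
      have hy := hI y List.mem_cons_self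
      refine add_le_add ?_ (ih fun a ha => hI a (List.mem_cons_of_mem _ ha))
      exact mul_le_mul hxy.1 (od_mono hy.2 hxy.2 hu) (od_nonneg _ hu) hy.1
    | @cons_right y l l' _ ih =>
      simp only [List.map_cons, List.sum_cons]
      have hy := hI y List.mem_cons_self
      have := ih fun a ha => hI a (List.mem_cons_of_mem _ ha)
      have h2 := mul_nonneg hy.1 (od_nonneg y.2 hu)
      linarith
  have h2 : ∑ i, u i * (C - b' i) ≤ ∑ i, u i * (C - b i) :=
    Finset.sum_le_sum fun i _ => mul_le_mul_of_nonneg_left (by linarith [hb i]) (hu i).le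
  simp only [GG]
  linarith

/-! ## transfer -/

variable {ι : Type} [Fintype ι]

/-- the pairing of integral vectors -/
def ipair (m z : ι → ℤ) : ℤ := ∑ j, m j * z j

theorem pair_toReal (m z : ι → ℤ) : pair m (toReal z) = (ipair m z : ℝ) := by
  simp only [pair, toReal, ipair]
  push_cast
  rfl

theorem low_int (S : Finset (ι → ℤ)) (hS : S.Nonempty) (z : ι → ℤ) :
    ∃ c : ℤ, low S (toReal z) = (c : ℝ) ∧ ∀ m ∈ S, c ≤ ipair m z := by
  obtain ⟨m0, hm0, hmin⟩ := S.exists_min_image (fun m => ipair m z) hS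
  refine ⟨ipair m0 z, ?_, hmin⟩
  apply le_antisymm
  · apply csInf_le
    · refine ⟨(ipair m0 z : ℝ), ?_⟩
      rintro _ ⟨m, hm, rfl⟩
      simp only [pair_toReal]
      exact_mod_cast hmin m hm
    · exact ⟨m0, hm0, pair_toReal m0 z⟩
  · apply le_csInf (Set.Nonempty.image _ (by exact_mod_cast hS))
    rintro _ ⟨m, hm, rfl⟩
    simp only [pair_toReal]
    exact_mod_cast hmin m hm

/-- the minimum at an integral vector -/
def lowI (S : Finset (ι → ℤ)) (z : ι → ℤ) : ℤ := ⌊low S (toReal z)⌋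

theorem low_eq {S : Finset (ι → ℤ)} (hS : S.Nonempty) (z : ι → ℤ) :
    low S (toReal z) = (lowI S z : ℝ) := by
  obtain ⟨c, hc, _⟩ := low_int S hS z
  rw [lowI, hc, Int.floor_intCast]

theorem lowI_le {S : Finset (ι → ℤ)} (z : ι → ℤ) {m : ι → ℤ} (hm : m ∈ S) :
    lowI S z ≤ ipair m z := by
  obtain ⟨c, hc, h⟩ := low_int S ⟨m, hm⟩ z
  rw [lowI, hc, Int.floor_intCast]
  exact h m hm

/-- a coefficient and a set of characters, in the coordinates given by `T` -/
def tr (t : GenPair ι) (T : Fin d → Fin t.p) (a : ℝ × Finset (ι → ℤ)) :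
    ℝ × Set (Fin d → ℕ) :=
  (a.1, (fun m : ι → ℤ => fun i => (ipair m (t.v (T i)) - lowI a.2 (t.v (T i))).toNat) ''
    (a.2 : Set (ι → ℤ)))

theorem sInf_add_const {A : Set ℝ} (hA : A.Nonempty) (hb : BddBelow A) (c : ℝ) :
    sInf ((fun x => c + x) '' A) = c + sInf A := by
  apply le_antisymm
  · have h1 : sInf ((fun x => c + x) '' A) - c ≤ sInf A := by
      apply le_csInf hA
      intro x hx
      have h2 : sInf ((fun x => c + x) '' A) ≤ c + x := by
        apply csInf_le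
        · obtain ⟨y, hy⟩ := hb
          refine ⟨c + y, ?_⟩
          rintro _ ⟨z, hz, rfl⟩
          exact add_le_add le_rfl (hy hz)
        · exact ⟨x, hx, rfl⟩
      linarith
    linarith
  · apply le_csInf (hA.image _)
    rintro _ ⟨x, hx, rfl⟩
    exact add_le_add le_rfl (csInf_le hb hx)

theorem low_pt (t : GenPair ι) (T : Fin d → Fin t.p) (a : ℝ × Finset (ι → ℤ))
    (ha : a.2.Nonempty) {u : Fin d → ℝ} (hu : ∀ i, 0 < u i) :
    low a.2 (pt t.v T u) = ∑ i, u i * low a.2 (toReal (t.v (T i))) + od (tr t T a).2 u := by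
  have hE : (tr t T a).2.Nonempty := Set.Nonempty.image _ (by exact_mod_cast ha)
  rw [od, ← sInf_add_const (hE.image _) (od_bdd _ hu), low, tr, Set.image_image, Set.image_image]
  congr 1
  refine Set.image_congr fun m hm => ?_
  simp only [pair, pt, Finset.mul_sum]
  rw [Finset.sum_comm, ← Finset.sum_add_distrib]
  refine Finset.sum_congr rfl fun i _ => ?_
  have h1 : (((ipair m (t.v (T i)) - lowI a.2 (t.v (T i))).toNat : ℕ) : ℝ) =
      (ipair m (t.v (T i)) : ℝ) - low a.2 (toReal (t.v (T i))) := by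
    have h2 : (((ipair m (t.v (T i)) - lowI a.2 (t.v (T i))).toNat : ℕ) : ℤ) =
        ipair m (t.v (T i)) - lowI a.2 (t.v (T i)) :=
      Int.toNat_of_nonneg (sub_nonneg.2 (lowI_le _ hm))
    have h3 : ((((ipair m (t.v (T i)) - lowI a.2 (t.v (T i))).toNat : ℕ) : ℤ) : ℝ) =
        ((ipair m (t.v (T i)) - lowI a.2 (t.v (T i)) : ℤ) : ℝ) := by rw [h2]
    push_cast at h3
    rw [low_eq ha]
    exact h3
  rw [h1, ← pair_toReal, pair]
  have h4 : ∑ j, (m j : ℝ) * (u i * (t.v (T i) j : ℝ)) =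
      u i * ∑ j, (m j : ℝ) * toReal (t.v (T i)) j := by
    rw [Finset.mul_sum]
    exact Finset.sum_congr rfl fun j _ => by simp only [toReal]; ring
  rw [h4]
  ring

/-- log canonical, with values at the generators at most `C` and with differences which are sums of
elements of `Γ` -/
structure LC2 (Γ : Set ℝ) (C : ℝ) (t : GenPair ι) : Prop where
  boundary : ∀ i, C - logDisc t (toReal (t.v i)) ∈ AddSubmonoid.closure Γ
  parts : ∀ a ∈ t.parts, a.1 ∈ Γ ∧ a.2.Nonempty
  lc : ∀ z : ι → ℤ, toReal z ∈ coneOf t.v → 0 ≤ logDisc t (toReal z)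

/-- infimum over the relative interior -/
def rmld (t : GenPair ι) : ℝ :=
  sInf {x | ∃ z : ι → ℤ, toReal z ∈ rint t.v ∧ x = logDisc t (toReal z)}

variable {Γ : Set ℝ} {C : ℝ}

theorem logDisc_pt {t : GenPair ι} (ht : LC2 Γ C t) (T : Fin d → Fin t.p)
    {u : Fin d → ℝ} (hu : ∀ i, 0 < u i) :
    logDisc t (pt t.v T u) =
      GG C (fun i => C - logDisc t (toReal (t.v (T i)))) (t.parts.map (tr t T)) u := by
  have key : ∀ L : List (ℝ × Finset (ι → ℤ)), (∀ a ∈ L, a.2.Nonempty) →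
      (L.map fun a => a.1 * low a.2 (pt t.v T u)).sum =
      ∑ i, u i * (L.map fun a => a.1 * low a.2 (toReal (t.v (T i)))).sum +
        ((L.map (tr t T)).map fun a => a.1 * od a.2 u).sum := by
    intro L
    induction L with
    | nil => simp
    | cons a L ih =>
      intro h
      have h1 := ih fun b hb => h b (List.mem_cons_of_mem _ hb)
      simp only [List.map_cons, List.sum_cons, mul_add, Finset.sum_add_distrib]
      rw [h1, low_pt t T a (h a List.mem_cons_self) hu]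
      have h2 : a.1 * ∑ i, u i * low a.2 (toReal (t.v (T i))) =
          ∑ i, u i * (a.1 * low a.2 (toReal (t.v (T i)))) := by
        rw [Finset.mul_sum]
        exact Finset.sum_congr rfl fun i _ => by ring
      have h3 : (tr t T a).1 = a.1 := rfl
      rw [mul_add, h2, h3]
      ring
  rw [logDisc, key _ fun a ha => (ht.parts a ha).2, GG]
  have h5 : ∑ j, t.psi j * pt t.v T u j = ∑ i, u i * ∑ j, t.psi j * toReal (t.v (T i)) j := by
    simp only [pt, Finset.mul_sum]
    rw [Finset.sum_comm]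
    refine Finset.sum_congr rfl fun i _ => ?_
    exact Finset.sum_congr rfl fun j _ => by simp only [toReal]; ring
  have h6 : ∑ i, u i * (C - (C - logDisc t (toReal (t.v (T i))))) =
      ∑ i, u i * ∑ j, t.psi j * toReal (t.v (T i)) j -
      ∑ i, u i * (t.parts.map fun a => a.1 * low a.2 (toReal (t.v (T i)))).sum := by
    rw [← Finset.sum_sub_distrib]
    refine Finset.sum_congr rfl fun i _ => ?_
    rw [logDisc]
    ring
  rw [h5, h6]
  ring

theorem closure_nonneg (hΓ : ∀ x ∈ Γ, 0 ≤ x) {x : ℝ}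
    (hx : x ∈ AddSubmonoid.closure Γ) : 0 ≤ x := by
  have h1 : AddSubmonoid.closure Γ ≤ AddSubmonoid.nonneg ℝ := by
    rw [AddSubmonoid.closure_le]
    intro y hy
    exact hΓ y hy
  exact h1 hx

theorem good_of (hΓ : ∀ x ∈ Γ, 0 ≤ x) (hC : 0 < C) {t : GenPair ι} (ht : LC2 Γ C t)
    (T : Fin d → Fin t.p) :
    Good C (GG C (fun i => C - logDisc t (toReal (t.v (T i)))) (t.parts.map (tr t T))) := by
  apply GG_good hC
  · intro i
    exact closure_nonneg hΓ (ht.boundary (T i))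
  · intro a ha
    obtain ⟨a0, ha0, rfl⟩ := List.mem_map.1 ha
    exact ⟨hΓ _ (ht.parts a0 ha0).1,
      Set.Nonempty.image _ (by exact_mod_cast (ht.parts a0 ha0).2)⟩
  · intro z hz
    have h1 : pt t.v T (fun i => (z i : ℝ)) = toReal (fun j => ∑ i, (z i : ℤ) * t.v (T i) j) := by
      funext j
      simp only [pt, toReal]
      push_cast
      rfl
    rw [← logDisc_pt ht T (fun i => by exact_mod_cast hz i), h1]
    apply ht.lc
    rw [← h1]
    exact pt_mem _ _ fun i => Nat.cast_nonneg _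

theorem rmld_le {t : GenPair ι} (ht : LC2 Γ C t) {z : ι → ℤ}
    (hz : toReal z ∈ rint t.v) : rmld t ≤ logDisc t (toReal z) := by
  apply csInf_le
  · refine ⟨0, ?_⟩
    rintro _ ⟨z', hz', rfl⟩
    exact ht.lc z' hz'.1
  · exact ⟨z, hz, rfl⟩

theorem rint_int_nonempty (t : GenPair ι) : ∃ z : ι → ℤ, toReal z ∈ rint t.v := by
  refine ⟨∑ i, t.v i, ?_⟩
  have : toReal (∑ i, t.v i) = ∑ i, toReal (t.v i) := by
    funext j
    simp only [toReal, Finset.sum_apply]
    push_cast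
    rfl
  rw [this]
  exact sum_rint t.v

theorem exists_lt {t : GenPair ι} {x : ℝ} (hx : rmld t < x) :
    ∃ z : ι → ℤ, toReal z ∈ rint t.v ∧ logDisc t (toReal z) < x := by
  have hne : {x | ∃ z : ι → ℤ, toReal z ∈ rint t.v ∧ x = logDisc t (toReal z)}.Nonempty := by
    obtain ⟨z, hz⟩ := rint_int_nonempty t
    exact ⟨_, z, hz, rfl⟩
  obtain ⟨_, ⟨z, hz, rfl⟩, h⟩ := exists_lt_of_csInf_lt hne hx
  exact ⟨z, hz, h⟩

/-- the reduction to simplicial coordinates -/
theorem reduce {t : GenPair ι} (ht : LC2 Γ C t) {x : ℝ} (hx : rmld t < x) :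
    ∃ d : ℕ, d < Fintype.card ι + 1 ∧ ∃ (T : Fin d → Fin t.p) (l : Fin d → ℝ), (∀ i, 0 < l i) ∧
      l ∈ latt t.v T ∧ pt t.v T l ∈ rint t.v ∧
      LinearIndependent ℝ (fun i => toReal (t.v (T i))) ∧
      GG C (fun i => C - logDisc t (toReal (t.v (T i)))) (t.parts.map (tr t T)) l < x := by
  obtain ⟨z, hz, hzx⟩ := exists_lt hx
  obtain ⟨μ, hμ, hμ2⟩ : toReal z ∈ coneOf t.v := hz.1
  obtain ⟨d, T, l, hl, hzl, hli⟩ := caratheodory (fun i => toReal (t.v i)) (toReal z) _ μ
    rfl hμ (by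
      funext j
      simp only [Finset.sum_apply, Pi.smul_apply, smul_eq_mul]
      exact hμ2 j)
  have hpt : pt t.v T l = toReal z := by
    rw [hzl, pt_eq_sum]
  refine ⟨d, ?_, T, l, hl, ⟨z, hpt⟩, by rw [hpt]; exact hz, hli, ?_⟩
  · have h1 := hli.fintype_card_le_finrank
    simp only [Fintype.card_fin, Module.finrank_fintype_fun_eq_card] at h1
    omega
  · rw [← logDisc_pt ht T hl, hpt]
    exact hzx

/-- **ACC in the toric setting.** -/
theorem toric (hΓ : ∀ x ∈ Γ, 0 ≤ x) (hC : 0 < C)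
    (hdcc : ¬ ∃ f : ℕ → ℝ, StrictAnti f ∧ ∀ k, f k ∈ Γ) (a : ℕ → ℝ) (ha : StrictMono a)
    (h : ∀ k, ∃ t : GenPair ι, LC2 Γ C t ∧ a k ≤ rmld t ∧ rmld t < a (k + 1)) : False := by
  classical
  choose t ht hta htb using h
  have hred : ∀ k, ∃ d : ℕ, d < Fintype.card ι + 1 ∧
      ∃ (T : Fin d → Fin (t k).p) (l : Fin d → ℝ),
      (∀ i, 0 < l i) ∧ l ∈ latt (t k).v T ∧ pt (t k).v T l ∈ rint (t k).v ∧
      LinearIndependent ℝ (fun i => toReal ((t k).v (T i))) ∧
      GG C (fun i => C - logDisc (t k) (toReal ((t k).v (T i))))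
        ((t k).parts.map (tr (t k) T)) l < a (k + 1) :=
    fun k => reduce (ht k) (htb k)
  choose dd hdd hP using hred
  -- constant dimension
  obtain ⟨d, hd⟩ := Finite.exists_infinite_fiber
    (fun k => (⟨dd k, hdd k⟩ : Fin (Fintype.card ι + 1)))
  have hd' : {k | dd k = (d : ℕ)}.Infinite := by
    have h1 := Set.infinite_coe_iff.1 hd
    refine h1.mono ?_
    intro k hk
    exact congrArg Fin.val hk
  obtain ⟨ψ, hψ, hψd⟩ := Filter.extraction_of_frequently_atTop
    (Nat.frequently_atTop_iff_infinite.2 hd')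
  have hP' : ∀ k, ∃ (T : Fin (d : ℕ) → Fin (t (ψ k)).p) (l : Fin (d : ℕ) → ℝ),
      (∀ i, 0 < l i) ∧ l ∈ latt (t (ψ k)).v T ∧
      pt (t (ψ k)).v T l ∈ rint (t (ψ k)).v ∧
      LinearIndependent ℝ (fun i => toReal ((t (ψ k)).v (T i))) ∧
      GG C (fun i => C - logDisc (t (ψ k)) (toReal ((t (ψ k)).v (T i))))
        ((t (ψ k)).parts.map (tr (t (ψ k)) T)) l < a (ψ k + 1) := by
    intro k
    have h1 := hP (ψ k)
    rw [hψd k] at h1
    exact h1
  choose T l hl hlL hint hli hlt using hP'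
  -- monotone subsequence
  have hWF : Γ.IsPWO := by
    rw [Set.isPWO_iff_isWF, Set.isWF_iff_no_descending_seq]
    intro f hf hmem
    exact hdcc ⟨f, hf, hmem⟩
  have hb : (Set.univ.pi fun _ : Fin (d : ℕ) => (AddSubmonoid.closure Γ : Set ℝ)).IsPWO :=
    Set.IsPWO.pi fun _ => hWF.addSubmonoid_closure hΓ
  obtain ⟨g1, hg1⟩ := hb.exists_monotone_subseq
    (f := fun k i => C - logDisc (t (ψ k)) (toReal ((t (ψ k)).v (T k i)))) (by
    intro k i _
    exact (ht (ψ k)).boundary (T k i))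
  have hR : {x : ℝ × Set (Fin (d : ℕ) → ℕ) | x.1 ∈ Γ}.PartiallyWellOrderedOn Ri := by
    have h1 := Set.PartiallyWellOrderedOn.prod (r := (· ≤ ·)) (r' := Sm (d := (d : ℕ))) hWF
      (Set.partiallyWellOrderedOn_of_wellQuasiOrdered sm_wqo Set.univ)
    refine h1.mono ?_
    intro x hx
    exact ⟨hx, Set.mem_univ _⟩
  have hI := Set.PartiallyWellOrderedOn.partiallyWellOrderedOn_sublistForall₂ Ri hR
  have : IsPreorder (List (ℝ × Set (Fin (d : ℕ) → ℕ))) (List.SublistForall₂ Ri) :=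
    { refl := fun x => refl_of (List.SublistForall₂ Ri) x
      trans := fun x y z h1 h2 => trans_of (List.SublistForall₂ Ri) h1 h2 }
  obtain ⟨g2, hg2⟩ := hI.exists_monotone_subseq
    (f := fun k => (t (ψ (g1 k))).parts.map (tr (t (ψ (g1 k))) (T (g1 k)))) (by
    intro k x hx
    obtain ⟨y, hy, rfl⟩ := List.mem_map.1 hx
    exact ((ht (ψ (g1 k))).parts y hy).1)
  set θ : ℕ → ℕ := fun k => g1 (g2 k) with hθ
  have hθm : StrictMono θ := g1.strictMono.comp g2.strictMono
  obtain ⟨k, hk⟩ := core hC (fun k => latt (t (ψ (θ k))).v (T (θ k)))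
    (fun k => latt_isOver _ _ (hli (θ k)))
    (fun k => GG C (fun i => C - logDisc (t (ψ (θ k))) (toReal ((t (ψ (θ k))).v (T (θ k) i))))
      ((t (ψ (θ k))).parts.map (tr (t (ψ (θ k))) (T (θ k)))))
    (fun k => good_of hΓ hC (ht _) _)
    (fun k l hkl u hu => by
      refine GG_mono (hg1 (g2.monotone hkl)) ?_ (hg2 k l hkl) hu
      intro x hx
      obtain ⟨y, hy, rfl⟩ := List.mem_map.1 hx
      exact ⟨hΓ _ ((ht _).parts y hy).1,
        Set.Nonempty.image _ (by exact_mod_cast ((ht _).parts y hy).2)⟩)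
    (fun k => l (θ k)) (fun k => hlL (θ k)) (fun k => hl (θ k))
  have hlt' := hlt (θ k)
  set A := GG C (fun i => C - logDisc (t (ψ (θ k))) (toReal ((t (ψ (θ k))).v (T (θ k) i))))
      ((t (ψ (θ k))).parts.map (tr (t (ψ (θ k))) (T (θ k)))) (l (θ k)) with hA
  obtain ⟨m, hm, g, ⟨z, hgz⟩, hgpos, hgle⟩ := hk ((a (ψ (θ k) + 1) - A) / 2)
    (by linarith) (k + 1)
  have hzint : toReal z ∈ rint (t (ψ (θ m))).v := by
    rw [← hgz]
    exact pt_rint _ _ (hint (θ m)) hgpos
  have h2 := rmld_le (ht (ψ (θ m))) hzint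
  have h3 : logDisc (t (ψ (θ m))) (toReal z) =
      GG C (fun i => C - logDisc (t (ψ (θ m))) (toReal ((t (ψ (θ m))).v (T (θ m) i))))
      ((t (ψ (θ m))).parts.map (tr (t (ψ (θ m))) (T (θ m)))) g := by
    rw [← logDisc_pt (ht _) (T (θ m)) hgpos, hgz]
  rw [h3] at h2
  have h2' := (hta _).trans h2
  have h4 : a (ψ (θ k) + 1) ≤ a (ψ (θ m)) := by
    apply ha.monotone
    have h5 : θ k < θ m := hθm (by omega)
    have h6 := hψ h5
    omega
  change GG C _ _ g ≤ A + _ at hgle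
  linarith

end Pool.Agent.helper22.ARR
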