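import Pool.Agent.helper22.ARR.CaseB

/-!
# The ascending chain condition for minimal log discrepancies on arrangement varieties
-/

noncomputable section

namespace Pool.Agent.helper22.ARR

open Finset

variable {n r c : ℕ} {Γ : Set ℝ} {t : GenPair (Fin n ⊕ Fin r)}

theorem X0_le (ht : IsLC c Γ t) (hΓ : ∀ x ∈ Γ, 0 ≤ x) {φ : Fin r → Fin t.p} (hφ : Sel t φ) :
    logDisc t (toReal (X0 t φ)) ≤ ∑ y, (Ny t φ y : ℝ) - NN t φ * ∑ y, t.psi (Sum.inr y) := by
  rw [toReal_X0, ht.diag]
  have h1 : logDisc t (toReal (XX t φ)) ≤ ∑ y, (Ny t φ y : ℝ) := by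
    rw [XX, toReal_sum]
    refine (logDisc_sum (ht.nice hΓ) _ _).trans (Finset.sum_le_sum fun y _ => ?_)
    have h0 : (0 : ℝ) ≤ Ny t φ y := by exact_mod_cast (Ny_pos ht hφ y).le
    rw [toReal_zsmul, logDisc_smul _ h0]
    have := mul_le_mul_of_nonneg_left (ht.gen_le hΓ (φ y)) h0
    linarith
  linarith

theorem X0_nonneg (ht : IsLC c Γ t) {φ : Fin r → Fin t.p} (hφ : Sel t φ) :
    0 ≤ logDisc t (toReal (X0 t φ)) :=
  ht.lc _ (X0_trop ht hφ) (by rw [bigCone_eq]; exact X0_mem ht hφ)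

theorem Ny_le (ht : IsLC c Γ t) {φ : Fin r → Fin t.p} (hφ : Sel t φ) (y : Fin r) :
    Ny t φ y ≤ NN t φ := by
  rw [← Ny_mul t φ y]
  have h1 := Ny_pos ht hφ y
  have h2 := ht.col_pos (hφ y)
  nlinarith

theorem X0_zero (ht : IsLC c Γ t) (hΓ : ∀ x ∈ Γ, 0 ≤ x)
    (hdeg : ∑ y, (1 - t.psi (Sum.inr y)) = 0) {φ : Fin r → Fin t.p} (hφ : Sel t φ) :
    logDisc t (toReal (X0 t φ)) = 0 := by
  apply le_antisymm _ (X0_nonneg ht hφ)
  refine (X0_le ht hΓ hφ).trans ?_
  have h1 : ∑ y, t.psi (Sum.inr y) = r := by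
    rw [Finset.sum_sub_distrib] at hdeg
    simp only [Finset.sum_const, Finset.card_univ, Fintype.card_fin, nsmul_eq_mul, mul_one] at hdeg
    linarith
  rw [h1]
  have h2 : ∑ y, (Ny t φ y : ℝ) ≤ ∑ _y : Fin r, (NN t φ : ℝ) :=
    Finset.sum_le_sum fun y _ => by exact_mod_cast Ny_le ht hφ y
  simp only [Finset.sum_const, Finset.card_univ, Fintype.card_fin, nsmul_eq_mul] at h2
  linarith

/-- the number of `y` with multiplicities at least two is bounded -/
theorem card_mult (ht : IsLC c Γ t) (hΓ : ∀ x ∈ Γ, 0 ≤ x)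
    (hdeg : ∑ y, (1 - t.psi (Sum.inr y)) = c + 1) {W : Finset (Fin r)}
    (hW : ∀ y ∈ W, ∃ i, 2 ≤ t.v i (Sum.inr y)) : W.card ≤ 2 * (c + 1) := by
  classical
  obtain ⟨φ₀, hφ₀⟩ := ht.exists_sel
  obtain ⟨φ, hφ, hφW⟩ : ∃ φ : Fin r → Fin t.p, Sel t φ ∧
      ∀ y ∈ W, 2 ≤ t.v (φ y) (Sum.inr y) := by
    refine ⟨fun y => if h : y ∈ W then (hW y h).choose else φ₀ y, ?_, ?_⟩
    · intro y
      by_cases h : y ∈ W
      · simp only [dif_pos h]
        have := (hW y h).choose_spec
        omega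
      · simp only [dif_neg h]; exact hφ₀ y
    · intro y h
      simp only [dif_pos h]
      exact (hW y h).choose_spec
  have h1 := (X0_nonneg ht hφ).trans (X0_le ht hΓ hφ)
  have h2 : ∑ y, t.psi (Sum.inr y) = r - (c + 1) := by
    rw [Finset.sum_sub_distrib] at hdeg
    simp only [Finset.sum_const, Finset.card_univ, Fintype.card_fin, nsmul_eq_mul, mul_one] at hdeg
    linarith
  rw [h2] at h1
  have hN : (0 : ℝ) < NN t φ := by exact_mod_cast NN_pos ht hφ
  have h3 : ∑ y, (Ny t φ y : ℝ) ≤ ∑ y, (NN t φ : ℝ) * (if y ∈ W then 1 / 2 else 1) := by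
    refine Finset.sum_le_sum fun y _ => ?_
    split_ifs with h
    · have h4 : Ny t φ y * 2 ≤ NN t φ := by
        rw [← Ny_mul t φ y]
        exact mul_le_mul_of_nonneg_left (hφW y h) (Ny_pos ht hφ y).le
      have h5 : (Ny t φ y : ℝ) * 2 ≤ NN t φ := by exact_mod_cast h4
      linarith
    · rw [mul_one]
      exact_mod_cast Ny_le ht hφ y
  rw [← Finset.mul_sum] at h3
  have h4 : ∑ y : Fin r, (if y ∈ W then (1 / 2 : ℝ) else 1) = r - W.card / 2 := by
    have h5 : ∀ y : Fin r, (if y ∈ W then (1 / 2 : ℝ) else 1) =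
        1 - (if y ∈ W then (1 / 2 : ℝ) else 0) := by
      intro y; split_ifs <;> norm_num
    simp only [h5, Finset.sum_sub_distrib, Finset.sum_const, Finset.card_univ, Fintype.card_fin,
      nsmul_eq_mul, mul_one, Finset.sum_ite_mem, Finset.univ_inter]
    ring
  rw [h4] at h3
  have h6 : 0 ≤ NN t φ * ((r : ℝ) - W.card / 2) - NN t φ * (r - (c + 1)) := by linarith
  have h7 : 0 ≤ (NN t φ : ℝ) * ((c + 1) - W.card / 2) := by
    have : NN t φ * ((r : ℝ) - W.card / 2) - NN t φ * (r - (c + 1)) =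
        (NN t φ : ℝ) * ((c + 1) - W.card / 2) := by ring
    linarith
  have h8 : 0 ≤ ((c : ℝ) + 1) - W.card / 2 := nonneg_of_mul_nonneg_right h7 hN
  have h9 : (W.card : ℝ) ≤ 2 * (c + 1) := by linarith
  exact_mod_cast h9

/-- a tropical integral point in the interior -/
theorem exists_int (ht : IsLC c Γ t) :
    ∃ z, Trop c z ∧ toReal z ∈ interior (bigCone t) := by
  classical
  set P : Fin n ⊕ Fin r → ℤ := ∑ i ∈ hor t, t.v i +
    ∑ φ ∈ (univ : Finset (Fin r → Fin t.p)).filter (Sel t), X0 t φ with hP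
  have hinr : ∀ y, P (Sum.inr y) = 0 := by
    intro y
    simp only [hP, Pi.add_apply, Finset.sum_apply]
    rw [Finset.sum_eq_zero (fun i hi => mem_hor.1 hi y), Finset.sum_eq_zero, add_zero]
    intro φ hφ
    exact X0_inr ht (Finset.mem_filter.1 hφ).2 y
  refine ⟨P, ⟨fun y => (hinr y).ge, ?_⟩, ?_⟩
  · rw [Finset.filter_false_of_mem (fun y _ => by simp [hinr y])]
    simp
  · have hfull := ht.full
    rw [bigCone_eq] at hfull ⊢
    apply interior_of_rint _ hfull
    have hPr : toReal P = ∑ i ∈ hor t, toReal (t.v i) +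
        ∑ φ ∈ (univ : Finset (Fin r → Fin t.p)).filter (Sel t), toReal (X0 t φ) := by
      rw [hP, toReal_add, toReal_sum, toReal_sum]
    rw [hPr]
    have hA : ∑ i ∈ hor t, toReal (t.v i) ∈ coneOf (ext t) := coneOf_sum _ _ _ fun i _ => ext_gen _
    have hB : ∑ φ ∈ (univ : Finset (Fin r → Fin t.p)).filter (Sel t), toReal (X0 t φ) ∈
        coneOf (ext t) := coneOf_sum _ _ _ fun φ hφ => X0_mem ht (Finset.mem_filter.1 hφ).2
    refine rint_ext (coneOf_add _ hA hB) fun j => ?_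
    by_cases hj : j ∈ hor t
    · refine ⟨1, one_pos, ?_⟩
      rw [one_smul, ← Finset.add_sum_erase _ _ hj]
      have h2 : ∀ u v w : Fin n ⊕ Fin r → ℝ, u + v + w - u = v + w := by intros; abel
      rw [h2]
      exact coneOf_add _ (coneOf_sum _ _ _ fun i _ => ext_gen _) hB
    · rw [mem_hor] at hj
      push Not at hj
      obtain ⟨y, hy⟩ := hj
      obtain ⟨φ₀, hφ₀⟩ := ht.exists_sel
      set φ := Function.update φ₀ y j with hφdef
      have hφ : Sel t φ := by
        intro y'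
        by_cases h : y' = y
        · subst h; rw [hφdef, Function.update_self]; exact hy
        · rw [hφdef, Function.update_of_ne h]; exact hφ₀ y'
      refine ⟨(Ny t φ y : ℝ), by exact_mod_cast Ny_pos ht hφ y, ?_⟩
      have hmem : φ ∈ (univ : Finset (Fin r → Fin t.p)).filter (Sel t) := by simpa using hφ
      rw [← Finset.add_sum_erase _ _ hmem, toReal_X0, XX, toReal_sum,
        ← Finset.add_sum_erase univ _ (Finset.mem_univ y), toReal_zsmul]
      have hj' : φ y = j := by rw [hφdef, Function.update_self]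
      rw [hj']
      have h2 : ∀ a u v w z : Fin n ⊕ Fin r → ℝ, a + (u + v + w + z) - u = a + (v + w + z) := by
        intros; abel
      rw [h2]
      refine coneOf_add _ hA (coneOf_add _ (coneOf_add _ (coneOf_sum _ _ _ fun y' _ => ?_)
        (ext_diag _)) (coneOf_sum _ _ _ fun φ hφ =>
          X0_mem ht (Finset.mem_filter.1 (Finset.mem_of_mem_erase hφ)).2))
      rw [toReal_zsmul]
      exact coneOf_smul _ (ext_gen _) (by exact_mod_cast (Ny_pos ht hφ y').le)

theorem exists_near (ht : IsLC c Γ t) {x : ℝ} (hx : mld c t < x) :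
    ∃ z, Trop c z ∧ toReal z ∈ interior (bigCone t) ∧ logDisc t (toReal z) < x := by
  obtain ⟨z, hz1, hz2⟩ := exists_int ht
  have hne : {x | ∃ z, Trop c z ∧ toReal z ∈ interior (bigCone t) ∧
      x = logDisc t (toReal z)}.Nonempty := ⟨_, z, hz1, hz2, rfl⟩
  obtain ⟨_, ⟨z', h1, h2, rfl⟩, h⟩ := exists_lt_of_csInf_lt hne hx
  exact ⟨z', h1, h2, h⟩

/-- reduction to toric pairs of bounded dimension -/
theorem reduction (ht : IsLC c Γ t) (hΓ : ∀ x ∈ Γ, 0 ≤ x) {x : ℝ} (hx : mld c t < x) :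
    ∃ q < 3 * c + 4, ∃ t' : GenPair (Fin n ⊕ Fin q), LC2 (insert 1 Γ) ((c : ℝ) + 1) t' ∧
      mld c t ≤ rmld t' ∧ rmld t' < x := by
  classical
  obtain ⟨z₀, hz, hz2, hzx⟩ := exists_near ht hx
  set I := univ.filter fun y => z₀ (Sum.inr y) ≠ 0 with hI
  have hIcard : I.card ≤ c := by
    have := hz.2
    convert this
  have hIm : ∀ y, y ∈ I ↔ z₀ (Sum.inr y) ≠ 0 := fun y => by simp [hI]
  by_cases hB : ∀ φ, Sel t φ → logDisc t (toReal (X0 t φ)) = 0
  · -- case B
    refine ⟨I.card, by omega, ?_⟩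
    set e : Fin I.card → Fin r := fun k => (I.equivFin.symm k : Fin r) with he
    have hinj : Function.Injective e := fun a b h => by
      simpa using Subtype.ext h
    have hrange : ∀ y, y ∈ Set.range e ↔ z₀ (Sum.inr y) ≠ 0 := by
      intro y
      constructor
      · rintro ⟨k, rfl⟩
        exact (hIm _).1 (I.equivFin.symm k).2
      · intro hy
        refine ⟨I.equivFin ⟨y, (hIm y).2 hy⟩, ?_⟩
        simp [he]
    exact caseB ht hB hinj hIcard hz hz2 (fun y hy => by
      by_contra hcon; exact hy ((hrange y).2 hcon)) (fun k => (hrange _).1 ⟨k, rfl⟩) hzx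
  · -- case A
    push Not at hB
    obtain ⟨φ, hφ, hne⟩ := hB
    have hpos : 0 < logDisc t (toReal (X0 t φ)) :=
      lt_of_le_of_ne (X0_nonneg ht hφ) (Ne.symm hne)
    have hdeg : ∑ y, (1 - t.psi (Sum.inr y)) = c + 1 := by
      rcases ht.degree with h | h
      · exact h
      · exact absurd (X0_zero ht hΓ h hφ) hne
    set W := univ.filter fun y => ∃ i, 2 ≤ t.v i (Sum.inr y) with hW
    have hWcard : W.card ≤ 2 * (c + 1) := card_mult ht hΓ hdeg (fun y hy => by simpa [hW] using hy)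
    set U := W ∪ I with hU
    have hUcard : U.card ≤ 3 * c + 2 := by
      have := Finset.card_union_le W I
      rw [← hU] at this
      omega
    set f : Fin r → Option (Fin r) := fun y => if y ∈ U then some y else none with hf
    set R := univ.image f with hR
    have hRcard : R.card ≤ 3 * c + 3 := by
      have h1 : R ⊆ insert none (U.image some) := by
        intro a ha
        rw [hR, Finset.mem_image] at ha
        obtain ⟨y, _, rfl⟩ := ha
        simp only [hf]
        split_ifs with h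
        · exact Finset.mem_insert_of_mem (Finset.mem_image_of_mem _ h)
        · exact Finset.mem_insert_self _ _
      have h2 := Finset.card_le_card h1
      have h3 := Finset.card_insert_le none (U.image some)
      have h4 : (U.image some).card ≤ U.card := Finset.card_image_le
      omega
    have hfR : ∀ y, f y ∈ R := fun y => Finset.mem_image_of_mem _ (Finset.mem_univ y)
    set π : Fin r → Fin R.card := fun y => R.equivFin ⟨f y, hfR y⟩ with hπ
    have hsec : ∀ k : Fin R.card, ∃ y, π y = k := by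
      intro k
      obtain ⟨y, _, hy⟩ := Finset.mem_image.1
        (show ((R.equivFin.symm k : R) : Option (Fin r)) ∈ univ.image f from (R.equivFin.symm k).2)
      refine ⟨y, ?_⟩
      simp only [hπ]
      rw [← Equiv.eq_symm_apply]
      exact Subtype.ext hy
    choose sec hsec using hsec
    have hπf : ∀ y y', π y = π y' → y ≠ y' → y ∉ U := by
      intro y y' h hne' hy
      have h1 : f y = f y' := by
        have := R.equivFin.injective h
        simpa using this
      simp only [hf, if_pos hy] at h1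
      split_ifs at h1 with h2
      exact hne' (by simpa using h1)
    refine ⟨R.card, by omega, caseA ht hΓ hdeg hφ hpos hsec ?_ hz hz2 ?_ hzx⟩
    · intro y y' h hne' i hi
      have h1 := hπf y y' h hne'
      have h2 : y ∉ W := fun h3 => h1 (Finset.mem_union_left _ h3)
      have h3 : ¬ 2 ≤ t.v i (Sum.inr y) := fun h4 => h2 (by
        rw [hW, Finset.mem_filter]; exact ⟨Finset.mem_univ _, i, h4⟩)
      have h4 := ht.col_pos hi
      omega
    · intro y y' h hne'
      have h1 := hπf y y' h hne'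
      by_contra hcon
      exact h1 (Finset.mem_union_right _ ((hIm y).2 hcon))

theorem main (n c : ℕ) (Γ : Set ℝ) (hΓ : ∀ x ∈ Γ, 0 ≤ x)
    (hdcc : ¬ ∃ f : ℕ → ℝ, StrictAnti f ∧ ∀ k, f k ∈ Γ) (a : ℕ → ℝ) (ha : StrictMono a)
    (h : ∀ k, ∃ (r : ℕ) (t : GenPair (Fin n ⊕ Fin r)), IsLC c Γ t ∧ mld c t = a k) : False := by
  classical
  have hred : ∀ k, ∃ q : ℕ, q < 3 * c + 4 ∧ ∃ t' : GenPair (Fin n ⊕ Fin q),
      LC2 (insert 1 Γ) ((c : ℝ) + 1) t' ∧ a k ≤ rmld t' ∧ rmld t' < a (k + 1) := by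
    intro k
    obtain ⟨r, t, ht, hmld⟩ := h k
    have h1 : mld c t < a (k + 1) := by rw [hmld]; exact ha (Nat.lt_succ_self k)
    obtain ⟨q, hq, t', h2, h3, h4⟩ := reduction ht hΓ h1
    exact ⟨q, hq, t', h2, hmld ▸ h3, h4⟩
  choose qq hqq hP using hred
  obtain ⟨q, hq⟩ := Finite.exists_infinite_fiber (fun k => (⟨qq k, hqq k⟩ : Fin (3 * c + 4)))
  have hq' : {k | qq k = (q : ℕ)}.Infinite := by
    have h1 := Set.infinite_coe_iff.1 hq
    refine h1.mono ?_
    intro k hk
    exact congrArg Fin.val hk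
  obtain ⟨ψ, hψ, hψq⟩ := Filter.extraction_of_frequently_atTop
    (Nat.frequently_atTop_iff_infinite.2 hq')
  have hΓ' : ∀ x ∈ insert 1 Γ, (0 : ℝ) ≤ x := by
    intro x hx
    rcases Set.mem_insert_iff.1 hx with rfl | hx
    · exact zero_le_one
    · exact hΓ x hx
  have hdcc' : ¬ ∃ f : ℕ → ℝ, StrictAnti f ∧ ∀ k, f k ∈ insert 1 Γ := by
    have hWF : Γ.IsPWO := by
      rw [Set.isPWO_iff_isWF, Set.isWF_iff_no_descending_seq]
      intro f hf hmem
      exact hdcc ⟨f, hf, hmem⟩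
    have h2 := (hWF.insert 1).isWF
    rw [Set.isWF_iff_no_descending_seq] at h2
    rintro ⟨f, hf, hmem⟩
    exact h2 f hf hmem
  refine toric (ι := Fin n ⊕ Fin (q : ℕ)) hΓ' (C := (c : ℝ) + 1) (by positivity) hdcc'
    (fun k => a (ψ k)) (ha.comp hψ) ?_
  intro k
  have h1 := hP (ψ k)
  rw [hψq k] at h1
  obtain ⟨t', h2, h3, h4⟩ := h1
  refine ⟨t', h2, h3, lt_of_lt_of_le h4 (ha.monotone ?_)⟩
  have : ψ k < ψ (k + 1) := hψ (Nat.lt_succ_self k)
  omega

/-- the version with fixed dimension `d = n + c` -/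
theorem main' (d : ℕ) (Γ : Set ℝ) (hΓ : ∀ x ∈ Γ, 0 ≤ x)
    (hdcc : ¬ ∃ f : ℕ → ℝ, StrictAnti f ∧ ∀ k, f k ∈ Γ) (a : ℕ → ℝ) (ha : StrictMono a)
    (h : ∀ k, ∃ (n c r : ℕ) (t : GenPair (Fin n ⊕ Fin r)), n + c = d ∧ IsLC c Γ t ∧
      mld c t = a k) : False := by
  classical
  choose nn cc hr using h
  have hcc : ∀ k, cc k < d + 1 := by
    intro k
    obtain ⟨r, t, h1, _⟩ := hr k
    omega
  obtain ⟨c, hc⟩ := Finite.exists_infinite_fiber (fun k => (⟨cc k, hcc k⟩ : Fin (d + 1)))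
  have hc' : {k | cc k = (c : ℕ)}.Infinite := by
    have h1 := Set.infinite_coe_iff.1 hc
    refine h1.mono ?_
    intro k hk
    exact congrArg Fin.val hk
  obtain ⟨ψ, hψ, hψc⟩ := Filter.extraction_of_frequently_atTop
    (Nat.frequently_atTop_iff_infinite.2 hc')
  refine main (d - c) c Γ hΓ hdcc (fun k => a (ψ k)) (ha.comp hψ) ?_
  intro k
  obtain ⟨r, t, h1, h2, h3⟩ := hr (ψ k)
  have hk := hψc k
  have hn : nn (ψ k) = d - c := by omega
  revert t
  rw [hn, hk]
  intro t h2 h3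
  exact ⟨r, t, h2, h3⟩

end Pool.Agent.helper22.ARR
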