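import Pool.Agent.helper22.ARR.Fib

/-!
# Reduction in the case where some point of the degree polyhedron has positive log discrepancy
-/

noncomputable section

namespace Pool.Agent.helper22.ARR

open Finset

variable {n r q c : ℕ} {Γ : Set ℝ} {t : GenPair (Fin n ⊕ Fin r)}

/-- the matrix of the map `(w, τ) ↦ (w, τ ∘ π)` -/
def AA (n : ℕ) (π : Fin r → Fin q) : Fin n ⊕ Fin r → Fin n ⊕ Fin q → ℤ :=
  Sum.elim (fun a => Sum.elim (fun b => if a = b then 1 else 0) (fun _ => 0))
    (fun y => Sum.elim (fun _ => 0) (fun k => if π y = k then 1 else 0))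

theorem AA_inl (π : Fin r → Fin q) (x : Fin n ⊕ Fin q → ℝ) (a : Fin n) :
    lin (AA n π) x (Sum.inl a) = x (Sum.inl a) := by
  simp [lin, AA, Fintype.sum_sum_type]

theorem AA_inr (π : Fin r → Fin q) (x : Fin n ⊕ Fin q → ℝ) (y : Fin r) :
    lin (AA n π) x (Sum.inr y) = x (Sum.inr (π y)) := by
  simp [lin, AA, Fintype.sum_sum_type]

theorem AA_inj {π : Fin r → Fin q} {sec : Fin q → Fin r} (hsec : ∀ k, π (sec k) = k)
    {x x' : Fin n ⊕ Fin q → ℝ} (h : lin (AA n π) x = lin (AA n π) x') : x = x' := by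
  funext j
  rcases j with a | k
  · have := congrFun h (Sum.inl a)
    rwa [AA_inl, AA_inl] at this
  · have := congrFun h (Sum.inr (sec k))
    rwa [AA_inr, AA_inr, hsec] at this

/-- index set of the generators -/
abbrev IxA (t : GenPair (Fin n ⊕ Fin r)) (q : ℕ) : Type :=
  {i : Fin t.p // i ∈ hor t} ⊕ ((Fin q × {φ : Fin r → Fin t.p // Sel t φ}) ⊕ Bool)

open Classical in
/-- the generators -/
def gA (t : GenPair (Fin n ⊕ Fin r)) (π : Fin r → Fin q) (sec : Fin q → Fin r) :
    IxA t q → (Fin n ⊕ Fin q) → ℤ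
  | Sum.inl i => Sum.elim (fun a => t.v i.1 (Sum.inl a)) (fun _ => 0)
  | Sum.inr (Sum.inl (k, φ)) => Sum.elim
      (fun a => ∑ y ∈ univ.filter (fun y => π y = k), t.v (φ.1 y) (Sum.inl a))
      (fun k' => if k' = k then t.v (φ.1 (sec k)) (Sum.inr (sec k)) else 0)
  | Sum.inr (Sum.inr b) => if b then diag n q else - diag n q

variable {π : Fin r → Fin q} {sec : Fin q → Fin r}

theorem lin_hor (i : {i : Fin t.p // i ∈ hor t}) :
    lin (AA n π) (toReal (gA t π sec (Sum.inl i))) = toReal (t.v i.1) := by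
  funext j
  rcases j with a | y
  · rw [AA_inl]; simp [gA, toReal]
  · rw [AA_inr]
    have := mem_hor.1 i.2 y
    simp [gA, toReal, this]

theorem lin_bool (b : Bool) :
    lin (AA n π) (toReal (gA t π sec (Sum.inr (Sum.inr b)))) =
      (if b then (1 : ℝ) else -1) • toReal (diag n r) := by
  funext j
  rcases j with a | y
  · rw [AA_inl]; cases b <;> simp [gA, toReal, diag]
  · rw [AA_inr]; cases b <;> simp [gA, toReal, diag]

/-- two elements of a fibre of `π` with more than one element have only generators of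
multiplicity `1` -/
def Mult (t : GenPair (Fin n ⊕ Fin r)) (π : Fin r → Fin q) : Prop :=
  ∀ y y', π y = π y' → y ≠ y' → ∀ i, t.v i (Sum.inr y) ≠ 0 → t.v i (Sum.inr y) = 1

theorem mult_eq (hm : Mult t π) {φ : Fin r → Fin t.p} (hφ : Sel t φ) {y y' : Fin r}
    (h : π y = π y') : t.v (φ y) (Sum.inr y) = t.v (φ y') (Sum.inr y') := by
  by_cases hyy : y = y'
  · rw [hyy]
  · rw [hm y y' h hyy _ (hφ y), hm y' y h.symm (Ne.symm hyy) _ (hφ y')]

theorem lin_sel (ht : IsLC c Γ t) (hsec : ∀ k, π (sec k) = k) (hm : Mult t π) (k : Fin q)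
    (φ : {φ : Fin r → Fin t.p // Sel t φ}) :
    lin (AA n π) (toReal (gA t π sec (Sum.inr (Sum.inl (k, φ))))) =
      ∑ y ∈ univ.filter (fun y => π y = k), toReal (t.v (φ.1 y)) := by
  classical
  funext j
  rcases j with a | y
  · rw [AA_inl]; simp [gA, toReal, Finset.sum_apply]
  · rw [AA_inr]
    simp only [gA, toReal, Sum.elim_inr, Finset.sum_apply]
    by_cases h : π y = k
    · rw [if_pos h, Finset.sum_eq_single y]
      · rw [mult_eq hm φ.2 (y := sec k) (y' := y) (by rw [hsec, h])]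
      · intro y' _ hy'
        rw [ht.col_eq (φ.2 y') (Ne.symm hy')]; simp
      · intro h'; exact absurd (by simpa using h) h'
    · rw [if_neg h, Finset.sum_eq_zero]
      · simp
      · intro y' hy'
        have : y ≠ y' := by
          rintro rfl
          exact h (by simpa using hy')
        rw [ht.col_eq (φ.2 y') this]; simp

/-- the cone generated by the new generators is the preimage of the big cone -/
theorem coneA (ht : IsLC c Γ t) (hsec : ∀ k, π (sec k) = k) (hm : Mult t π)
    [Fintype (IxA t q)] {x : Fin n ⊕ Fin q → ℝ} (hx : lin (AA n π) x ∈ coneOf (ext t)) :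
    x ∈ coneOf (gA t π sec) := by
  classical
  rw [← bigCone_eq] at hx
  obtain ⟨μ, s, hμ, h⟩ := hx
  set K : Set (Fin n ⊕ Fin r → ℝ) := lin (AA n π) '' coneOf (gA t π sec) with hK
  have Kadd : ∀ u ∈ K, ∀ v ∈ K, u + v ∈ K := by
    rintro _ ⟨u, hu, rfl⟩ _ ⟨v, hv, rfl⟩
    exact ⟨u + v, coneOf_add _ hu hv, lin_add _ _ _⟩
  have Ksmul : ∀ v ∈ K, ∀ a : ℝ, 0 ≤ a → a • v ∈ K := by
    rintro _ ⟨v, hv, rfl⟩ a ha
    exact ⟨a • v, coneOf_smul _ hv ha, lin_smul _ _ _⟩
  have K0 : (0 : Fin n ⊕ Fin r → ℝ) ∈ K := ⟨0, coneOf_zero _, by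
    funext j; simp [lin]⟩
  have Ksum : ∀ {α : Type} (s : Finset α) (f : α → Fin n ⊕ Fin r → ℝ), (∀ a ∈ s, f a ∈ K) →
      ∑ a ∈ s, f a ∈ K := by
    intro α s f hf
    induction s using Finset.induction_on with
    | empty => simpa using K0
    | insert a s ha ih =>
      rw [Finset.sum_insert ha]
      exact Kadd _ (hf a (Finset.mem_insert_self _ _)) _
        (ih fun b hb => hf b (Finset.mem_insert_of_mem hb))
  have Kconv : Convex ℝ K := by
    intro u hu v hv a b ha hb _
    exact Kadd _ (Ksmul u hu a ha) _ (Ksmul v hv b hb)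
  have Kdiag : s • toReal (diag n r) ∈ K := by
    rcases le_total 0 s with hs | hs
    · have h1 : toReal (diag n r) ∈ K :=
        ⟨_, coneOf_gen (gA t π sec) (Sum.inr (Sum.inr true)), by rw [lin_bool]; simp⟩
      exact Ksmul _ h1 s hs
    · have h1 : -toReal (diag n r) ∈ K :=
        ⟨_, coneOf_gen (gA t π sec) (Sum.inr (Sum.inr false)), by rw [lin_bool]; simp⟩
      have := Ksmul _ h1 (-s) (by linarith)
      rwa [smul_neg, neg_smul, neg_neg] at this
  -- decomposition
  have hdec : lin (AA n π) x = (∑ i ∈ hor t, μ i • toReal (t.v i) +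
      ∑ k, ∑ y ∈ univ.filter (fun y => π y = k), ∑ i ∈ ovr t y, μ i • toReal (t.v i)) +
      s • toReal (diag n r) := by
    rw [Finset.sum_fiberwise, ← decomp ht]
    funext j
    rw [h j]
    simp only [Pi.add_apply, Finset.sum_apply, Pi.smul_apply, smul_eq_mul, toReal]
  have hfib : ∀ y, ∑ i ∈ ovr t y, μ i * (t.v i (Sum.inr y) : ℝ) = x (Sum.inr (π y)) - s := by
    intro y
    have := h (Sum.inr y)
    rw [AA_inr, sum_over] at this
    simp only [diag, Sum.elim_inr, Int.cast_one, mul_one] at this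
    linarith
  have hfib0 : ∀ y, 0 ≤ x (Sum.inr (π y)) - s := by
    intro y
    rw [← hfib]
    refine Finset.sum_nonneg fun i hi => mul_nonneg (hμ i) ?_
    exact_mod_cast (ht.col_pos (mem_ovr.1 hi)).le
  have hP : ∀ k, ∑ y ∈ univ.filter (fun y => π y = k), ∑ i ∈ ovr t y, μ i • toReal (t.v i) ∈ K := by
    intro k
    have h0 := hfib0 (sec k)
    rw [hsec] at h0
    rcases h0.eq_or_lt with h0 | h0
    · -- everything vanishes
      have : ∑ y ∈ univ.filter (fun y => π y = k), ∑ i ∈ ovr t y, μ i • toReal (t.v i) = 0 := by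
        refine Finset.sum_eq_zero fun y hy => Finset.sum_eq_zero fun i hi => ?_
        have hy' : π y = k := by simpa using hy
        have h1 := hfib y
        rw [hy', ← h0, Finset.sum_eq_zero_iff_of_nonneg] at h1
        · have h2 := h1 i hi
          have h3 : (t.v i (Sum.inr y) : ℝ) ≠ 0 := by exact_mod_cast mem_ovr.1 hi
          have h4 : μ i = 0 := (mul_eq_zero.1 h2).resolve_right h3
          rw [h4, zero_smul]
        · intro i hi
          refine mul_nonneg (hμ i) ?_
          exact_mod_cast (ht.col_pos (mem_ovr.1 hi)).le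
      rw [this]; exact K0
    · have h1 := fibre_mem ht (univ.filter (fun y => π y = k)) hμ h0 (by
        intro y hy
        have hy' : π y = k := by simpa using hy
        rw [hfib, hy']) Kconv Ksmul 0 (by
        intro φ hφ
        rw [add_zero]
        have h2 : ∑ y ∈ univ.filter (fun y => π y = k),
            ((t.v (φ y) (Sum.inr y) : ℝ))⁻¹ • toReal (t.v (φ y)) =
            ((t.v (φ (sec k)) (Sum.inr (sec k)) : ℝ))⁻¹ •
              lin (AA n π) (toReal (gA t π sec (Sum.inr (Sum.inl (k, ⟨φ, hφ⟩))))) := by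
          rw [lin_sel ht hsec hm, Finset.smul_sum]
          refine Finset.sum_congr rfl fun y hy => ?_
          have hy' : π y = k := by simpa using hy
          rw [mult_eq hm hφ (y := y) (y' := sec k) (by rw [hsec, hy'])]
        rw [h2]
        apply Ksmul
        · exact ⟨_, coneOf_gen _ _, rfl⟩
        · have : (0 : ℝ) < t.v (φ (sec k)) (Sum.inr (sec k)) := by
            exact_mod_cast ht.col_pos (hφ (sec k))
          positivity)
      rwa [smul_zero, add_zero] at h1
  have hmem : lin (AA n π) x ∈ K := by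
    rw [hdec]
    refine Kadd _ (Kadd _ (Ksum _ _ fun i hi => ?_) _ (Ksum _ _ fun k _ => hP k)) _ Kdiag
    apply Ksmul _ _ _ (hμ i)
    exact ⟨_, coneOf_gen (gA t π sec) (Sum.inl ⟨i, hi⟩), lin_hor _⟩
  obtain ⟨x', hx', he⟩ := hmem
  rw [← AA_inj hsec he]
  exact hx'

end Pool.Agent.helper22.ARR
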