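import Pool.Agent.helper22.ARR.CaseA

/-!
# Reduction in the first case: conclusion
-/

noncomputable section

namespace Pool.Agent.helper22.ARR

open Finset

variable {n r q c : ℕ} {Γ : Set ℝ} {t : GenPair (Fin n ⊕ Fin r)}
variable {π : Fin r → Fin q} {sec : Fin q → Fin r}

theorem nat_mem (Γ : Set ℝ) (k : ℕ) : (k : ℝ) ∈ AddSubmonoid.closure (insert 1 Γ) := by
  have := AddSubmonoid.nsmul_mem (AddSubmonoid.closure (insert (1 : ℝ) Γ))
    (AddSubmonoid.subset_closure (Set.mem_insert _ _)) k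
  rwa [nsmul_eq_mul, mul_one] at this

theorem clos_mono {Γ : Set ℝ} {x : ℝ} (hx : x ∈ AddSubmonoid.closure Γ) :
    x ∈ AddSubmonoid.closure (insert 1 Γ) :=
  AddSubmonoid.closure_mono (Set.subset_insert _ _) hx

theorem hor_trop {i : Fin t.p} (hi : i ∈ hor t) : Trop c (t.v i) := by
  have h := mem_hor.1 hi
  refine ⟨fun y => (h y).ge, ?_⟩
  rw [Finset.filter_false_of_mem (fun y _ => by simp [h y])]
  simp

theorem valA (ht : IsLC c Γ t) (φ : {φ : Fin r → Fin t.p // Sel t φ}) (S : Finset (Fin r)) :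
    ((c : ℝ) + 1) - logDisc (big c t) (∑ y ∈ S, toReal (t.v (φ.1 y))) ∈
      AddSubmonoid.closure (insert 1 Γ) := by
  classical
  set μ : Fin r → ℤ := fun y => t.v (φ.1 y) (Sum.inr y) with hμ
  have hμ1 : ∀ y, 1 ≤ μ y := fun y => ht.col_pos (φ.2 y)
  obtain ⟨e, he, hdef⟩ := logDisc_defect (t := t)
    (fun a ha => ⟨(ht.parts a ha).1, (ht.parts a ha).2.1⟩) S fun y => t.v (φ.1 y)
  set X : Fin n ⊕ Fin r → ℤ := ∑ y ∈ S, t.v (φ.1 y) with hX
  have hXinr : ∀ y', X (Sum.inr y') = if y' ∈ S then μ y' else 0 := by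
    intro y'
    simp only [hX, Finset.sum_apply]
    by_cases h : y' ∈ S
    · rw [if_pos h, Finset.sum_eq_single y']
      · intro y _ hy
        exact ht.col_eq (φ.2 y) (Ne.symm hy)
      · intro h'; exact absurd h h'
    · rw [if_neg h, Finset.sum_eq_zero]
      intro y hy
      exact ht.col_eq (φ.2 y) (fun h' => h (h' ▸ hy))
  have hsumX : ∑ y, toReal X (Sum.inr y) = ((∑ y ∈ S, μ y : ℤ) : ℝ) := by
    simp only [toReal, hXinr]
    rw [← Finset.sum_filter_add_sum_filter_not univ (fun y => y ∈ S)]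
    rw [Finset.sum_congr rfl (g := fun y => ((μ y : ℤ) : ℝ)) (fun y hy => by
      rw [if_pos (by simpa using hy)])]
    rw [Finset.sum_congr rfl (g := fun _ => (0 : ℝ)) (s₂ := univ.filter fun y => y ∉ S)
      (s₁ := univ.filter fun y => y ∉ S) (fun y hy => by
      rw [if_neg (by simpa using hy)]; simp)]
    simp
  obtain ⟨Q, hQ, hQtp⟩ := exists_tp ht.size (toReal X)
  have hQsum : ∑ y ∈ Q, toReal X (Sum.inr y) = ((∑ y ∈ S ∩ Q, μ y : ℤ) : ℝ) := by
    simp only [toReal, hXinr]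
    push_cast
    rw [Finset.sum_ite, Finset.sum_const_zero, add_zero]
    refine Finset.sum_congr ?_ fun _ _ => rfl
    ext y
    simp only [Finset.mem_filter, Finset.mem_inter]
    tauto
  have hint : 0 ≤ ((c : ℤ) + 1) - S.card + ∑ y ∈ S, μ y - ∑ y ∈ S ∩ Q, μ y := by
    have h2 : ∑ y ∈ S, μ y = ∑ y ∈ S \ Q, μ y + ∑ y ∈ S ∩ Q, μ y := by
      rw [← Finset.sum_union (Finset.disjoint_sdiff_inter S Q), Finset.sdiff_union_inter]
    have h3 : ((S \ Q).card : ℤ) ≤ ∑ y ∈ S \ Q, μ y := by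
      have := Finset.card_nsmul_le_sum (S \ Q) μ 1 (fun y _ => hμ1 y)
      simpa using this
    have h4 : (S.card : ℤ) = (S \ Q).card + (S ∩ Q).card := by
      have := Finset.card_sdiff_add_card_inter S Q
      omega
    have h5 : ((S ∩ Q).card : ℤ) ≤ c + 1 := by
      have := Finset.card_le_card (Finset.inter_subset_right (s₁ := S) (s₂ := Q))
      omega
    linarith
  obtain ⟨k, hk⟩ := Int.eq_ofNat_of_zero_le hint
  have hkR : ((c : ℝ) + 1) - S.card + ((∑ y ∈ S, μ y : ℤ) : ℝ) - ((∑ y ∈ S ∩ Q, μ y : ℤ) : ℝ)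
      = k := by exact_mod_cast hk
  rw [← toReal_sum, ← hX, logDisc_big, hdef, hsumX, hQtp, hQsum]
  have hfin : ((c : ℝ) + 1) - (∑ y ∈ S, logDisc t (toReal (t.v (φ.1 y))) - e -
      ((∑ y ∈ S, μ y : ℤ) : ℝ) + ((∑ y ∈ S ∩ Q, μ y : ℤ) : ℝ)) =
      k + ∑ y ∈ S, (1 - logDisc t (toReal (t.v (φ.1 y)))) + e := by
    rw [← hkR, Finset.sum_sub_distrib]
    simp only [Finset.sum_const, nsmul_eq_mul, mul_one]
    ring
  rw [hfin]
  refine AddSubmonoid.add_mem _ (AddSubmonoid.add_mem _ (nat_mem Γ k) ?_) (clos_mono he)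
  exact AddSubmonoid.sum_mem _ fun y _ => clos_mono (ht.boundary _)

theorem caseA (ht : IsLC c Γ t) (hΓ : ∀ x ∈ Γ, 0 ≤ x)
    (hdeg : ∑ y, (1 - t.psi (Sum.inr y)) = c + 1) {φ₀ : Fin r → Fin t.p} (hφ₀ : Sel t φ₀)
    (hpos : 0 < logDisc t (toReal (X0 t φ₀)))
    (hsec : ∀ k, π (sec k) = k) (hm : Mult t π) {z₀ : Fin n ⊕ Fin r → ℤ} (hz : Trop c z₀)
    (hz2 : toReal z₀ ∈ interior (bigCone t))
    (hz3 : ∀ y y', π y = π y' → y ≠ y' → z₀ (Sum.inr y) = 0) {x : ℝ}
    (hx : logDisc t (toReal z₀) < x) :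
    ∃ t' : GenPair (Fin n ⊕ Fin q), LC2 (insert 1 Γ) ((c : ℝ) + 1) t' ∧ mld c t ≤ rmld t' ∧
      rmld t' < x := by
  classical
  have hz0 : lin (AA n π) (toReal (Sum.elim (fun a => z₀ (Sum.inl a))
      (fun k => z₀ (Sum.inr (sec k))))) = toReal z₀ := by
    funext j
    rcases j with a | y
    · rw [AA_inl]; simp [toReal]
    · rw [AA_inr]
      simp only [toReal, Sum.elim_inr]
      by_cases h : sec (π y) = y
      · rw [h]
      · have h1 := hz3 (sec (π y)) y (hsec _) h
        have h2 := hz3 y (sec (π y)) (hsec _).symm (Ne.symm h)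
        rw [h1, h2]
  rw [bigCone_eq] at hz2
  have hz2r := rint_of_interior _ hz2
  refine red_abstract ht (big c t) (AA n π) (gA t π sec) ?_ ?_ ?_ ?_ ?_
    (Sum.elim (fun a => z₀ (Sum.inl a)) (fun k => z₀ (Sum.inr (sec k)))) ?_ ?_
  · rintro (i | ⟨k, φ⟩ | b)
    · rw [lin_hor, big_trop ht.size (hor_trop i.2)]
      have h1 : ((c : ℝ) + 1) - logDisc t (toReal (t.v i.1)) =
          c + (1 - logDisc t (toReal (t.v i.1))) := by ring
      rw [h1]
      exact AddSubmonoid.add_mem _ (nat_mem Γ c) (clos_mono (ht.boundary _))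
    · rw [lin_sel ht hsec hm]
      exact valA ht φ _
    · rw [lin_bool]
      have h1 := ht.bigDiag hdeg 0 (if b then (1 : ℝ) else -1)
      rw [zero_add, logDisc_zero] at h1
      rw [h1, sub_zero]
      have := nat_mem Γ (c + 1)
      push_cast at this
      exact this
  · intro a ha
    rcases List.mem_cons.1 ha with rfl | ha
    · exact ⟨Set.mem_insert _ _, top_nonempty ht.size⟩
    · exact ⟨Set.mem_insert_of_mem _ (ht.parts a ha).1, (ht.parts a ha).2.1⟩
  · rintro (i | ⟨k, φ⟩ | b)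
    · rw [lin_hor]; exact ext_gen _
    · rw [lin_sel ht hsec hm]
      exact coneOf_sum _ _ _ fun y _ => ext_gen _
    · rw [lin_bool]; exact ext_diag _
  · intro j
    by_cases hj : j ∈ hor t
    · refine ⟨Sum.inl ⟨j, hj⟩, 1, one_pos, ?_⟩
      rw [lin_hor, one_smul, sub_self]
      exact coneOf_zero _
    · rw [mem_hor] at hj
      push Not at hj
      obtain ⟨y, hy⟩ := hj
      have hφ : Sel t (Function.update φ₀ y j) := by
        intro y'
        by_cases h : y' = y
        · subst h; rw [Function.update_self]; exact hy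
        · rw [Function.update_of_ne h]; exact hφ₀ y'
      refine ⟨Sum.inr (Sum.inl (π y, ⟨_, hφ⟩)), 1, one_pos, ?_⟩
      rw [lin_sel ht hsec hm, one_smul]
      have h1 := Finset.add_sum_erase (univ.filter (fun y' => π y' = π y))
        (fun y' => toReal (t.v (Function.update φ₀ y j y'))) (a := y) (by simp)
      rw [← h1, Function.update_self, add_sub_cancel_left]
      exact coneOf_sum _ _ _ fun y _ => ext_gen _
  · intro z _
    obtain ⟨m, s, h1, h2⟩ := pia ht hΓ hdeg hφ₀ hpos (linZ (AA n π) z)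
    refine ⟨_, h1, ?_, ?_, ?_⟩
    · rw [lin_toReal]; exact h2
    · intro h
      rw [lin_toReal] at h
      have e : toReal (addM t φ₀ (linZ (AA n π) z) (fun y => (m y : ℤ)) - s • diag n r) =
          toReal (linZ (AA n π) z) +
            (∑ y, (m y : ℝ) • toReal (t.v (φ₀ y)) + (-(s : ℝ)) • toReal (diag n r)) := by
        rw [toReal_sub, toReal_zsmul, addM, toReal_add, toReal_sum]
        simp only [toReal_zsmul, Int.cast_natCast]
        rw [neg_smul]; abel
      rw [e]
      exact coneOf_add _ h (coneOf_add _ (coneOf_sum _ _ _ fun y _ =>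
        coneOf_smul _ (ext_gen _) (Nat.cast_nonneg _)) (ext_diag _))
    · intro h
      rw [lin_toReal] at h
      have e : toReal (addM t φ₀ (linZ (AA n π) z) (fun y => (m y : ℤ)) - s • diag n r) =
          toReal (linZ (AA n π) z) +
            (∑ y, (m y : ℝ) • toReal (t.v (φ₀ y)) + (-(s : ℝ)) • toReal (diag n r)) := by
        rw [toReal_sub, toReal_zsmul, addM, toReal_add, toReal_sum]
        simp only [toReal_zsmul, Int.cast_natCast]
        rw [neg_smul]; abel
      rw [e]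
      exact rint_add _ h (coneOf_add _ (coneOf_sum _ _ _ fun y _ =>
        coneOf_smul _ (ext_gen _) (Nat.cast_nonneg _)) (ext_diag _))
  · refine ⟨?_, fun i => ?_⟩
    · apply coneA ht hsec hm
      rw [hz0]; exact hz2r.1
    · have h3 : lin (AA n π) (toReal (gA t π sec i)) ∈ coneOf (ext t) := by
        rcases i with (i | ⟨k, φ⟩ | b)
        · rw [lin_hor]; exact ext_gen _
        · rw [lin_sel ht hsec hm]
          exact coneOf_sum _ _ _ fun y _ => ext_gen _
        · rw [lin_bool]; exact ext_diag _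
      obtain ⟨ε, hε, h⟩ := rint_sub _ hz2r h3
      refine ⟨ε, hε, ?_⟩
      apply coneA ht hsec hm
      rw [lin_sub, lin_smul, hz0]
      exact h
  · rw [hz0, big_trop ht.size hz]
    exact hx

end Pool.Agent.helper22.ARR
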