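import Pool.Agent.helper22.ARR.CaseA2

/-!
# Reduction in the case where all points of the degree polyhedron have log discrepancy zero
-/

noncomputable section

namespace Pool.Agent.helper22.ARR

open Finset

variable {n r q c : ℕ} {Γ : Set ℝ} {t : GenPair (Fin n ⊕ Fin r)}

/-- the matrix of the inclusion of the coordinates in the image of `e` -/
def BB (n : ℕ) (e : Fin q → Fin r) : Fin n ⊕ Fin r → Fin n ⊕ Fin q → ℤ :=
  Sum.elim (fun a => Sum.elim (fun b => if a = b then 1 else 0) (fun _ => 0))
    (fun y => Sum.elim (fun _ => 0) (fun k => if e k = y then 1 else 0))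

theorem BB_inl (e : Fin q → Fin r) (x : Fin n ⊕ Fin q → ℝ) (a : Fin n) :
    lin (BB n e) x (Sum.inl a) = x (Sum.inl a) := by
  simp [lin, BB, Fintype.sum_sum_type]

theorem BB_inr {e : Fin q → Fin r} (he : Function.Injective e) (x : Fin n ⊕ Fin q → ℝ)
    (k : Fin q) : lin (BB n e) x (Sum.inr (e k)) = x (Sum.inr k) := by
  simp only [lin, BB, Fintype.sum_sum_type, Sum.elim_inr, Sum.elim_inl, Int.cast_zero, zero_mul,
    Finset.sum_const_zero, zero_add]
  rw [Finset.sum_eq_single k]
  · simp
  · intro k' _ hk'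
    rw [if_neg (fun h => hk' (he h))]; simp
  · intro h; exact absurd (Finset.mem_univ _) h

theorem BB_not {e : Fin q → Fin r} (x : Fin n ⊕ Fin q → ℝ)
    {y : Fin r} (hy : y ∉ Set.range e) : lin (BB n e) x (Sum.inr y) = 0 := by
  simp only [lin, BB, Fintype.sum_sum_type, Sum.elim_inr, Sum.elim_inl, Int.cast_zero, zero_mul,
    Finset.sum_const_zero, zero_add]
  apply Finset.sum_eq_zero
  intro k _
  rw [if_neg (fun h => hy ⟨k, h⟩)]; simp

theorem BB_inj {e : Fin q → Fin r} (he : Function.Injective e)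
    {x x' : Fin n ⊕ Fin q → ℝ} (h : lin (BB n e) x = lin (BB n e) x') : x = x' := by
  funext j
  rcases j with a | k
  · have := congrFun h (Sum.inl a)
    rwa [BB_inl, BB_inl] at this
  · have := congrFun h (Sum.inr (e k))
    rwa [BB_inr he, BB_inr he] at this

/-- index set of the generators -/
abbrev IxB (t : GenPair (Fin n ⊕ Fin r)) (e : Fin q → Fin r) : Type :=
  {i : Fin t.p // ∀ y, y ∉ Set.range e → t.v i (Sum.inr y) = 0} ⊕
    {φ : Fin r → Fin t.p // Sel t φ}

/-- the generators -/
def gB (t : GenPair (Fin n ⊕ Fin r)) (e : Fin q → Fin r) :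
    IxB t e → (Fin n ⊕ Fin q) → ℤ
  | Sum.inl i => fun j => t.v i.1 (Sum.map id e j)
  | Sum.inr φ => fun j => X0 t φ.1 (Sum.map id e j)

variable {e : Fin q → Fin r}

theorem linB_inl (he : Function.Injective e)
    (i : {i : Fin t.p // ∀ y, y ∉ Set.range e → t.v i (Sum.inr y) = 0}) :
    lin (BB n e) (toReal (gB t e (Sum.inl i))) = toReal (t.v i.1) := by
  funext j
  rcases j with a | y
  · rw [BB_inl]; simp [gB, toReal]
  · by_cases hy : y ∈ Set.range e
    · obtain ⟨k, rfl⟩ := hy
      rw [BB_inr he]; simp [gB, toReal]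
    · rw [BB_not _ hy]
      simp [toReal, i.2 y hy]

theorem linB_inr (ht : IsLC c Γ t) (he : Function.Injective e)
    (φ : {φ : Fin r → Fin t.p // Sel t φ}) :
    lin (BB n e) (toReal (gB t e (Sum.inr φ))) = toReal (X0 t φ.1) := by
  funext j
  rcases j with a | y
  · rw [BB_inl]; simp [gB, toReal]
  · by_cases hy : y ∈ Set.range e
    · obtain ⟨k, rfl⟩ := hy
      rw [BB_inr he]; simp [gB, toReal]
    · rw [BB_not _ hy]
      simp [toReal, X0_inr ht φ.2 y]

theorem gB_nonneg (ht : IsLC c Γ t) (i : IxB t e) (k : Fin q) : 0 ≤ gB t e i (Sum.inr k) := by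
  rcases i with i | φ
  · exact (ht.columns i.1).1 _
  · exact (X0_inr ht φ.2 (e k)).ge

theorem X0_mem (ht : IsLC c Γ t) {φ : Fin r → Fin t.p} (hφ : Sel t φ) :
    toReal (X0 t φ) ∈ coneOf (ext t) := by
  rw [toReal_X0, XX, toReal_sum]
  refine coneOf_add _ (coneOf_sum _ _ _ fun y _ => ?_) (ext_diag _)
  rw [toReal_zsmul]
  exact coneOf_smul _ (ext_gen _) (by exact_mod_cast (Ny_pos ht hφ y).le)

theorem X0_div (ht : IsLC c Γ t) {φ : Fin r → Fin t.p} (hφ : Sel t φ) :
    ∑ y, ((t.v (φ y) (Sum.inr y) : ℝ))⁻¹ • toReal (t.v (φ y)) + -toReal (diag n r) =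
      ((NN t φ : ℝ))⁻¹ • toReal (X0 t φ) := by
  have hN : (NN t φ : ℝ) ≠ 0 := by exact_mod_cast (NN_pos ht hφ).ne'
  rw [toReal_X0, smul_add, smul_smul, XX, toReal_sum, Finset.smul_sum]
  congr 1
  · refine Finset.sum_congr rfl fun y _ => ?_
    rw [toReal_zsmul, smul_smul]
    congr 1
    have h1 : (t.v (φ y) (Sum.inr y) : ℝ) ≠ 0 := by exact_mod_cast hφ y
    have h2 : (Ny t φ y : ℝ) * (t.v (φ y) (Sum.inr y) : ℝ) = (NN t φ : ℝ) := by
      exact_mod_cast Ny_mul t φ y
    field_simp
    linarith
  · rw [mul_neg, inv_mul_cancel₀ hN, neg_smul, one_smul]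

theorem coneB (ht : IsLC c Γ t) (he : Function.Injective e) (hq : q ≤ c)
    [Fintype (IxB t e)] {x : Fin n ⊕ Fin q → ℝ} (hx0 : ∀ k, 0 ≤ x (Sum.inr k))
    (hx : lin (BB n e) x ∈ coneOf (ext t)) : x ∈ coneOf (gB t e) := by
  classical
  rw [← bigCone_eq] at hx
  obtain ⟨μ, s, hμ, h⟩ := hx
  set K : Set (Fin n ⊕ Fin r → ℝ) := lin (BB n e) '' coneOf (gB t e) with hK
  have Kadd : ∀ u ∈ K, ∀ v ∈ K, u + v ∈ K := by
    rintro _ ⟨u, hu, rfl⟩ _ ⟨v, hv, rfl⟩
    exact ⟨u + v, coneOf_add _ hu hv, lin_add _ _ _⟩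
  have Ksmul : ∀ v ∈ K, ∀ a : ℝ, 0 ≤ a → a • v ∈ K := by
    rintro _ ⟨v, hv, rfl⟩ a ha
    exact ⟨a • v, coneOf_smul _ hv ha, lin_smul _ _ _⟩
  have K0 : (0 : Fin n ⊕ Fin r → ℝ) ∈ K := ⟨0, coneOf_zero _, by
    funext j; simp [lin]⟩
  have Ksum : ∀ {α : Type} (s : Finset α) (f : α → Fin n ⊕ Fin r → ℝ), (∀ a ∈ s, f a ∈ K) →
      ∑ a ∈ s, f a ∈ K := by
    intro α s f hf
    induction s using Finset.induction_on with
    | empty => simpa using K0
    | insert a s ha ih =>
      rw [Finset.sum_insert ha]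
      exact Kadd _ (hf a (Finset.mem_insert_self _ _)) _
        (ih fun b hb => hf b (Finset.mem_insert_of_mem hb))
  have Kconv : Convex ℝ K := by
    intro u hu v hv a b ha hb _
    exact Kadd _ (Ksmul u hu a ha) _ (Ksmul v hv b hb)
  have Kgen : ∀ i, (∀ y, y ∉ Set.range e → t.v i (Sum.inr y) = 0) → toReal (t.v i) ∈ K :=
    fun i hi => ⟨_, coneOf_gen (gB t e) (Sum.inl ⟨i, hi⟩), linB_inl he _⟩
  have Khor : ∑ i ∈ hor t, μ i • toReal (t.v i) ∈ K := Ksum _ _ fun i hi =>
    Ksmul _ (Kgen i fun y _ => mem_hor.1 hi y) _ (hμ i)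
  have hdec : lin (BB n e) x = (∑ i ∈ hor t, μ i • toReal (t.v i) +
      ∑ y, ∑ i ∈ ovr t y, μ i • toReal (t.v i)) + s • toReal (diag n r) := by
    rw [← decomp ht]
    funext j
    rw [h j]
    simp only [Pi.add_apply, Finset.sum_apply, Pi.smul_apply, smul_eq_mul, toReal]
  set T : Fin r → ℝ := fun y => lin (BB n e) x (Sum.inr y) with hT
  have hT0 : ∀ y, 0 ≤ T y := by
    intro y
    by_cases hy : y ∈ Set.range e
    · obtain ⟨k, rfl⟩ := hy
      simp only [hT]
      rw [BB_inr he]; exact hx0 k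
    · simp only [hT]; rw [BB_not _ hy]
  have hTn : ∀ y, y ∉ Set.range e → T y = 0 := fun y hy => by simp only [hT]; rw [BB_not _ hy]
  have hfib : ∀ y, ∑ i ∈ ovr t y, μ i * (t.v i (Sum.inr y) : ℝ) = T y - s := by
    intro y
    have := h (Sum.inr y)
    rw [sum_over] at this
    simp only [diag, Sum.elim_inr, Int.cast_one, mul_one] at this
    simp only [hT]
    linarith
  have hfib0 : ∀ y, 0 ≤ T y - s := by
    intro y
    rw [← hfib]
    refine Finset.sum_nonneg fun i hi => mul_nonneg (hμ i) ?_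
    exact_mod_cast (ht.col_pos (mem_ovr.1 hi)).le
  -- a coordinate outside of the image
  obtain ⟨y1, hy1⟩ : ∃ y1, y1 ∉ Set.range e := by
    by_contra hcon
    push Not at hcon
    have hsurj : Function.Surjective e := fun y => hcon y
    have := Fintype.card_le_of_surjective e hsurj
    simp only [Fintype.card_fin] at this
    have := ht.size
    omega
  have hs : 0 ≤ -s := by
    have := hfib0 y1
    rw [hTn y1 hy1] at this
    linarith
  have hmem : lin (BB n e) x ∈ K := by
    rcases hs.eq_or_lt with hs0 | hs0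
    · -- no selections needed
      rw [hdec]
      have h0 : s = 0 := by linarith
      rw [h0, zero_smul, add_zero]
      refine Kadd _ Khor _ (Ksum _ _ fun y _ => ?_)
      by_cases hy : y ∈ Set.range e
      · refine Ksum _ _ fun i hi => Ksmul _ (Kgen i fun y' hy' => ?_) _ (hμ i)
        exact ht.col_eq (mem_ovr.1 hi) (fun h' => hy' (h' ▸ hy))
      · have : ∑ i ∈ ovr t y, μ i • toReal (t.v i) = 0 := by
          refine Finset.sum_eq_zero fun i hi => ?_
          have h1 := hfib y
          rw [hTn y hy, h0, sub_zero, Finset.sum_eq_zero_iff_of_nonneg] at h1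
          · have h2 := h1 i hi
            have h3 : (t.v i (Sum.inr y) : ℝ) ≠ 0 := by exact_mod_cast mem_ovr.1 hi
            have h4 : μ i = 0 := (mul_eq_zero.1 h2).resolve_right h3
            rw [h4, zero_smul]
          · intro i hi
            refine mul_nonneg (hμ i) ?_
            exact_mod_cast (ht.col_pos (mem_ovr.1 hi)).le
        rw [this]; exact K0
    · have hF : ∀ y, 0 < T y - s := fun y => by linarith [hT0 y]
      set ρ : Fin t.p → ℝ := fun i => ∑ y, if t.v i (Sum.inr y) ≠ 0 then (-s) / (T y - s) else 0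
        with hρ
      have hρo : ∀ y, ∀ i ∈ ovr t y, ρ i = (-s) / (T y - s) := by
        intro y i hi
        have hi' := mem_ovr.1 hi
        simp only [hρ]
        rw [Finset.sum_eq_single y]
        · rw [if_pos hi']
        · intro y' _ hy'
          rw [if_neg]
          simpa using ht.col_eq hi' hy'
        · intro h'; exact absurd (Finset.mem_univ _) h'
      have hρ0 : ∀ i, 0 ≤ ρ i := by
        intro i
        refine Finset.sum_nonneg fun y _ => ?_
        split_ifs
        · exact div_nonneg hs (hF y).le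
        · exact le_rfl
      have h1 := fibre_mem ht univ (μ := fun i => ρ i * μ i)
        (fun i => mul_nonneg (hρ0 i) (hμ i)) hs0 (by
          intro y _
          have h2 : ∑ i ∈ ovr t y, ρ i * μ i * (t.v i (Sum.inr y) : ℝ) =
              (-s) / (T y - s) * ∑ i ∈ ovr t y, μ i * (t.v i (Sum.inr y) : ℝ) := by
            rw [Finset.mul_sum]
            refine Finset.sum_congr rfl fun i hi => ?_
            rw [hρo y i hi]; ring
          rw [h2, hfib, div_mul_cancel₀ _ (hF y).ne']) Kconv Ksmul (-toReal (diag n r)) (by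
          intro φ hφ
          rw [X0_div ht hφ]
          apply Ksmul
          · exact ⟨_, coneOf_gen (gB t e) (Sum.inr ⟨φ, hφ⟩), linB_inr ht he _⟩
          · have : (0 : ℝ) < NN t φ := by exact_mod_cast NN_pos ht hφ
            positivity)
      have h2 : ∑ y, ∑ i ∈ ovr t y, ((T y / (T y - s)) * μ i) • toReal (t.v i) ∈ K := by
        refine Ksum _ _ fun y _ => ?_
        by_cases hy : y ∈ Set.range e
        · refine Ksum _ _ fun i hi => Ksmul _ (Kgen i fun y' hy' => ?_) _
            (mul_nonneg (div_nonneg (hT0 y) (hF y).le) (hμ i))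
          exact ht.col_eq (mem_ovr.1 hi) (fun h' => hy' (h' ▸ hy))
        · rw [hTn y hy]
          simpa using K0
      have h3 : lin (BB n e) x = ∑ i ∈ hor t, μ i • toReal (t.v i) +
          (∑ y, ∑ i ∈ ovr t y, ((T y / (T y - s)) * μ i) • toReal (t.v i) +
          (∑ y, ∑ i ∈ ovr t y, (ρ i * μ i) • toReal (t.v i) + (-s) • (-toReal (diag n r)))) := by
        rw [hdec, smul_neg, neg_smul, neg_neg]
        have h4 : ∑ y, ∑ i ∈ ovr t y, μ i • toReal (t.v i) =
            ∑ y, ∑ i ∈ ovr t y, ((T y / (T y - s)) * μ i) • toReal (t.v i) +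
            ∑ y, ∑ i ∈ ovr t y, (ρ i * μ i) • toReal (t.v i) := by
          rw [← Finset.sum_add_distrib]
          refine Finset.sum_congr rfl fun y _ => ?_
          rw [← Finset.sum_add_distrib]
          refine Finset.sum_congr rfl fun i hi => ?_
          rw [← add_smul, hρo y i hi]
          congr 1
          have := (hF y).ne'
          field_simp
          ring
        rw [h4]
        abel
      rw [h3]
      exact Kadd _ Khor _ (Kadd _ h2 _ h1)
  obtain ⟨x', hx', hex⟩ := hmem
  rw [← BB_inj he hex]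
  exact hx'

theorem caseB (ht : IsLC c Γ t) (hB : ∀ φ, Sel t φ → logDisc t (toReal (X0 t φ)) = 0)
    (he : Function.Injective e) (hq : q ≤ c) {z₀ : Fin n ⊕ Fin r → ℤ} (hz : Trop c z₀)
    (hz2 : toReal z₀ ∈ interior (bigCone t))
    (hz3 : ∀ y, y ∉ Set.range e → z₀ (Sum.inr y) = 0)
    (hz4 : ∀ k, z₀ (Sum.inr (e k)) ≠ 0) {x : ℝ}
    (hx : logDisc t (toReal z₀) < x) :
    ∃ t' : GenPair (Fin n ⊕ Fin q), LC2 (insert 1 Γ) ((c : ℝ) + 1) t' ∧ mld c t ≤ rmld t' ∧
      rmld t' < x := by
  classical
  set z₁ : Fin n ⊕ Fin q → ℤ := fun j => z₀ (Sum.map id e j) with hz₁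
  have hz0 : lin (BB n e) (toReal z₁) = toReal z₀ := by
    funext j
    rcases j with a | y
    · rw [BB_inl]; simp [toReal, hz₁]
    · by_cases hy : y ∈ Set.range e
      · obtain ⟨k, rfl⟩ := hy
        rw [BB_inr he]; simp [toReal, hz₁]
      · rw [BB_not _ hy]
        simp [toReal, hz3 y hy]
  rw [bigCone_eq] at hz2
  have hz2r := rint_of_interior _ hz2
  have hH3 : ∀ i : IxB t e, lin (BB n e) (toReal (gB t e i)) ∈ coneOf (ext t) := by
    rintro (i | φ)
    · rw [linB_inl he]; exact ext_gen _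
    · rw [linB_inr ht he]; exact X0_mem ht φ.2
  refine red_abstract ht t (BB n e) (gB t e) ?_ ?_ hH3 ?_ ?_ z₁ ?_ ?_
  · rintro (i | φ)
    · rw [linB_inl he]
      have h1 : ((c : ℝ) + 1) - logDisc t (toReal (t.v i.1)) =
          c + (1 - logDisc t (toReal (t.v i.1))) := by ring
      rw [h1]
      exact AddSubmonoid.add_mem _ (nat_mem Γ c) (clos_mono (ht.boundary _))
    · rw [linB_inr ht he, hB _ φ.2, sub_zero]
      have := nat_mem Γ (c + 1)
      push_cast at this
      exact this
  · intro a ha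
    exact ⟨Set.mem_insert_of_mem _ (ht.parts a ha).1, (ht.parts a ha).2.1⟩
  · intro j
    by_cases hj : ∀ y, y ∉ Set.range e → t.v j (Sum.inr y) = 0
    · refine ⟨Sum.inl ⟨j, hj⟩, 1, one_pos, ?_⟩
      rw [linB_inl he, one_smul, sub_self]
      exact coneOf_zero _
    · push Not at hj
      obtain ⟨y, _, hy⟩ := hj
      obtain ⟨φ₀, hφ₀⟩ := ht.exists_sel
      have hφ : Sel t (Function.update φ₀ y j) := by
        intro y'
        by_cases h : y' = y
        · subst h; rw [Function.update_self]; exact hy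
        · rw [Function.update_of_ne h]; exact hφ₀ y'
      refine ⟨Sum.inr ⟨_, hφ⟩, (Ny t (Function.update φ₀ y j) y : ℝ),
        by exact_mod_cast Ny_pos ht hφ y, ?_⟩
      rw [linB_inr ht he]
      simp only
      rw [toReal_X0, XX, toReal_sum]
      have h1 := Finset.add_sum_erase univ
        (fun y' => toReal (Ny t (Function.update φ₀ y j) y' •
          t.v (Function.update φ₀ y j y'))) (Finset.mem_univ y)
      rw [← h1]
      simp only [toReal_zsmul, Function.update_self]
      have h2 : ∀ u v w : Fin n ⊕ Fin r → ℝ, u + v + w - u = v + w := by intros; abel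
      rw [h2]
      refine coneOf_add _ (coneOf_sum _ _ _ fun y' _ => ?_) (ext_diag _)
      exact coneOf_smul _ (ext_gen _) (by exact_mod_cast (Ny_pos ht hφ y').le)
  · intro z hzc
    refine ⟨linZ (BB n e) z, ?_, ?_, ?_, ?_⟩
    · have hnn : ∀ k, 0 ≤ z (Sum.inr k) := by
        intro k
        obtain ⟨μ, hμ, h⟩ := hzc
        have h1 := h (Sum.inr k)
        have h2 : (0 : ℝ) ≤ toReal z (Sum.inr k) := by
          rw [h1]
          refine Finset.sum_nonneg fun i _ => mul_nonneg (hμ i) ?_
          exact_mod_cast gB_nonneg ht i k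
        simp only [toReal] at h2
        exact_mod_cast h2
      have hin : ∀ k, linZ (BB n e) z (Sum.inr (e k)) = z (Sum.inr k) := by
        intro k
        have := BB_inr (n := n) he (toReal z) k
        rw [lin_toReal] at this
        simp only [toReal] at this
        exact_mod_cast this
      have hout : ∀ y, y ∉ Set.range e → linZ (BB n e) z (Sum.inr y) = 0 := by
        intro y hy
        have := BB_not (n := n) (toReal z) hy
        rw [lin_toReal] at this
        simp only [toReal] at this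
        exact_mod_cast this
      refine ⟨fun y => ?_, ?_⟩
      · by_cases hy : y ∈ Set.range e
        · obtain ⟨k, rfl⟩ := hy
          rw [hin]; exact hnn k
        · rw [hout y hy]
      · have hsub : (univ.filter fun y => linZ (BB n e) z (Sum.inr y) ≠ 0) ⊆ univ.image e := by
          intro y hy
          rw [Finset.mem_filter] at hy
          by_contra hcon
          apply hy.2
          apply hout
          rintro ⟨k, rfl⟩
          exact hcon (Finset.mem_image_of_mem _ (Finset.mem_univ k))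
        refine (Finset.card_le_card hsub).trans (Finset.card_image_le.trans ?_)
        simpa using hq
    · rw [lin_toReal]
    · intro h; rwa [lin_toReal] at h
    · intro h; rwa [lin_toReal] at h
  · have hpos : ∀ k, (1 : ℝ) ≤ toReal z₁ (Sum.inr k) := by
      intro k
      have h1 : 0 < z₀ (Sum.inr (e k)) := lt_of_le_of_ne (hz.1 _) (Ne.symm (hz4 k))
      simp only [toReal, hz₁, Sum.map_inr]
      exact_mod_cast h1
    refine ⟨?_, fun i => ?_⟩
    · apply coneB ht he hq (fun k => by linarith [hpos k])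
      rw [hz0]; exact hz2r.1
    · obtain ⟨ε, hε, h⟩ := rint_sub _ hz2r (hH3 i)
      obtain ⟨δ, hδ, hδ2⟩ : ∃ δ : ℝ, 0 < δ ∧ ∀ k, δ * toReal (gB t e i) (Sum.inr k) ≤ 1 := by
        set M : ℝ := 1 + ∑ k, toReal (gB t e i) (Sum.inr k) with hM
        have hnn : ∀ k, 0 ≤ toReal (gB t e i) (Sum.inr k) := by
          intro k
          simp only [toReal]
          exact_mod_cast gB_nonneg ht i k
        have hMp : 0 < M := by
          have : 0 ≤ ∑ k, toReal (gB t e i) (Sum.inr k) := Finset.sum_nonneg fun k _ => hnn k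
          linarith
        refine ⟨M⁻¹, inv_pos.2 hMp, fun k => ?_⟩
        have h1 : toReal (gB t e i) (Sum.inr k) ≤ ∑ k, toReal (gB t e i) (Sum.inr k) :=
          Finset.single_le_sum (f := fun k => toReal (gB t e i) (Sum.inr k)) (fun k _ => hnn k)
            (Finset.mem_univ k)
        rw [inv_mul_le_iff₀ hMp]
        linarith
      refine ⟨min ε δ, lt_min hε hδ, ?_⟩
      apply coneB ht he hq
      · intro k
        simp only [Pi.sub_apply, Pi.smul_apply, smul_eq_mul]
        have hnn : 0 ≤ toReal (gB t e i) (Sum.inr k) := by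
          simp only [toReal]
          exact_mod_cast gB_nonneg ht i k
        have h1 : min ε δ * toReal (gB t e i) (Sum.inr k) ≤
            δ * toReal (gB t e i) (Sum.inr k) := mul_le_mul_of_nonneg_right (min_le_right _ _) hnn
        linarith [hpos k, hδ2 k]
      · rw [lin_sub, lin_smul, hz0]
        have h1 : toReal z₀ - min ε δ • lin (BB n e) (toReal (gB t e i)) =
            (toReal z₀ - ε • lin (BB n e) (toReal (gB t e i))) +
            (ε - min ε δ) • lin (BB n e) (toReal (gB t e i)) := by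
          rw [sub_smul]; abel
        rw [h1]
        exact coneOf_add _ h (coneOf_smul _ (hH3 i) (by linarith [min_le_left ε δ]))
  · rw [hz0]; exact hx

end Pool.Agent.helper22.ARR
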