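import Pool.Agent.helper22.ACC.Kron

/-!
# The limit argument, with a constant
-/

noncomputable section

namespace Pool.Agent.helper22.ARR

open Finset Filter Pool.Agent.helper22.ACC

variable {d : ℕ}

/-- nonnegative sublinear functions on the open positive orthant, bounded by `C` times the sum of
the coordinates -/
structure Good (C : ℝ) (F : (Fin d → ℝ) → ℝ) : Prop where
  sub : ∀ u v : Fin d → ℝ, (∀ i, 0 < u i) → (∀ i, 0 < v i) → F (u + v) ≤ F u + F v
  hom : ∀ (t : ℝ) (u : Fin d → ℝ), 0 < t → (∀ i, 0 < u i) → F (t • u) = t * F u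
  nonneg : ∀ u : Fin d → ℝ, (∀ i, 0 < u i) → 0 ≤ F u
  le : ∀ u : Fin d → ℝ, (∀ i, 0 < u i) → F u ≤ C * ∑ i, u i

theorem Good.near {C : ℝ} (hC : 0 ≤ C) {F : (Fin d → ℝ) → ℝ} (hF : Good C F) {w g : Fin d → ℝ}
    {t δ : ℝ} (hw : ∀ i, 0 < w i) (ht0 : 0 < t) (ht1 : t < 1) (hδ : ∀ i, δ ≤ t * w i)
    (hg : ∀ i, |w i - g i| < δ) : F g ≤ F w + C * (t * ∑ i, w i + d * δ) := by
  have h1 : g = (1 - t) • w + (g - (1 - t) • w) := by abel
  have hp1 : ∀ i, 0 < ((1 - t) • w) i := fun i => mul_pos (by linarith) (hw i)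
  have hp2 : ∀ i, 0 < (g - (1 - t) • w) i := by
    intro i
    have := abs_lt.1 (hg i)
    have h2 := hδ i
    simp only [Pi.sub_apply, Pi.smul_apply, smul_eq_mul]
    nlinarith
  calc F g = F ((1 - t) • w + (g - (1 - t) • w)) := by rw [← h1]
    _ ≤ F ((1 - t) • w) + F (g - (1 - t) • w) := hF.sub _ _ hp1 hp2
    _ ≤ (1 - t) * F w + C * ∑ i, (g - (1 - t) • w) i := by
        rw [hF.hom _ _ (by linarith) hw]
        exact add_le_add le_rfl (hF.le _ hp2)
    _ ≤ F w + C * (t * ∑ i, w i + d * δ) := by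
        have h3 : (1 - t) * F w ≤ F w := by
          have := hF.nonneg w hw
          nlinarith
        have h4 : ∑ i, (g - (1 - t) • w) i ≤ ∑ i : Fin d, (t * w i + δ) := by
          refine Finset.sum_le_sum fun i _ => ?_
          have := abs_lt.1 (hg i)
          simp only [Pi.sub_apply, Pi.smul_apply, smul_eq_mul]
          nlinarith
        rw [Finset.sum_add_distrib, ← Finset.mul_sum] at h4
        simp only [Finset.sum_const, Finset.card_univ, Fintype.card_fin, nsmul_eq_mul] at h4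
        exact add_le_add h3 (mul_le_mul_of_nonneg_left h4 hC)

theorem core {C : ℝ} (hC : 0 < C) (L : ℕ → AddSubgroup (Fin d → ℝ)) (hL : ∀ k, IsOver (L k))
    (F : ℕ → (Fin d → ℝ) → ℝ) (hF : ∀ k, Good C (F k))
    (hmono : ∀ k l, k ≤ l → ∀ u : Fin d → ℝ, (∀ i, 0 < u i) → F l u ≤ F k u)
    (w : ℕ → Fin d → ℝ) (hw : ∀ k, w k ∈ L k) (hpos : ∀ k i, 0 < w k i) :
    ∃ k, ∀ ε > 0, ∀ K, ∃ l ≥ K, ∃ g ∈ L l, (∀ i, 0 < g i) ∧ F l g ≤ F k (w k) + ε := by
  classical
  set U : Ultrafilter ℕ := Filter.hyperfilter ℕ with hU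
  let M : AddSubgroup (Fin d → ℤ) :=
    { carrier := {m | ∀ᶠ k in (U : Filter ℕ), m ∈ dualL (L k)}
      zero_mem' := Eventually.of_forall fun k => (dualL (L k)).zero_mem
      add_mem' := by
        intro a b ha hb
        exact (ha.and hb).mono fun k h => (dualL (L k)).add_mem h.1 h.2
      neg_mem' := by
        intro a ha
        exact ha.mono fun k h => (dualL (L k)).neg_mem h }
  have hM : ∀ m, m ∈ M ↔ ∀ᶠ k in (U : Filter ℕ), m ∈ dualL (L k) := fun m => Iff.rfl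
  -- `M` is finitely generated
  obtain ⟨s, hs⟩ : ∃ s : Finset (Fin d → ℤ), AddSubgroup.closure (s : Set (Fin d → ℤ)) = M := by
    have h1 : (AddSubgroup.toIntSubmodule M).FG := IsNoetherian.noetherian _
    rw [Submodule.fg_iff_addSubgroup_fg] at h1
    exact h1
  have hev : ∀ᶠ k in (U : Filter ℕ), M ≤ dualL (L k) := by
    have h1 : ∀ᶠ k in (U : Filter ℕ), ∀ m ∈ s, m ∈ dualL (L k) := by
      rw [Filter.eventually_all_finset]
      intro m hm
      rw [← hM, ← hs]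
      exact AddSubgroup.subset_closure hm
    refine h1.mono fun k hk => ?_
    rw [← hs, AddSubgroup.closure_le]
    exact hk
  obtain ⟨k, hk⟩ := hev.exists
  refine ⟨k, fun ε' hε' K => ?_⟩
  obtain ⟨ε, hε, hεC⟩ : ∃ ε : ℝ, 0 < ε ∧ C * ε = ε' := ⟨ε' / C, div_pos hε' hC, by field_simp⟩
  have hwM : ∀ m ∈ M, ∃ z : ℤ, ∑ i, (m i : ℝ) * w k i = z := fun m hm => hk hm _ (hw k)
  -- constants
  set σ := ∑ i, w k i with hσ
  have hσ0 : 0 ≤ σ := Finset.sum_nonneg fun i _ => (hpos k i).le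
  obtain ⟨t, ht0, ht1, ht2⟩ : ∃ t : ℝ, 0 < t ∧ t < 1 ∧ t * σ ≤ ε / 2 := by
    refine ⟨min (1 / 2) (ε / (2 * (σ + 1))), lt_min (by norm_num) (by positivity),
      lt_of_le_of_lt (min_le_left _ _) (by norm_num), ?_⟩
    have h1 : min (1 / 2) (ε / (2 * (σ + 1))) ≤ ε / (2 * (σ + 1)) := min_le_right _ _
    calc min (1 / 2) (ε / (2 * (σ + 1))) * σ ≤ ε / (2 * (σ + 1)) * σ :=
          mul_le_mul_of_nonneg_right h1 hσ0
      _ ≤ ε / (2 * (σ + 1)) * (σ + 1) := by
          apply mul_le_mul_of_nonneg_left (by linarith); positivity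
      _ = ε / 2 := by field_simp
  obtain ⟨δ, hδ0, hδ1, hδ2⟩ : ∃ δ : ℝ, 0 < δ ∧ (∀ i, δ ≤ t * w k i) ∧ d * δ ≤ ε / 2 := by
    have h1 : ∃ δ1 : ℝ, 0 < δ1 ∧ ∀ i, δ1 ≤ t * w k i := by
      rcases isEmpty_or_nonempty (Fin d) with h | h
      · exact ⟨1, one_pos, fun i => (h.false i).elim⟩
      · obtain ⟨i0, hi0⟩ := Finite.exists_min (fun i => t * w k i)
        exact ⟨t * w k i0, mul_pos ht0 (hpos k i0), hi0⟩
    obtain ⟨δ1, h10, h11⟩ := h1
    refine ⟨min δ1 (ε / (2 * (d + 1))), lt_min h10 (by positivity),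
      fun i => (min_le_left _ _).trans (h11 i), ?_⟩
    calc (d : ℝ) * min δ1 (ε / (2 * (d + 1))) ≤ (d + 1) * (ε / (2 * (d + 1))) := by
          apply mul_le_mul (by linarith) (min_le_right _ _) (le_min h10.le (by positivity))
            (by positivity)
      _ = ε / 2 := by field_simp
  obtain ⟨B, hB⟩ := density M (w k) hwM hδ0
  have hev2 : ∀ᶠ l in (U : Filter ℕ), ∀ m ∈ B, (m ∈ dualL (L l) ↔ m ∈ M) := by
    rw [Filter.eventually_all_finset]
    intro m _
    by_cases hm : m ∈ M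
    · exact ((hM m).1 hm).mono fun l hl => ⟨fun _ => hm, fun _ => hl⟩
    · have h1 : ¬ ∀ᶠ l in (U : Filter ℕ), m ∈ dualL (L l) := fun h => hm ((hM m).2 h)
      rw [← Ultrafilter.eventually_not] at h1
      exact h1.mono fun l hl => ⟨fun h => absurd h hl, fun h => absurd h hm⟩
  have hev3 : ∀ᶠ l in (U : Filter ℕ), max K k ≤ l :=
    (Filter.eventually_ge_atTop (max K k)).filter_mono Nat.hyperfilter_le_atTop
  obtain ⟨l, hl1, hl2⟩ := (hev2.and hev3).exists
  obtain ⟨g, hgL, hg⟩ := hB (L l) (hL l) hl1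
  have hgpos : ∀ i, 0 < g i := by
    intro i
    have h1 := abs_lt.1 (hg i)
    have h2 := hδ1 i
    have h3 := hpos k i
    nlinarith
  refine ⟨l, le_trans (le_max_left _ _) hl2, g, hgL, hgpos, ?_⟩
  have h4 := (hF l).near hC.le (hpos k) ht0 ht1 hδ1 hg
  have h5 := hmono k l (le_trans (le_max_right _ _) hl2) (w k) (hpos k)
  have h6 : C * (t * ∑ i, w k i + d * δ) ≤ C * ε :=
    mul_le_mul_of_nonneg_left (by linarith) hC.le
  linarith

end Pool.Agent.helper22.ARR
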