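import Pool.Agent.helper22.ARR.Red

/-!
# Decomposition along the fibres
-/

noncomputable section

namespace Pool.Agent.helper22.ARR

open Finset

variable {n r c : ℕ} {Γ : Set ℝ} {t : GenPair (Fin n ⊕ Fin r)}

open Classical in
/-- the generators lying over `y` -/
def ovr (t : GenPair (Fin n ⊕ Fin r)) (y : Fin r) : Finset (Fin t.p) :=
  univ.filter fun i => t.v i (Sum.inr y) ≠ 0

open Classical in
/-- the generators lying over no `y` -/
def hor (t : GenPair (Fin n ⊕ Fin r)) : Finset (Fin t.p) :=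
  univ.filter fun i => ∀ y, t.v i (Sum.inr y) = 0

theorem mem_ovr {y : Fin r} {i : Fin t.p} : i ∈ ovr t y ↔ t.v i (Sum.inr y) ≠ 0 := by
  simp [ovr]

theorem mem_hor {i : Fin t.p} : i ∈ hor t ↔ ∀ y, t.v i (Sum.inr y) = 0 := by
  simp [hor]

theorem decomp (ht : IsLC c Γ t) {V : Type*} [AddCommGroup V] (f : Fin t.p → V) :
    ∑ i, f i = ∑ i ∈ hor t, f i + ∑ y, ∑ i ∈ ovr t y, f i := by
  classical
  have h1 : ∑ y, ∑ i ∈ ovr t y, f i = ∑ i, ∑ y, if t.v i (Sum.inr y) ≠ 0 then f i else 0 := by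
    rw [Finset.sum_comm]
    refine Finset.sum_congr rfl fun y _ => ?_
    rw [ovr, Finset.sum_filter]
  rw [h1, hor, Finset.sum_filter, ← Finset.sum_add_distrib]
  refine Finset.sum_congr rfl fun i _ => ?_
  by_cases h : ∀ y, t.v i (Sum.inr y) = 0
  · rw [if_pos h]
    simp [h]
  · rw [if_neg h, zero_add]
    push Not at h
    obtain ⟨y0, hy0⟩ := h
    rw [Finset.sum_eq_single y0]
    · rw [if_pos hy0]
    · intro y _ hy
      rw [if_neg]
      simpa using ht.col_eq hy0 hy
    · intro h; exact absurd (Finset.mem_univ _) h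

theorem sum_over (t : GenPair (Fin n ⊕ Fin r)) (μ : Fin t.p → ℝ) (y : Fin r) :
    ∑ i, μ i * (t.v i (Sum.inr y) : ℝ) = ∑ i ∈ ovr t y, μ i * (t.v i (Sum.inr y) : ℝ) := by
  classical
  symm
  apply Finset.sum_subset (Finset.subset_univ _)
  intro i _ hi
  have : t.v i (Sum.inr y) = 0 := by
    by_contra h; exact hi (mem_ovr.2 h)
  rw [this]; simp

theorem fibre_mem (ht : IsLC c Γ t) (S : Finset (Fin r)) {μ : Fin t.p → ℝ} (hμ : ∀ i, 0 ≤ μ i)
    {τ : ℝ} (hτ : 0 < τ) (hF : ∀ y ∈ S, ∑ i ∈ ovr t y, μ i * (t.v i (Sum.inr y) : ℝ) = τ)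
    {K : Set (Fin n ⊕ Fin r → ℝ)} (hK : Convex ℝ K) (hKs : ∀ v ∈ K, ∀ s : ℝ, 0 ≤ s → s • v ∈ K)
    (v0 : Fin n ⊕ Fin r → ℝ)
    (h : ∀ φ, Sel t φ →
      ∑ y ∈ S, ((t.v (φ y) (Sum.inr y) : ℝ))⁻¹ • toReal (t.v (φ y)) + v0 ∈ K) :
    ∑ y ∈ S, ∑ i ∈ ovr t y, μ i • toReal (t.v i) + τ • v0 ∈ K := by
  classical
  obtain ⟨φ0, hφ0⟩ := ht.exists_sel
  have hK0 : Convex ℝ {v | v + v0 ∈ K} := by
    intro x hx y hy s s' hs hs' hss
    have := hK hx hy hs hs' hss
    simp only [Set.mem_ofPred_eq]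
    convert this using 1
    rw [smul_add, smul_add, add_add_add_comm, ← add_smul, hss, one_smul]
  have hm := mink φ0 S _ hK0
    (fun y i => if t.v i (Sum.inr y) ≠ 0 then μ i * (t.v i (Sum.inr y) : ℝ) / τ else 0)
    (fun y i => ((t.v i (Sum.inr y) : ℝ))⁻¹ • toReal (t.v i)) (by
      intro y hy
      refine ⟨fun i => ?_, ?_⟩
      · split_ifs with h1
        · have : (0 : ℝ) < t.v i (Sum.inr y) := by exact_mod_cast ht.col_pos h1
          have := hμ i
          positivity
        · exact le_rfl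
      · rw [← Finset.sum_filter]
        rw [← Finset.sum_div]
        have := hF y hy
        rw [ovr] at this
        rw [this, div_self hτ.ne']) (by
      intro ψ hψ
      have hψ' : ∀ y ∈ S, t.v (ψ y) (Sum.inr y) ≠ 0 := by
        intro y hy
        have := hψ y hy
        by_contra hcon
        rw [if_neg (by simpa using hcon)] at this
        exact lt_irrefl _ this
      have h1 := h (fun y => if y ∈ S then ψ y else φ0 y) (by
        intro y
        change t.v (if y ∈ S then ψ y else φ0 y) (Sum.inr y) ≠ 0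
        split_ifs with hy
        · exact hψ' y hy
        · exact hφ0 y)
      simp only [Set.mem_ofPred_eq]
      convert h1 using 2
      refine Finset.sum_congr rfl fun y hy => ?_
      simp only [if_pos hy])
  simp only [Set.mem_ofPred_eq] at hm
  have hm2 := hKs _ hm τ hτ.le
  rw [smul_add, Finset.smul_sum] at hm2
  convert hm2 using 2
  refine Finset.sum_congr rfl fun y _ => ?_
  rw [Finset.smul_sum, ovr, Finset.sum_filter]
  refine Finset.sum_congr rfl fun i _ => ?_
  split_ifs with h1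
  · have h2 : ((t.v i (Sum.inr y) : ℝ)) ≠ 0 := by exact_mod_cast h1
    rw [smul_smul, smul_smul]
    congr 1
    field_simp
  · simp

/-! ## the defect -/

section
variable {ι : Type} [Fintype ι]

theorem low_sum {S : Finset (ι → ℤ)} (hS : S.Nonempty) {α : Type*} (s : Finset α)
    (f : α → ι → ℝ) : ∑ a ∈ s, low S (f a) ≤ low S (∑ a ∈ s, f a) := by
  classical
  induction s using Finset.induction_on with
  | empty =>
    have : low S (0 : ι → ℝ) = 0 := by
      have := low_smul S le_rfl (0 : ι → ℝ)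
      rwa [zero_smul, zero_mul] at this
    simp [this]
  | insert a s ha ih =>
    rw [Finset.sum_insert ha, Finset.sum_insert ha]
    exact (add_le_add le_rfl ih).trans (low_add hS _ _)

theorem defect {Γ : Set ℝ} (L : List (ℝ × Finset (ι → ℤ))) (hL : ∀ a ∈ L, a.1 ∈ Γ ∧ a.2.Nonempty)
    {α : Type*} (s : Finset α) (f : α → ι → ℤ) :
    ∃ e ∈ AddSubmonoid.closure Γ, (L.map fun a => a.1 * low a.2 (toReal (∑ y ∈ s, f y))).sum =
      ∑ y ∈ s, (L.map fun a => a.1 * low a.2 (toReal (f y))).sum + e := by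
  classical
  induction L with
  | nil => exact ⟨0, AddSubmonoid.zero_mem _, by simp⟩
  | cons a L ih =>
    obtain ⟨e, he, h⟩ := ih fun b hb => hL b (List.mem_cons_of_mem _ hb)
    obtain ⟨ha1, ha2⟩ := hL a List.mem_cons_self
    have h1 : ∃ k : ℕ, low a.2 (toReal (∑ y ∈ s, f y)) =
        ∑ y ∈ s, low a.2 (toReal (f y)) + k := by
      have h2 := low_sum ha2 s fun y => toReal (f y)
      rw [← toReal_sum] at h2
      rw [low_eq ha2] at h2 ⊢
      simp only [low_eq ha2] at h2 ⊢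
      have h3 : ∑ y ∈ s, lowI a.2 (f y) ≤ lowI a.2 (∑ y ∈ s, f y) := by exact_mod_cast h2
      obtain ⟨k, hk⟩ := Int.eq_ofNat_of_zero_le (sub_nonneg.2 h3)
      refine ⟨k, ?_⟩
      have h4 : lowI a.2 (∑ y ∈ s, f y) = ∑ y ∈ s, lowI a.2 (f y) + k := by omega
      rw [h4]
      push_cast
      rfl
    obtain ⟨k, hk⟩ := h1
    refine ⟨(k : ℝ) * a.1 + e, AddSubmonoid.add_mem _ ?_ he, ?_⟩
    · have := AddSubmonoid.nsmul_mem (AddSubmonoid.closure Γ) (AddSubmonoid.subset_closure ha1) k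
      rwa [nsmul_eq_mul] at this
    · simp only [List.map_cons, List.sum_cons, Finset.sum_add_distrib]
      rw [h, hk, mul_add, Finset.mul_sum]
      ring

theorem logDisc_defect {Γ : Set ℝ} {t : GenPair ι} (hL : ∀ a ∈ t.parts, a.1 ∈ Γ ∧ a.2.Nonempty)
    {α : Type*} (s : Finset α) (f : α → ι → ℤ) :
    ∃ e ∈ AddSubmonoid.closure Γ, logDisc t (toReal (∑ y ∈ s, f y)) =
      ∑ y ∈ s, logDisc t (toReal (f y)) - e := by
  obtain ⟨e, he, h⟩ := defect t.parts hL s f
  refine ⟨e, he, ?_⟩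
  simp only [logDisc, Finset.sum_sub_distrib]
  rw [h]
  have h5 : ∑ j, t.psi j * toReal (∑ y ∈ s, f y) j =
      ∑ y ∈ s, ∑ j, t.psi j * toReal (f y) j := by
    rw [toReal_sum, Finset.sum_comm]
    refine Finset.sum_congr rfl fun j _ => ?_
    simp only [Finset.sum_apply, Finset.mul_sum]
  rw [h5]
  ring

end

end Pool.Agent.helper22.ARR
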