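import Pool.Agent.helper22.ARR.Sub
import Pool.Agent.helper22.ARR.Toric

/-!
# Combinatorial inversion of adjunction

From an integral point of the ambient cone one reaches, by adding generators, a point of the tropical
variety whose log discrepancy is not larger.
-/

noncomputable section

namespace Pool.Agent.helper22.ARR

open Finset

variable {n r c : ℕ} {Γ : Set ℝ} {t : GenPair (Fin n ⊕ Fin r)}

/-! ## integral and real vectors -/

section
variable {ι : Type}

theorem toReal_add (a b : ι → ℤ) : toReal (a + b) = toReal a + toReal b := by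
  funext j; simp [toReal]

theorem toReal_sub (a b : ι → ℤ) : toReal (a - b) = toReal a - toReal b := by
  funext j; simp [toReal]

theorem toReal_neg (a : ι → ℤ) : toReal (-a) = - toReal a := by
  funext j; simp [toReal]

theorem toReal_zsmul (k : ℤ) (a : ι → ℤ) : toReal (k • a) = (k : ℝ) • toReal a := by
  funext j; simp [toReal]

theorem toReal_sum {α : Type*} (s : Finset α) (f : α → ι → ℤ) :
    toReal (∑ a ∈ s, f a) = ∑ a ∈ s, toReal (f a) := by
  funext j
  simp only [toReal, Finset.sum_apply]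
  push_cast
  rfl

end

/-! ## first properties -/

theorem IsLC.nice (ht : IsLC c Γ t) (hΓ : ∀ x ∈ Γ, 0 ≤ x) : Nice t :=
  fun a ha => ⟨hΓ _ (ht.parts a ha).1, (ht.parts a ha).2.1⟩

theorem IsLC.niceBig (ht : IsLC c Γ t) (hΓ : ∀ x ∈ Γ, 0 ≤ x) : Nice (big c t) := by
  intro a ha
  rcases List.mem_cons.1 ha with rfl | ha
  · exact ⟨zero_le_one, top_nonempty ht.size⟩
  · exact ht.nice hΓ a ha

theorem IsLC.gen_le (ht : IsLC c Γ t) (hΓ : ∀ x ∈ Γ, 0 ≤ x) (i : Fin t.p) :
    logDisc t (toReal (t.v i)) ≤ 1 := by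
  have := closure_nonneg hΓ (ht.boundary i)
  linarith

theorem IsLC.diag (ht : IsLC c Γ t) (x : Fin n ⊕ Fin r → ℝ) (s : ℝ) :
    logDisc t (x + s • toReal (diag n r)) = logDisc t x + s * ∑ y, t.psi (Sum.inr y) :=
  logDisc_diag (fun a ha => (ht.parts a ha).2.2) x s

theorem IsLC.col_pos (ht : IsLC c Γ t) {i : Fin t.p} {y : Fin r}
    (h : t.v i (Sum.inr y) ≠ 0) : 0 < t.v i (Sum.inr y) :=
  lt_of_le_of_ne ((ht.columns i).1 y) (Ne.symm h)

theorem IsLC.col_eq (ht : IsLC c Γ t) {i : Fin t.p} {y y' : Fin r}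
    (h : t.v i (Sum.inr y) ≠ 0) (h' : y' ≠ y) : t.v i (Sum.inr y') = 0 := by
  classical
  by_contra hcon
  have h1 := (ht.columns i).2
  rw [Finset.card_le_one] at h1
  exact h' (h1 y' (by simpa using hcon) y (by simpa using h))

theorem tp_diag (hc : c < r) (x : Fin n ⊕ Fin r → ℝ) (s : ℝ) :
    tp c (x + s • toReal (diag n r)) = tp c x + (c + 1) * s := by
  have key : ∀ (x : Fin n ⊕ Fin r → ℝ) (s : ℝ),
      tp c (x + s • toReal (diag n r)) ≤ tp c x + (c + 1) * s := by
    intro x s
    obtain ⟨Q, hQ, h⟩ := exists_tp hc (x + s • toReal (diag n r))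
    rw [h]
    have h1 := le_tp x hQ
    have h2 : ∑ y ∈ Q, (x + s • toReal (diag n r)) (Sum.inr y) =
        ∑ y ∈ Q, x (Sum.inr y) + (c + 1) * s := by
      simp only [Pi.add_apply, Pi.smul_apply, smul_eq_mul, toReal, ARR.diag, Sum.elim_inr,
        Int.cast_one, mul_one, Finset.sum_add_distrib, Finset.sum_const, hQ, nsmul_eq_mul]
      push_cast
      ring
    rw [h2]
    linarith
  apply le_antisymm (key x s)
  have h1 := key (x + s • toReal (ARR.diag n r)) (-s)
  have h2 : x + s • toReal (ARR.diag n r) + -s • toReal (ARR.diag n r) = x := by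
    rw [neg_smul]; abel
  rw [h2] at h1
  linarith

theorem sum_diag (x : Fin n ⊕ Fin r → ℝ) (s : ℝ) :
    ∑ y, (x + s • toReal (diag n r)) (Sum.inr y) = ∑ y, x (Sum.inr y) + r * s := by
  simp only [Pi.add_apply, Pi.smul_apply, smul_eq_mul, toReal, ARR.diag, Sum.elim_inr,
        Int.cast_one, mul_one, Finset.sum_add_distrib, Finset.sum_const, nsmul_eq_mul,
        Finset.card_univ, Fintype.card_fin]

theorem IsLC.bigDiag (ht : IsLC c Γ t) (hdeg : ∑ y, (1 - t.psi (Sum.inr y)) = c + 1)
    (x : Fin n ⊕ Fin r → ℝ) (s : ℝ) :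
    logDisc (big c t) (x + s • toReal (ARR.diag n r)) = logDisc (big c t) x := by
  rw [logDisc_big, logDisc_big, ht.diag, tp_diag ht.size, sum_diag]
  have h1 : ∑ y, (1 - t.psi (Sum.inr y)) = r - ∑ y, t.psi (Sum.inr y) := by
    rw [Finset.sum_sub_distrib]; simp
  rw [h1] at hdeg
  have : ∑ y, t.psi (Sum.inr y) = r - (c + 1) := by linarith
  rw [this]
  ring

theorem tp_trop (hc : c < r) {z : Fin n ⊕ Fin r → ℤ} (hz : Trop c z) :
    tp c (toReal z) = ∑ y, toReal z (Sum.inr y) := by
  apply le_antisymm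
  · obtain ⟨Q, hQ, h⟩ := exists_tp hc (toReal z)
    rw [h]
    apply Finset.sum_le_sum_of_subset_of_nonneg (Finset.subset_univ _)
    intro y _ _
    simp only [toReal]
    exact_mod_cast hz.1 y
  · obtain ⟨Q, hQ1, hQ2⟩ := Finset.exists_superset_card_eq
      (s := univ.filter fun y => z (Sum.inr y) ≠ 0) (n := c + 1) (hz.2.trans (Nat.le_succ c))
      (by simpa using hc)
    refine le_trans (le_of_eq ?_) (le_tp (toReal z) hQ2)
    symm
    apply Finset.sum_subset (Finset.subset_univ _)
    intro y _ hy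
    have : ¬ z (Sum.inr y) ≠ 0 := fun h => hy (hQ1 (by simpa using h))
    simp only [toReal]
    push Not at this
    rw [this]; simp

theorem big_trop (hc : c < r) {z : Fin n ⊕ Fin r → ℤ} (hz : Trop c z) :
    logDisc (big c t) (toReal z) = logDisc t (toReal z) := by
  rw [logDisc_big, tp_trop hc hz]
  ring

/-! ## the greedy step -/

theorem greedy (ht : IsLC c Γ t) (hΓ : ∀ x ∈ Γ, 0 ≤ x) (x : Fin n ⊕ Fin r → ℤ) {i : Fin t.p}
    {y0 : Fin r} (hi : t.v i (Sum.inr y0) ≠ 0) {Q : Finset (Fin r)} (hQ : Q.card = c + 1)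
    (hQx : ∀ y ∈ Q, x (Sum.inr y0) + 1 ≤ x (Sum.inr y)) :
    logDisc (big c t) (toReal (x + t.v i)) ≤ logDisc (big c t) (toReal x) := by
  classical
  rw [logDisc_big, logDisc_big, toReal_add]
  have h1 := logDisc_add (ht.nice hΓ) (toReal x) (toReal (t.v i))
  have h2 := ht.gen_le hΓ i
  have hμ := ht.col_pos hi
  set μ := t.v i (Sum.inr y0) with hμdef
  have hμ1 : (1 : ℝ) ≤ (μ : ℝ) := by exact_mod_cast hμ
  have hg : ∀ y, y ≠ y0 → toReal (t.v i) (Sum.inr y) = 0 := by
    intro y hy
    simp only [toReal]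
    rw [ht.col_eq hi hy]; simp
  have hg0 : toReal (t.v i) (Sum.inr y0) = μ := rfl
  have hsum : ∀ R : Finset (Fin r), y0 ∈ R → ∑ y ∈ R, toReal (t.v i) (Sum.inr y) = μ := by
    intro R hR
    rw [Finset.sum_eq_single y0 (fun y _ hy => hg y hy) (fun h => absurd hR h), hg0]
  have hsum0 : ∀ R : Finset (Fin r), y0 ∉ R → ∑ y ∈ R, toReal (t.v i) (Sum.inr y) = 0 := by
    intro R hR
    apply Finset.sum_eq_zero
    intro y hy
    exact hg y (fun h => hR (h ▸ hy))
  have h3 : ∑ y, (toReal x + toReal (t.v i)) (Sum.inr y) = ∑ y, toReal x (Sum.inr y) + μ := by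
    simp only [Pi.add_apply, Finset.sum_add_distrib]
    rw [hsum _ (Finset.mem_univ _)]
  have h4 : tp c (toReal x + toReal (t.v i)) ≤ tp c (toReal x) + μ - 1 := by
    obtain ⟨R, hR, h⟩ := exists_tp ht.size (toReal x + toReal (t.v i))
    rw [h]
    simp only [Pi.add_apply, Finset.sum_add_distrib]
    by_cases hy0 : y0 ∈ R
    · rw [hsum R hy0]
      -- exchange
      have hcard : (R.erase y0).card < Q.card := by
        rw [Finset.card_erase_of_mem hy0, hR, hQ]; omega
      obtain ⟨y1, hy1Q, hy1R⟩ := Finset.exists_mem_notMem_of_card_lt_card hcard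
      have hy10 : y1 ≠ y0 := by
        rintro rfl
        have := hQx y1 hy1Q
        omega
      have hy1R' : y1 ∉ R := fun h' => hy1R (Finset.mem_erase.2 ⟨hy10, h'⟩)
      have hR'card : (insert y1 (R.erase y0)).card = c + 1 := by
        rw [Finset.card_insert_of_notMem hy1R, Finset.card_erase_of_mem hy0, hR]
        omega
      have h5 := le_tp (toReal x) hR'card
      rw [Finset.sum_insert hy1R] at h5
      have h6 := Finset.add_sum_erase R (fun y => toReal x (Sum.inr y)) hy0
      have h7 : toReal x (Sum.inr y0) + 1 ≤ toReal x (Sum.inr y1) := by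
        simp only [toReal]
        exact_mod_cast hQx y1 hy1Q
      linarith
    · rw [hsum0 R hy0]
      have := le_tp (toReal x) hR
      linarith
  rw [h3]
  linarith

/-! ## selections -/

/-- a choice of a generator over each `y` -/
def Sel (t : GenPair (Fin n ⊕ Fin r)) (φ : Fin r → Fin t.p) : Prop :=
  ∀ y, t.v (φ y) (Sum.inr y) ≠ 0

theorem IsLC.exists_sel (ht : IsLC c Γ t) : ∃ φ, Sel t φ := by
  choose φ hφ using ht.onto
  exact ⟨φ, hφ⟩

/-- the product of the multiplicities -/
def NN (t : GenPair (Fin n ⊕ Fin r)) (φ : Fin r → Fin t.p) : ℤ := ∏ y, t.v (φ y) (Sum.inr y)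

/-- the product of the other multiplicities -/
def Ny (t : GenPair (Fin n ⊕ Fin r)) (φ : Fin r → Fin t.p) (y : Fin r) : ℤ :=
  ∏ y' ∈ univ.erase y, t.v (φ y') (Sum.inr y')

theorem Ny_mul (t : GenPair (Fin n ⊕ Fin r)) (φ : Fin r → Fin t.p) (y : Fin r) :
    Ny t φ y * t.v (φ y) (Sum.inr y) = NN t φ := by
  rw [Ny, NN, mul_comm, Finset.mul_prod_erase univ (fun y => t.v (φ y) (Sum.inr y))
    (Finset.mem_univ y)]

/-- `Σ N_y g_y` -/
def XX (t : GenPair (Fin n ⊕ Fin r)) (φ : Fin r → Fin t.p) : Fin n ⊕ Fin r → ℤ :=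
  ∑ y, Ny t φ y • t.v (φ y)

/-- the point of the degree polyhedron given by a selection, times the product of multiplicities -/
def X0 (t : GenPair (Fin n ⊕ Fin r)) (φ : Fin r → Fin t.p) : Fin n ⊕ Fin r → ℤ :=
  XX t φ - NN t φ • diag n r

variable {φ : Fin r → Fin t.p}

theorem NN_pos (ht : IsLC c Γ t) (hφ : Sel t φ) : 0 < NN t φ :=
  Finset.prod_pos fun y _ => ht.col_pos (hφ y)

theorem Ny_pos (ht : IsLC c Γ t) (hφ : Sel t φ) (y : Fin r) : 0 < Ny t φ y :=
  Finset.prod_pos fun y _ => ht.col_pos (hφ y)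

/-- add multiples of the selected generators -/
def addM (t : GenPair (Fin n ⊕ Fin r)) (φ : Fin r → Fin t.p) (z : Fin n ⊕ Fin r → ℤ)
    (m : Fin r → ℤ) : Fin n ⊕ Fin r → ℤ := z + ∑ y, m y • t.v (φ y)

theorem addM_inr (ht : IsLC c Γ t) (hφ : Sel t φ) (z : Fin n ⊕ Fin r → ℤ) (m : Fin r → ℤ)
    (y : Fin r) : addM t φ z m (Sum.inr y) = z (Sum.inr y) + m y * t.v (φ y) (Sum.inr y) := by
  simp only [addM, Pi.add_apply, Finset.sum_apply, Pi.smul_apply, smul_eq_mul]
  rw [Finset.sum_eq_single y]
  · intro y' _ hy'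
    rw [ht.col_eq (hφ y') (Ne.symm hy'), mul_zero]
  · intro h; exact absurd (Finset.mem_univ _) h

theorem XX_inr (ht : IsLC c Γ t) (hφ : Sel t φ) (y : Fin r) : XX t φ (Sum.inr y) = NN t φ := by
  have := addM_inr ht hφ 0 (Ny t φ) y
  simp only [addM, zero_add, Pi.zero_apply] at this
  rw [XX, this, Ny_mul]

theorem X0_inr (ht : IsLC c Γ t) (hφ : Sel t φ) (y : Fin r) : X0 t φ (Sum.inr y) = 0 := by
  rw [X0, Pi.sub_apply, XX_inr ht hφ]
  simp [diag]

theorem X0_trop (ht : IsLC c Γ t) (hφ : Sel t φ) : Trop c (X0 t φ) := by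
  refine ⟨fun y => (X0_inr ht hφ y).ge, ?_⟩
  rw [Finset.filter_false_of_mem (fun y _ => by simp [X0_inr ht hφ y])]
  simp

theorem toReal_X0 : toReal (X0 t φ) =
    toReal (XX t φ) + (-(NN t φ : ℝ)) • toReal (diag n r) := by
  rw [X0, toReal_sub, toReal_zsmul, neg_smul, sub_eq_add_neg]

/-! ## the retraction -/

theorem logDisc_zsmul_le {s : GenPair (Fin n ⊕ Fin r)} (k : ℤ) (g : Fin n ⊕ Fin r → ℤ) {K : ℝ}
    (hk : |(k : ℝ)| ≤ K) : logDisc s (toReal (k • g)) ≤
      K * (|logDisc s (toReal g)| + |logDisc s (toReal (-g))|) := by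
  have hM : 0 ≤ |logDisc s (toReal g)| + |logDisc s (toReal (-g))| := by positivity
  have h1 : logDisc s (toReal (k • g)) ≤
      |(k : ℝ)| * (|logDisc s (toReal g)| + |logDisc s (toReal (-g))|) := by
    rcases le_total 0 k with h | h
    · have h2 : (0 : ℝ) ≤ (k : ℝ) := by exact_mod_cast h
      rw [toReal_zsmul, logDisc_smul _ h2, abs_of_nonneg h2]
      apply mul_le_mul_of_nonneg_left _ h2
      linarith [le_abs_self (logDisc s (toReal g)), abs_nonneg (logDisc s (toReal (-g)))]
    · have h2 : (k : ℝ) ≤ 0 := by exact_mod_cast h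
      have h3 : k • g = (-k) • (-g) := by rw [smul_neg, neg_smul, neg_neg]
      rw [h3, toReal_zsmul, logDisc_smul _ (by push_cast; linarith), abs_of_nonpos h2]
      push_cast
      apply mul_le_mul_of_nonneg_left _ (by linarith)
      linarith [le_abs_self (logDisc s (toReal (-g))), abs_nonneg (logDisc s (toReal g))]
  exact h1.trans (mul_le_mul_of_nonneg_right hk hM)

theorem pia (ht : IsLC c Γ t) (hΓ : ∀ x ∈ Γ, 0 ≤ x)
    (hdeg : ∑ y, (1 - t.psi (Sum.inr y)) = c + 1) (hφ : Sel t φ)
    (hpos : 0 < logDisc t (toReal (X0 t φ))) (z : Fin n ⊕ Fin r → ℤ) :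
    ∃ (m : Fin r → ℕ) (s : ℤ),
      Trop c (addM t φ z (fun y => (m y : ℤ)) - s • diag n r) ∧
      logDisc t (toReal (addM t φ z (fun y => (m y : ℤ)) - s • diag n r)) ≤
        logDisc (big c t) (toReal z) := by
  classical
  have hnb := ht.niceBig hΓ
  set L := fun x : Fin n ⊕ Fin r → ℤ => logDisc (big c t) (toReal x) with hL
  set μ := fun y => t.v (φ y) (Sum.inr y) with hμ
  have hμp : ∀ y, 0 < μ y := fun y => ht.col_pos (hφ y)
  have hr : 0 < r := lt_of_le_of_lt (Nat.zero_le _) ht.size
  let y0 : Fin r := ⟨0, hr⟩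
  -- the value at XX
  have hX : 0 < L (XX t φ) := by
    have h1 := big_trop (t := t) ht.size (X0_trop ht hφ)
    rw [toReal_X0, ht.bigDiag hdeg, ← toReal_X0] at h1
    simp only [hL]
    rw [h1]; exact hpos
  -- bound for differences and multiplicities
  obtain ⟨D, hD1, hD2⟩ : ∃ D : ℤ, (∀ y y', z (Sum.inr y) - z (Sum.inr y') ≤ D) ∧ ∀ y, μ y ≤ D := by
    refine ⟨∑ y, ∑ y', |z (Sum.inr y) - z (Sum.inr y')| + ∑ y, μ y, ?_, ?_⟩
    · intro y y'
      have h1 : z (Sum.inr y) - z (Sum.inr y') ≤ |z (Sum.inr y) - z (Sum.inr y')| := le_abs_self _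
      have h2 : |z (Sum.inr y) - z (Sum.inr y')| ≤ ∑ y', |z (Sum.inr y) - z (Sum.inr y')| :=
        Finset.single_le_sum (f := fun y' => |z (Sum.inr y) - z (Sum.inr y')|)
          (fun _ _ => abs_nonneg _) (Finset.mem_univ y')
      have h3 : ∑ y', |z (Sum.inr y) - z (Sum.inr y')| ≤
          ∑ y, ∑ y', |z (Sum.inr y) - z (Sum.inr y')| :=
        Finset.single_le_sum (f := fun y => ∑ y', |z (Sum.inr y) - z (Sum.inr y')|)
          (fun _ _ => Finset.sum_nonneg fun _ _ => abs_nonneg _) (Finset.mem_univ y)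
      have h4 : 0 ≤ ∑ y, μ y := Finset.sum_nonneg fun y _ => (hμp y).le
      linarith
    · intro y
      have h3 : μ y ≤ ∑ y, μ y :=
        Finset.single_le_sum (f := μ) (fun y _ => (hμp y).le) (Finset.mem_univ y)
      have h4 : 0 ≤ ∑ y, ∑ y', |z (Sum.inr y) - z (Sum.inr y')| :=
        Finset.sum_nonneg fun _ _ => Finset.sum_nonneg fun _ _ => abs_nonneg _
      linarith
  -- the set of admissible moves
  set xm := fun m : Fin r → ℕ => addM t φ z (fun y => (m y : ℤ)) with hxm
  have hxmy : ∀ m y, xm m (Sum.inr y) = z (Sum.inr y) + m y * μ y :=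
    fun m y => addM_inr ht hφ z _ y
  set SS : (Fin r → ℕ) → Prop := fun m =>
    (∀ y y', xm m (Sum.inr y) - xm m (Sum.inr y') ≤ D) ∧ L (xm m) ≤ L z with hSS
  -- coercivity
  obtain ⟨B, hB⟩ : ∃ B : ℕ, ∀ m, SS m → ∑ y, m y ≤ B := by
    set N := NN t φ with hN
    have hNp : 0 < N := NN_pos ht hφ
    set K : Fin r → ℝ := fun y => ((N + D + |z (Sum.inr y)| : ℤ) : ℝ) with hK
    set M : Fin r → ℝ := fun y => |logDisc (big c t) (toReal (t.v (φ y)))| +
      |logDisc (big c t) (toReal (-(t.v (φ y))))| with hM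
    set C0 : ℝ := L z + (∑ y, K y * M y + L (-z)) with hC0
    obtain ⟨q0, hq0⟩ := exists_nat_ge (C0 / L (XX t φ))
    have hmain : ∀ m, SS m → xm m (Sum.inr y0) / N ≤ q0 := by
      intro m hm
      set q := xm m (Sum.inr y0) / N with hq
      by_contra hcon
      push Not at hcon
      have hqpos : 0 < q := lt_of_le_of_lt (by positivity) hcon
      have hqr : (0 : ℝ) < q := by exact_mod_cast hqpos
      have e1 : q • XX t φ = xm m + ((∑ y, (q * Ny t φ y - m y) • t.v (φ y)) - z) := by
        simp only [hxm, addM, XX, Finset.smul_sum, smul_smul, sub_smul, Finset.sum_sub_distrib]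
        abel
      have e2 : L (q • XX t φ) ≤ L (xm m) +
          L ((∑ y, (q * Ny t φ y - m y) • t.v (φ y)) - z) := by
        rw [e1]
        simp only [hL]
        rw [toReal_add]
        exact logDisc_add hnb _ _
      have e3 : L (q • XX t φ) = q * L (XX t φ) := by
        simp only [hL]
        rw [toReal_zsmul, logDisc_smul _ hqr.le]
      have e4 : L ((∑ y, (q * Ny t φ y - m y) • t.v (φ y)) - z) ≤ ∑ y, K y * M y + L (-z) := by
        simp only [hL]
        rw [sub_eq_add_neg, toReal_add]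
        refine (logDisc_add hnb _ _).trans (add_le_add ?_ le_rfl)
        rw [toReal_sum]
        refine (logDisc_sum hnb _ _).trans (Finset.sum_le_sum fun y _ => ?_)
        apply logDisc_zsmul_le
        have h1 : |q * Ny t φ y - m y| ≤ N + D + |z (Sum.inr y)| := by
          have h2 : (q * Ny t φ y - m y) * μ y =
              (q * N - xm m (Sum.inr y0)) + (xm m (Sum.inr y0) - xm m (Sum.inr y))
                + z (Sum.inr y) := by
            rw [sub_mul, mul_assoc, hμ]
            simp only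
            rw [Ny_mul, hxmy m y]
            ring
          have h3 : |q * N - xm m (Sum.inr y0)| ≤ N := by
            have h4 := Int.emod_add_mul_ediv (xm m (Sum.inr y0)) N
            have h5 := Int.emod_nonneg (xm m (Sum.inr y0)) hNp.ne'
            have h6 := Int.emod_lt_of_pos (xm m (Sum.inr y0)) hNp
            rw [abs_le]
            rw [← hq] at h4
            constructor <;> nlinarith
          have h7 : |xm m (Sum.inr y0) - xm m (Sum.inr y)| ≤ D := by
            rw [abs_le]
            have := hm.1 y0 y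
            have := hm.1 y y0
            constructor <;> linarith
          have h8 : |(q * Ny t φ y - m y) * μ y| ≤ N + D + |z (Sum.inr y)| := by
            rw [h2]
            refine (abs_add_le _ _).trans (add_le_add ((abs_add_le _ _).trans
              (add_le_add h3 h7)) le_rfl)
          rw [abs_mul, abs_of_pos (hμp y)] at h8
          have h9 : |q * Ny t φ y - m y| * 1 ≤ |q * Ny t φ y - m y| * μ y :=
            mul_le_mul_of_nonneg_left (hμp y) (abs_nonneg _)
          linarith
        have h10 : ((|q * Ny t φ y - m y| : ℤ) : ℝ) ≤ ((N + D + |z (Sum.inr y)| : ℤ) : ℝ) := by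
          exact_mod_cast h1
        rw [Int.cast_abs] at h10
        exact h10
      have e5 : (q : ℝ) * L (XX t φ) ≤ C0 := by
        rw [← e3]
        have := hm.2
        linarith
      have e6 : (q : ℝ) ≤ C0 / L (XX t φ) := by rwa [le_div_iff₀ hX]
      have e7 : (q : ℝ) ≤ q0 := e6.trans hq0
      have e8 : q ≤ q0 := by exact_mod_cast e7
      omega
    set TB : ℤ := (q0 + 1) * N with hTB
    refine ⟨(∑ y, (TB + D + |z (Sum.inr y)|)).toNat, fun m hm => ?_⟩
    have h1 : ∀ y, (m y : ℤ) ≤ TB + D + |z (Sum.inr y)| := by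
      intro y
      have h2 := hmain m hm
      have h3 : xm m (Sum.inr y0) ≤ TB := by
        have h4 := Int.emod_add_mul_ediv (xm m (Sum.inr y0)) N
        have h6 := Int.emod_lt_of_pos (xm m (Sum.inr y0)) hNp
        rw [hTB]
        nlinarith
      have h5 := hm.1 y y0
      have h6 := hxmy m y
      have h7 : (m y : ℤ) * 1 ≤ m y * μ y := mul_le_mul_of_nonneg_left (hμp y) (by positivity)
      have h8 := neg_abs_le (z (Sum.inr y))
      linarith
    have h2 : ((∑ y, m y : ℕ) : ℤ) ≤ ∑ y, (TB + D + |z (Sum.inr y)|) := by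
      push_cast
      exact Finset.sum_le_sum fun y _ => h1 y
    omega
  -- a maximal admissible move
  have hS0 : SS 0 := by
    have h0 : xm 0 = z := by simp [hxm, addM]
    refine ⟨?_, ?_⟩
    · rw [h0]; exact hD1
    · rw [h0]
  obtain ⟨m, hm, hmax⟩ : ∃ m, SS m ∧ ∀ m', SS m' → ∑ y, m' y ≤ ∑ y, m y := by
    set P := (range (B + 1)).filter fun k => ∃ m, SS m ∧ ∑ y, m y = k with hP
    have hPne : P.Nonempty := ⟨0, by
      rw [hP, Finset.mem_filter]
      exact ⟨by simp, 0, hS0, by simp⟩⟩
    obtain ⟨k, hk, hkmax⟩ := P.exists_max_image id hPne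
    rw [hP, Finset.mem_filter] at hk
    obtain ⟨_, m, hm, hmk⟩ := hk
    refine ⟨m, hm, fun m' hm' => ?_⟩
    rw [hmk]
    apply hkmax
    rw [hP, Finset.mem_filter]
    exact ⟨by rw [Finset.mem_range]; exact Nat.lt_succ_of_le (hB m' hm'), m', hm', rfl⟩
  -- the smallest coordinate
  have : Nonempty (Fin r) := ⟨y0⟩
  obtain ⟨ym, hym⟩ := Finite.exists_min (fun y => xm m (Sum.inr y))
  refine ⟨m, xm m (Sum.inr ym), ?_⟩
  have hcoord : ∀ y, (xm m - xm m (Sum.inr ym) • diag n r) (Sum.inr y) =
      xm m (Sum.inr y) - xm m (Sum.inr ym) := by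
    intro y; simp [diag]
  have htrop : Trop c (xm m - xm m (Sum.inr ym) • diag n r) := by
    refine ⟨fun y => ?_, ?_⟩
    · rw [hcoord]; linarith [hym y]
    · by_contra hcon
      push Not at hcon
      obtain ⟨Q, hQ1, hQ2⟩ := Finset.exists_subset_card_eq (Nat.succ_le_of_lt hcon)
      -- the greedy step contradicts maximality
      have hstep := greedy ht hΓ (xm m) (hφ ym) hQ2 (by
        intro y hy
        have h1 := (Finset.mem_filter.1 (hQ1 hy)).2
        rw [hcoord] at h1
        have h2 := hym y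
        omega)
      set m' : Fin r → ℕ := fun y => m y + if y = ym then 1 else 0 with hm'
      have e1 : xm m' = xm m + t.v (φ ym) := by
        simp only [hxm, addM, hm']
        rw [add_assoc]
        congr 1
        push_cast
        simp only [add_smul, Finset.sum_add_distrib]
        congr 1
        rw [Finset.sum_eq_single ym]
        · simp
        · intro y _ hy; simp [hy]
        · intro h; exact absurd (Finset.mem_univ _) h
      have hm'S : SS m' := by
        refine ⟨?_, ?_⟩
        · intro y y'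
          have h0 := hm.1 y y'
          rw [hxmy, hxmy] at h0 ⊢
          have hy1 := hym y
          have hy2 := hym y'
          rw [hxmy, hxmy] at hy1 hy2
          simp only [hm']
          by_cases h1 : y = ym <;> by_cases h2 : y' = ym
          · rw [h1, h2]
            have := hD2 ym
            have := hμp ym
            linarith
          · rw [if_pos h1, if_neg h2]
            rw [h1] at h0 hy1 ⊢
            have := hD2 ym
            push_cast
            linarith
          · rw [if_neg h1, if_pos h2]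
            rw [h2] at h0 hy2 ⊢
            have := hμp ym
            push_cast
            linarith
          · rw [if_neg h1, if_neg h2]
            push_cast
            linarith
        · rw [e1]
          exact hstep.trans hm.2
      have := hmax m' hm'S
      have h5 : ∑ y, m' y = ∑ y, m y + 1 := by
        simp only [hm', Finset.sum_add_distrib]
        simp
      omega
  refine ⟨htrop, ?_⟩
  rw [← big_trop ht.size htrop]
  have e : toReal (xm m - xm m (Sum.inr ym) • diag n r) =
      toReal (xm m) + (-(xm m (Sum.inr ym) : ℝ)) • toReal (diag n r) := by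
    rw [toReal_sub, toReal_zsmul, neg_smul, sub_eq_add_neg]
  rw [e, ht.bigDiag hdeg]
  exact hm.2

end Pool.Agent.helper22.ARR
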