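import Pool.Agent.helper22.ARR.Pia

/-!
# Reduction to toric pairs of bounded dimension: general part
-/

noncomputable section

namespace Pool.Agent.helper22.ARR

open Finset

/-! ## Minkowski sums -/

theorem mink {V κ Y : Type*} [AddCommGroup V] [Module ℝ V] [Fintype κ] [DecidableEq Y]
    (ψ₀ : Y → κ) (S : Finset Y) : ∀ (K : Set V), Convex ℝ K → ∀ (w : Y → κ → ℝ) (a : Y → κ → V),
    (∀ y ∈ S, (∀ i, 0 ≤ w y i) ∧ ∑ i, w y i = 1) →
    (∀ ψ : Y → κ, (∀ y ∈ S, 0 < w y (ψ y)) → ∑ y ∈ S, a y (ψ y) ∈ K) →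
    ∑ y ∈ S, ∑ i, w y i • a y i ∈ K := by
  classical
  induction S using Finset.induction_on with
  | empty =>
    intro K _ w a _ h
    simpa using h ψ₀ (by simp)
  | insert y0 S hy0 ih =>
    intro K hK w a hw h
    rw [Finset.sum_insert hy0]
    set R := ∑ y ∈ S, ∑ i, w y i • a y i with hR
    have h1 : ∀ i, 0 < w y0 i → a y0 i + R ∈ K := by
      intro i hi
      have hKi : Convex ℝ {v | a y0 i + v ∈ K} := by
        intro x hx y hy s t hs ht hst
        have := hK hx hy hs ht hst
        simp only [Set.mem_ofPred_eq]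
        convert this using 1
        rw [smul_add, smul_add, add_add_add_comm, ← add_smul, hst, one_smul]
      refine ih _ hKi w a (fun y hy => hw y (Finset.mem_insert_of_mem hy)) ?_
      intro ψ hψ
      have h2 := h (Function.update ψ y0 i) (by
        intro y hy
        by_cases hyy : y = y0
        · subst hyy; simpa using hi
        · rw [Function.update_of_ne hyy]
          exact hψ y ((Finset.mem_insert.1 hy).resolve_left hyy))
      rw [Finset.sum_insert hy0, Function.update_self] at h2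
      have h3 : ∑ y ∈ S, a y (Function.update ψ y0 i y) = ∑ y ∈ S, a y (ψ y) := by
        refine Finset.sum_congr rfl fun y hy => ?_
        rw [Function.update_of_ne (fun h' : y = y0 => hy0 (h' ▸ hy))]
      rw [h3] at h2
      exact h2
    obtain ⟨hw1, hw2⟩ := hw y0 (Finset.mem_insert_self _ _)
    have h2 : ∑ i ∈ univ.filter (fun i => 0 < w y0 i), w y0 i = 1 := by
      rw [← hw2]
      apply Finset.sum_subset (Finset.subset_univ _)
      intro i _ hi
      have : ¬ 0 < w y0 i := fun h => hi (by simpa using h)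
      linarith [hw1 i]
    have h3 := hK.sum_mem (t := univ.filter (fun i => 0 < w y0 i)) (w := w y0)
      (z := fun i => a y0 i + R) (fun i _ => hw1 i) h2
      (fun i hi => h1 i (by simpa using hi))
    have h4 : ∑ i ∈ univ.filter (fun i => 0 < w y0 i), w y0 i • (a y0 i + R) =
        ∑ i, w y0 i • a y0 i + R := by
      simp only [smul_add, Finset.sum_add_distrib, ← Finset.sum_smul, h2, one_smul]
      congr 1
      apply Finset.sum_subset (Finset.subset_univ _)
      intro i _ hi
      have : ¬ 0 < w y0 i := fun h => hi (by simpa using h)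
      have h0 : w y0 i = 0 := by linarith [hw1 i]
      rw [h0, zero_smul]
    rw [h4] at h3
    exact h3

/-! ## the cone with its lineality space -/

variable {n r c : ℕ} {Γ : Set ℝ} {t : GenPair (Fin n ⊕ Fin r)}

/-- generators of the big cone -/
def ext (t : GenPair (Fin n ⊕ Fin r)) : Fin t.p ⊕ Bool → (Fin n ⊕ Fin r) → ℤ :=
  Sum.elim t.v (fun b => if b then diag n r else - diag n r)

theorem bigCone_eq (t : GenPair (Fin n ⊕ Fin r)) : bigCone t = coneOf (ext t) := by
  ext x
  constructor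
  · rintro ⟨μ, s, hμ, h⟩
    refine ⟨Sum.elim μ (fun b => if b then max s 0 else max (-s) 0), ?_, ?_⟩
    · rintro (i | b)
      · exact hμ i
      · simp only [Sum.elim_inr]; split_ifs <;> exact le_max_right _ _
    · intro j
      rw [h j]
      simp only [Fintype.sum_sum_type, ext, Sum.elim_inl, Sum.elim_inr, Fintype.sum_bool, if_true,
        Bool.false_eq_true, if_false, Pi.neg_apply, Int.cast_neg]
      congr 1
      have : s = max s 0 - max (-s) 0 := by
        rcases le_total s 0 with h | h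
        · rw [max_eq_right h, max_eq_left (by linarith)]; ring
        · rw [max_eq_left h, max_eq_right (by linarith)]; ring
      nth_rewrite 1 [this]
      ring
  · rintro ⟨μ, hμ, h⟩
    refine ⟨fun i => μ (Sum.inl i), μ (Sum.inr true) - μ (Sum.inr false), fun i => hμ _, ?_⟩
    intro j
    rw [h j]
    simp only [Fintype.sum_sum_type, ext, Sum.elim_inl, Sum.elim_inr, Fintype.sum_bool, if_true,
        Bool.false_eq_true, if_false, Pi.neg_apply, Int.cast_neg]
    ring

theorem ext_diag (s : ℝ) : s • toReal (diag n r) ∈ coneOf (ext t) := by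
  rw [← bigCone_eq]
  exact ⟨fun _ => 0, s, fun _ => le_rfl, fun j => by simp [toReal]⟩

theorem ext_gen (i : Fin t.p) : toReal (t.v i) ∈ coneOf (ext t) := coneOf_gen (ext t) (Sum.inl i)

theorem rint_ext {x : Fin n ⊕ Fin r → ℝ} (h1 : x ∈ coneOf (ext t))
    (h2 : ∀ i : Fin t.p, ∃ ε > 0, x - (ε : ℝ) • toReal (t.v i) ∈ coneOf (ext t)) :
    x ∈ rint (ext t) := by
  refine ⟨h1, ?_⟩
  rintro (i | b)
  · exact h2 i
  · refine ⟨1, one_pos, ?_⟩
    rw [one_smul]
    cases b
    · have : toReal (ext t (Sum.inr false)) = -toReal (diag n r) := by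
        simp [ext, toReal_neg]
      rw [this, sub_neg_eq_add]
      have := ext_diag (t := t) 1
      rw [one_smul] at this
      exact coneOf_add _ h1 this
    · have : toReal (ext t (Sum.inr true)) = toReal (diag n r) := by
        simp [ext]
      rw [this, sub_eq_add_neg]
      have := ext_diag (t := t) (-1)
      rw [neg_smul, one_smul] at this
      exact coneOf_add _ h1 this

/-! ## pulling back -/

variable {ι ι' : Type} [Fintype ι] [Fintype ι']

/-- the linear map with matrix `A` -/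
def lin (A : ι → ι' → ℤ) (x : ι' → ℝ) : ι → ℝ := fun j => ∑ k, (A j k : ℝ) * x k

/-- the linear map with matrix `A`, on integral vectors -/
def linZ (A : ι → ι' → ℤ) (x : ι' → ℤ) : ι → ℤ := fun j => ∑ k, A j k * x k

omit [Fintype ι] in
theorem lin_toReal (A : ι → ι' → ℤ) (x : ι' → ℤ) : lin A (toReal x) = toReal (linZ A x) := by
  funext j
  simp only [lin, toReal, linZ]
  push_cast
  rfl

omit [Fintype ι] in
theorem lin_add (A : ι → ι' → ℤ) (x y : ι' → ℝ) : lin A (x + y) = lin A x + lin A y := by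
  funext j
  simp only [lin, Pi.add_apply, mul_add, Finset.sum_add_distrib]

omit [Fintype ι] in
theorem lin_smul (A : ι → ι' → ℤ) (s : ℝ) (x : ι' → ℝ) : lin A (s • x) = s • lin A x := by
  funext j
  simp only [lin, Pi.smul_apply, smul_eq_mul, Finset.mul_sum]
  exact Finset.sum_congr rfl fun k _ => by ring

omit [Fintype ι] in
theorem lin_sub (A : ι → ι' → ℤ) (x y : ι' → ℝ) : lin A (x - y) = lin A x - lin A y := by
  funext j
  simp only [lin, Pi.sub_apply, mul_sub, Finset.sum_sub_distrib]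

omit [Fintype ι] in
theorem lin_sum (A : ι → ι' → ℤ) {α : Type*} (s : Finset α) (f : α → ι' → ℝ) :
    lin A (∑ a ∈ s, f a) = ∑ a ∈ s, lin A (f a) := by
  classical
  induction s using Finset.induction_on with
  | empty => funext j; simp [lin]
  | insert a s ha ih => rw [Finset.sum_insert ha, Finset.sum_insert ha, lin_add, ih]

/-- the transpose on characters -/
def push (A : ι → ι' → ℤ) (m : ι → ℤ) : ι' → ℤ := fun k => ∑ j, m j * A j k

theorem pair_push (A : ι → ι' → ℤ) (m : ι → ℤ) (x : ι' → ℝ) :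
    pair (push A m) x = pair m (lin A x) := by
  simp only [pair, push, lin, Finset.mul_sum]
  push_cast
  simp only [Finset.sum_mul]
  rw [Finset.sum_comm]
  exact Finset.sum_congr rfl fun j _ => Finset.sum_congr rfl fun k _ => by ring

/-- the pair on the smaller lattice -/
def pull (A : ι → ι' → ℤ) (t : GenPair ι) (p' : ℕ) (v' : Fin p' → ι' → ℤ) : GenPair ι' := by
  classical
  exact
  { p := p'
    v := v'
    psi := fun k => ∑ j, t.psi j * (A j k : ℝ)
    parts := t.parts.map fun a => (a.1, a.2.image (push A)) }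

theorem logDisc_pull (A : ι → ι' → ℤ) (t : GenPair ι) (p' : ℕ) (v' : Fin p' → ι' → ℤ)
    (x : ι' → ℝ) : logDisc (pull A t p' v') x = logDisc t (lin A x) := by
  classical
  simp only [logDisc, pull, List.map_map]
  congr 1
  · simp only [lin, Finset.mul_sum, Finset.sum_mul]
    rw [Finset.sum_comm]
    exact Finset.sum_congr rfl fun j _ => Finset.sum_congr rfl fun k _ => by ring
  · congr 1
    refine List.map_congr_left fun a _ => ?_
    simp only [Function.comp_apply]
    congr 1
    rw [low, low, Finset.coe_image, Set.image_image]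
    congr 1
    exact Set.image_congr fun m _ => pair_push A m x

/-! ## reindexing -/

omit [Fintype ι] in
theorem coneOf_equiv {κ κ' : Type*} [Fintype κ] [Fintype κ'] (e : κ' ≃ κ) (v : κ → ι → ℤ) :
    coneOf (fun i => v (e i)) = coneOf v := by
  ext x
  constructor
  · rintro ⟨μ, hμ, h⟩
    refine ⟨fun i => μ (e.symm i), fun i => hμ _, fun j => ?_⟩
    rw [h j, ← Equiv.sum_comp e]
    simp
  · rintro ⟨μ, hμ, h⟩
    refine ⟨fun i => μ (e i), fun i => hμ _, fun j => ?_⟩
    rw [h j, ← Equiv.sum_comp e]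

omit [Fintype ι] in
theorem rint_equiv {κ κ' : Type*} [Fintype κ] [Fintype κ'] (e : κ' ≃ κ) (v : κ → ι → ℤ) :
    rint (fun i => v (e i)) = rint v := by
  ext x
  simp only [rint, coneOf_equiv, Set.mem_ofPred_eq]
  constructor
  · rintro ⟨h1, h2⟩
    refine ⟨h1, fun i => ?_⟩
    have := h2 (e.symm i)
    rwa [Equiv.apply_symm_apply] at this
  · rintro ⟨h1, h2⟩
    exact ⟨h1, fun i => h2 (e i)⟩

/-! ## the abstract reduction -/

theorem mem_mld_set_nonneg (ht : IsLC c Γ t) :
    ∀ x ∈ {x | ∃ z, Trop c z ∧ toReal z ∈ interior (bigCone t) ∧ x = logDisc t (toReal z)},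
      (0 : ℝ) ≤ x := by
  rintro _ ⟨z, h1, h2, rfl⟩
  exact ht.lc z h1 (interior_subset h2)

theorem mld_le (ht : IsLC c Γ t) {z : Fin n ⊕ Fin r → ℤ} (h1 : Trop c z)
    (h2 : toReal z ∈ interior (bigCone t)) : mld c t ≤ logDisc t (toReal z) :=
  csInf_le ⟨0, fun _ hx => mem_mld_set_nonneg ht _ hx⟩ ⟨z, h1, h2, rfl⟩

theorem red_abstract {κ : Type} [Fintype κ] (ht : IsLC c Γ t) {Γ' : Set ℝ} {C x : ℝ}
    (t₀ : GenPair (Fin n ⊕ Fin r)) (A : Fin n ⊕ Fin r → ι' → ℤ) (g : κ → ι' → ℤ)
    (H1 : ∀ i, C - logDisc t₀ (lin A (toReal (g i))) ∈ AddSubmonoid.closure Γ')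
    (H2 : ∀ a ∈ t₀.parts, a.1 ∈ Γ' ∧ a.2.Nonempty)
    (H3 : ∀ i, lin A (toReal (g i)) ∈ coneOf (ext t))
    (H4 : ∀ j : Fin t.p, ∃ i : κ, ∃ δ > 0,
      lin A (toReal (g i)) - (δ : ℝ) • toReal (t.v j) ∈ coneOf (ext t))
    (H5 : ∀ z : ι' → ℤ, toReal z ∈ coneOf g → ∃ z', Trop c z' ∧
      logDisc t (toReal z') ≤ logDisc t₀ (lin A (toReal z)) ∧
      (lin A (toReal z) ∈ coneOf (ext t) → toReal z' ∈ coneOf (ext t)) ∧
      (lin A (toReal z) ∈ rint (ext t) → toReal z' ∈ rint (ext t)))
    (z₀ : ι' → ℤ) (H6 : toReal z₀ ∈ rint g) (H7 : logDisc t₀ (lin A (toReal z₀)) < x) :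
    ∃ t' : GenPair ι', LC2 Γ' C t' ∧ mld c t ≤ rmld t' ∧ rmld t' < x := by
  classical
  set e := (Fintype.equivFin κ).symm with he
  set t' := pull A t₀ (Fintype.card κ) (fun i => g (e i)) with ht'
  have hcone : coneOf t'.v = coneOf g := coneOf_equiv e g
  have hrint : rint t'.v = rint g := rint_equiv e g
  have hlog : ∀ x, logDisc t' x = logDisc t₀ (lin A x) := fun x => logDisc_pull _ _ _ _ _
  have hmap : ∀ x ∈ coneOf g, lin A x ∈ coneOf (ext t) := by
    rintro x ⟨μ, hμ, h⟩
    have : x = ∑ i, μ i • toReal (g i) := by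
      funext j
      rw [h j]
      simp only [Finset.sum_apply, Pi.smul_apply, smul_eq_mul, toReal]
    rw [this, lin_sum]
    refine coneOf_sum _ _ _ fun i _ => ?_
    rw [lin_smul]
    exact coneOf_smul _ (H3 i) (hμ i)
  have hmapr : ∀ x ∈ rint g, lin A x ∈ rint (ext t) := by
    intro x hx
    refine rint_ext (hmap x hx.1) fun j => ?_
    obtain ⟨i, δ, hδ, hi⟩ := H4 j
    obtain ⟨ε, hε, hx2⟩ := hx.2 i
    refine ⟨ε * δ, mul_pos hε hδ, ?_⟩
    have h1 := hmap _ hx2
    rw [lin_sub, lin_smul] at h1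
    have : lin A x - (ε * δ) • toReal (t.v j) = (lin A x - ε • lin A (toReal (g i))) +
        ε • (lin A (toReal (g i)) - δ • toReal (t.v j)) := by
      rw [smul_sub, smul_smul]; abel
    rw [this]
    exact coneOf_add _ h1 (coneOf_smul _ hi hε.le)
  have hLC : LC2 Γ' C t' := by
    refine ⟨?_, ?_, ?_⟩
    · intro i
      rw [hlog]
      exact H1 (e i)
    · intro a ha
      obtain ⟨b, hb, rfl⟩ := List.mem_map.1 ha
      exact ⟨(H2 b hb).1, (H2 b hb).2.image _⟩
    · intro z hz
      rw [hcone] at hz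
      obtain ⟨z', hz1, hz2, hz3, _⟩ := H5 z hz
      rw [hlog]
      refine le_trans (ht.lc z' hz1 ?_) hz2
      rw [bigCone_eq]
      exact hz3 (hmap _ hz)
  refine ⟨t', hLC, ?_, ?_⟩
  · apply le_csInf
    · obtain ⟨z, hz⟩ := rint_int_nonempty t'
      exact ⟨_, z, hz, rfl⟩
    · rintro _ ⟨z, hz, rfl⟩
      rw [hrint] at hz
      obtain ⟨z', hz1, hz2, _, hz4⟩ := H5 z hz.1
      rw [hlog]
      refine le_trans (mld_le ht hz1 ?_) hz2
      have hfull := ht.full
      rw [bigCone_eq] at hfull ⊢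
      exact interior_of_rint _ hfull (hz4 (hmapr _ hz))
  · refine lt_of_le_of_lt (rmld_le hLC (z := z₀) ?_) ?_
    · rw [hrint]; exact H6
    · rw [hlog]; exact H7

end Pool.Agent.helper22.ARR
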