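import Pool.Agent.helper22.ARR.Defs

/-!
# Sublinearity of log discrepancies
-/

noncomputable section

namespace Pool.Agent.helper22.ARR

open Finset
open scoped Pointwise

variable {ι : Type} [Fintype ι]

theorem pair_add (m : ι → ℤ) (a b : ι → ℝ) : pair m (a + b) = pair m a + pair m b := by
  simp only [pair, Pi.add_apply, mul_add, Finset.sum_add_distrib]

theorem pair_smul (m : ι → ℤ) (t : ℝ) (a : ι → ℝ) : pair m (t • a) = t * pair m a := by
  simp only [pair, Pi.smul_apply, smul_eq_mul, Finset.mul_sum]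
  exact Finset.sum_congr rfl fun i _ => by ring

theorem low_le {S : Finset (ι → ℤ)} {m : ι → ℤ} (hm : m ∈ S) (w : ι → ℝ) : low S w ≤ pair m w := by
  apply csInf_le
  · exact (S.finite_toSet.image _).bddBelow
  · exact ⟨m, hm, rfl⟩

theorem le_low {S : Finset (ι → ℤ)} (hS : S.Nonempty) {w : ι → ℝ} {x : ℝ}
    (h : ∀ m ∈ S, x ≤ pair m w) : x ≤ low S w := by
  apply le_csInf (Set.Nonempty.image _ (by exact_mod_cast hS))
  rintro _ ⟨m, hm, rfl⟩
  exact h m hm

theorem exists_low {S : Finset (ι → ℤ)} (hS : S.Nonempty) (w : ι → ℝ) :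
    ∃ m ∈ S, low S w = pair m w := by
  obtain ⟨m, hm, hmin⟩ := S.exists_min_image (fun m => pair m w) hS
  exact ⟨m, hm, le_antisymm (low_le hm w) (le_low hS hmin)⟩

theorem low_add {S : Finset (ι → ℤ)} (hS : S.Nonempty) (a b : ι → ℝ) :
    low S a + low S b ≤ low S (a + b) := by
  apply le_low hS
  intro m hm
  rw [pair_add]
  exact add_le_add (low_le hm a) (low_le hm b)

theorem low_smul (S : Finset (ι → ℤ)) {t : ℝ} (ht : 0 ≤ t) (a : ι → ℝ) :
    low S (t • a) = t * low S a := by
  have h1 : ((fun m => pair m (t • a)) '' (S : Set (ι → ℤ))) =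
      t • ((fun m => pair m a) '' (S : Set (ι → ℤ))) := by
    rw [← Set.image_smul, Set.image_image]
    refine Set.image_congr fun m _ => ?_
    rw [pair_smul, smul_eq_mul]
  rw [low, h1, Real.sInf_smul_of_nonneg ht, smul_eq_mul, low]

/-- coefficients are nonnegative and sets of characters are nonempty -/
def Nice (t : GenPair ι) : Prop := ∀ a ∈ t.parts, 0 ≤ a.1 ∧ a.2.Nonempty

theorem logDisc_add {t : GenPair ι} (ht : Nice t) (a b : ι → ℝ) :
    logDisc t (a + b) ≤ logDisc t a + logDisc t b := by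
  have h1 : (t.parts.map fun x => x.1 * low x.2 a).sum + (t.parts.map fun x => x.1 * low x.2 b).sum
      ≤ (t.parts.map fun x => x.1 * low x.2 (a + b)).sum := by
    rw [← List.sum_map_add]
    apply List.sum_le_sum
    intro x hx
    have := mul_le_mul_of_nonneg_left (low_add (ht x hx).2 a b) (ht x hx).1
    rw [mul_add] at this
    exact this
  simp only [logDisc, Pi.add_apply, mul_add, Finset.sum_add_distrib]
  linarith

theorem logDisc_smul (t : GenPair ι) {s : ℝ} (hs : 0 ≤ s) (a : ι → ℝ) :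
    logDisc t (s • a) = s * logDisc t a := by
  simp only [logDisc, low_smul _ hs, Pi.smul_apply, smul_eq_mul, mul_sub, Finset.mul_sum]
  congr 1
  · exact Finset.sum_congr rfl fun i _ => by ring
  · rw [← List.sum_map_mul_left]
    congr 1
    exact List.map_congr_left fun a _ => by ring

theorem logDisc_zero (t : GenPair ι) : logDisc t 0 = 0 := by
  have := logDisc_smul t le_rfl (0 : ι → ℝ)
  rwa [zero_smul, zero_mul] at this

theorem logDisc_sum {t : GenPair ι} (ht : Nice t) {α : Type*} (s : Finset α) (f : α → ι → ℝ) :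
    logDisc t (∑ a ∈ s, f a) ≤ ∑ a ∈ s, logDisc t (f a) := by
  classical
  induction s using Finset.induction_on with
  | empty => simp [logDisc_zero]
  | insert a s ha ih =>
    rw [Finset.sum_insert ha, Finset.sum_insert ha]
    exact (logDisc_add ht _ _).trans (add_le_add le_rfl ih)

/-! ## arrangement varieties -/

variable {n r : ℕ}

theorem pair_diag (m : Fin n ⊕ Fin r → ℤ) (s : ℝ) :
    pair m (s • toReal (diag n r)) = s * ((∑ y, m (Sum.inr y) : ℤ) : ℝ) := by
  rw [pair_smul]
  congr 1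
  simp only [pair, toReal, diag, Fintype.sum_sum_type, Sum.elim_inl, Sum.elim_inr]
  push_cast
  simp

theorem low_diag {S : Finset (Fin n ⊕ Fin r → ℤ)} (h : ∀ m ∈ S, ∑ y, m (Sum.inr y) = 0)
    (x : Fin n ⊕ Fin r → ℝ) (s : ℝ) : low S (x + s • toReal (diag n r)) = low S x := by
  rw [low, low]
  congr 1
  refine Set.image_congr fun m hm => ?_
  rw [pair_add, pair_diag, h m hm]
  simp

theorem psi_diag (psi : Fin n ⊕ Fin r → ℝ) (s : ℝ) :
    ∑ j, psi j * (s • toReal (diag n r)) j = s * ∑ y, psi (Sum.inr y) := by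
  simp only [Fintype.sum_sum_type, Pi.smul_apply, smul_eq_mul, toReal, diag, Sum.elim_inl,
    Sum.elim_inr, Int.cast_zero, Int.cast_one, mul_zero, mul_one, Finset.sum_const_zero, zero_add]
  rw [Finset.mul_sum]
  exact Finset.sum_congr rfl fun y _ => by ring

theorem logDisc_diag {t : GenPair (Fin n ⊕ Fin r)}
    (h : ∀ a ∈ t.parts, ∀ m ∈ a.2, ∑ y, m (Sum.inr y) = 0)
    (x : Fin n ⊕ Fin r → ℝ) (s : ℝ) :
    logDisc t (x + s • toReal (diag n r)) = logDisc t x + s * ∑ y, t.psi (Sum.inr y) := by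
  rw [logDisc, logDisc]
  have h1 : (t.parts.map fun a => a.1 * low a.2 (x + s • toReal (diag n r))).sum =
      (t.parts.map fun a => a.1 * low a.2 x).sum := by
    congr 1
    refine List.map_congr_left fun a ha => ?_
    rw [low_diag (h a ha)]
  rw [h1]
  simp only [Pi.add_apply, mul_add, Finset.sum_add_distrib]
  rw [psi_diag]
  ring

/-! ## the auxiliary toric pair -/

/-- the characters `- ∑ y ∈ Q, e_y` for sets `Q` of `c + 1` elements -/
def top (n r c : ℕ) : Finset (Fin n ⊕ Fin r → ℤ) := by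
  classical
  exact (powersetCard (c + 1) univ).image
    (fun Q => Sum.elim (fun _ => 0) (fun y => if y ∈ Q then -1 else 0))

/-- the toric pair on the ambient space -/
def big (c : ℕ) (t : GenPair (Fin n ⊕ Fin r)) : GenPair (Fin n ⊕ Fin r) where
  p := t.p
  v := t.v
  psi := Sum.elim (fun i => t.psi (Sum.inl i)) (fun y => t.psi (Sum.inr y) - 1)
  parts := (1, top n r c) :: t.parts

/-- largest sum of `c + 1` of the coordinates -/
def tp (c : ℕ) (x : Fin n ⊕ Fin r → ℝ) : ℝ := - low (top n r c) x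

theorem pair_top (Q : Finset (Fin r)) (x : Fin n ⊕ Fin r → ℝ) [DecidablePred (· ∈ Q)] :
    pair (Sum.elim (fun _ => 0) (fun y => if y ∈ Q then -1 else 0)) x =
      - ∑ y ∈ Q, x (Sum.inr y) := by
  simp only [pair, Fintype.sum_sum_type, Sum.elim_inl, Sum.elim_inr, Int.cast_zero, zero_mul,
    Finset.sum_const_zero, zero_add]
  rw [← Finset.sum_neg_distrib]
  rw [← Finset.sum_subset (Finset.subset_univ Q)]
  · refine Finset.sum_congr rfl fun y hy => ?_
    rw [if_pos hy]; push_cast; ring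
  · intro y _ hy
    rw [if_neg hy]; simp

theorem top_nonempty {c : ℕ} (hc : c < r) : (top n r c).Nonempty := by
  classical
  rw [top]
  apply Finset.Nonempty.image
  rw [Finset.powersetCard_nonempty]
  simpa using hc

theorem le_tp {c : ℕ} (x : Fin n ⊕ Fin r → ℝ) {Q : Finset (Fin r)} (hQ : Q.card = c + 1) :
    ∑ y ∈ Q, x (Sum.inr y) ≤ tp c x := by
  classical
  have h1 : (Sum.elim (fun _ => 0) (fun y => if y ∈ Q then -1 else 0) : Fin n ⊕ Fin r → ℤ) ∈
      top n r c := by
    rw [top, Finset.mem_image]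
    refine ⟨Q, ?_, ?_⟩
    · rw [Finset.mem_powersetCard]; exact ⟨Finset.subset_univ _, hQ⟩
    · congr
  have h2 := low_le h1 x
  rw [pair_top] at h2
  rw [tp]
  linarith

theorem exists_tp {c : ℕ} (hc : c < r) (x : Fin n ⊕ Fin r → ℝ) :
    ∃ Q : Finset (Fin r), Q.card = c + 1 ∧ tp c x = ∑ y ∈ Q, x (Sum.inr y) := by
  classical
  obtain ⟨m, hm, h⟩ := exists_low (top_nonempty (n := n) hc) x
  rw [top, Finset.mem_image] at hm
  obtain ⟨Q, hQ, rfl⟩ := hm
  rw [Finset.mem_powersetCard] at hQ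
  refine ⟨Q, hQ.2, ?_⟩
  rw [tp, h]
  have := pair_top Q x
  have e : (fun y => if y ∈ Q then (-1 : ℤ) else 0) = fun y => if y ∈ Q then (-1 : ℤ) else 0 := rfl
  rw [show (Sum.elim (fun _ => 0) (fun y => if y ∈ Q then -1 else 0) : Fin n ⊕ Fin r → ℤ) =
    Sum.elim (fun _ => 0) (fun y => if y ∈ Q then -1 else 0) from rfl]
  rw [neg_eq_iff_eq_neg, ← this]

theorem logDisc_big (c : ℕ) (t : GenPair (Fin n ⊕ Fin r)) (x : Fin n ⊕ Fin r → ℝ) :
    logDisc (big c t) x = logDisc t x - ∑ y, x (Sum.inr y) + tp c x := by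
  simp only [logDisc, big, List.map_cons, List.sum_cons, Fintype.sum_sum_type, Sum.elim_inl,
    Sum.elim_inr, sub_mul, one_mul, Finset.sum_sub_distrib, tp]
  ring

end Pool.Agent.helper22.ARR
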